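import Pool.Agent.P.MP_7f9919_an.LowRank

/-!
A theorem of the alternative, and the uniform form of the low rank expansion.
-/

set_option autoImplicit false
set_option linter.unusedSectionVars false

namespace Pool.Agent.P.MP_7f9919_an

open Finset Matrix

open scoped InnerProductSpace ComplexConjugate

theorem alternative {ι : Type} [Fintype ι] (C : Set (ι → ℝ)) (hC : Convex ℝ C) (hne : C.Nonempty)
    (h : ∀ l : ι → ℝ, (∀ i, 0 ≤ l i) → l ≠ 0 → ∃ c ∈ C, 0 < ∑ i, l i * c i) :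
    ∃ c ∈ C, ∀ i, 0 < c i := by
  classical
  by_contra hcon
  have hO : Convex ℝ {x : ι → ℝ | ∀ i, 0 < x i} := by
    intro x hx y hy a b ha hb hab i
    exact (convex_Ioi (0 : ℝ)) (hx i) (hy i) ha hb hab
  have hO' : IsOpen {x : ι → ℝ | ∀ i, 0 < x i} := by
    rw [Set.ofPred_forall]
    exact isOpen_iInter_of_finite fun i => isOpen_lt continuous_const (continuous_apply i)
  have hd : Disjoint {x : ι → ℝ | ∀ i, 0 < x i} C :=
    Set.disjoint_left.2 fun x hx hx' => hcon ⟨x, hx', hx⟩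
  obtain ⟨f, u, h1, h2⟩ := geometric_hahn_banach_open hO hO' hC hd
  have hf : ∀ x : ι → ℝ, f x = ∑ i, x i * f (Pi.single i 1) := by
    intro x
    conv_lhs => rw [pi_eq_sum_univ' x]
    rw [map_sum]
    simp only [map_smul, smul_eq_mul]
  have hneg : ∀ i, f (Pi.single i 1) ≤ 0 := by
    intro i
    by_contra hpos
    have hp : 0 < f (Pi.single i 1) := not_le.1 hpos
    set t := (|u - f 1| + 1) / f (Pi.single i 1) with ht
    have ht0 : 0 < t := by positivity
    have := h1 (1 + t • Pi.single i 1) (fun j => by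
      rw [Pi.add_apply, Pi.smul_apply, Pi.one_apply, smul_eq_mul]
      have : (0 : ℝ) ≤ (Pi.single i 1 : ι → ℝ) j := by
        rw [Pi.single_apply]; split_ifs <;> norm_num
      positivity)
    rw [map_add, map_smul, smul_eq_mul, ht, div_mul_cancel₀ _ hp.ne'] at this
    have := le_abs_self (u - f 1)
    linarith
  have hu : 0 ≤ u := by
    by_contra hneg'
    have hu' : 0 < -u := by linarith
    set t := -u / (|f 1| + 1) with ht
    have ht0 : 0 < t := by positivity
    have h3 := h1 (t • 1) (fun j => by simpa using ht0)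
    rw [map_smul, smul_eq_mul] at h3
    have h4 : t * (|f 1| + 1) = -u := div_mul_cancel₀ _ (by positivity)
    have h5 := neg_abs_le (f 1)
    nlinarith
  by_cases hl : (fun i => -f (Pi.single i 1)) = 0
  · obtain ⟨c, hc⟩ := hne
    have h0 : ∀ x, f x = 0 := by
      intro x
      rw [hf]
      refine sum_eq_zero fun i _ => ?_
      have := congrFun hl i
      simp only [Pi.zero_apply, neg_eq_zero] at this
      rw [this, mul_zero]
    have h3 := h1 1 fun _ => one_pos
    have h4 := h2 c hc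
    rw [h0] at h3 h4
    linarith
  · obtain ⟨c, hc, hpos⟩ := h _ (fun i => neg_nonneg.2 (hneg i)) hl
    have h4 := h2 c hc
    rw [hf] at h4
    have : ∑ i, -f (Pi.single i 1) * c i = -∑ i, c i * f (Pi.single i 1) := by
      rw [← sum_neg_distrib]
      exact sum_congr rfl fun i _ => by ring
    linarith

variable {E : Type} [NormedAddCommGroup E] [InnerProductSpace ℂ E]

/-- The defect of invariance of a vector state, tested on `b`. -/
noncomputable def dfc (u b : E →L[ℂ] E) (v : E) : ℝ := (⟪u v, b (u v)⟫_ℂ - ⟪v, b v⟫_ℂ).re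

theorem dfc_comb (u b b' : E →L[ℂ] E) (x y : ℝ) (v : E) :
    dfc u ((x : ℂ) • b + (y : ℂ) • b') v = x * dfc u b v + y * dfc u b' v := by
  simp only [dfc, _root_.add_apply, _root_.smul_apply, inner_add_right,
    inner_smul_right, Complex.sub_re, Complex.add_re, Complex.re_ofReal_mul]
  ring

theorem dfc_smul (u b : E →L[ℂ] E) (x : ℝ) (v : E) :
    dfc u b ((x : ℂ) • v) = x ^ 2 * dfc u b v := by
  simp only [dfc, map_smul, inner_smul_left, inner_smul_right, Complex.conj_ofReal,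
    Complex.sub_re, Complex.re_ofReal_mul]
  ring

theorem dfc_zero (u : E →L[ℂ] E) (v : E) : dfc u 0 v = 0 := by simp [dfc]

theorem dfc_zero' (u b : E →L[ℂ] E) : dfc u b 0 = 0 := by simp [dfc]

theorem uniform_low_rank {S : Type} [Fintype S] (u : S → E →L[ℂ] E) {δ : ℝ} (hδ : 0 < δ)
    {ι : Type} [Fintype ι]
    (h : ∀ v : ι → E, ∃ (s : S) (b : E →L[ℂ] E), ‖b‖ ≤ 1 ∧
      δ * ∑ l, ‖v l‖ ^ 2 ≤ ∑ l, dfc (u s) b (v l)) (v : ι → E) :
    ∃ b : S → E →L[ℂ] E, (∀ s, ‖b s‖ ≤ 1) ∧ ∀ l, δ / 2 * ‖v l‖ ^ 2 ≤ ∑ s, dfc (u s) (b s) (v l) := by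
  classical
  let g : (S → E →L[ℂ] E) → ι → ℝ := fun b l =>
    ∑ s, dfc (u s) (b s) (v l) - δ / 2 * ‖v l‖ ^ 2 + if v l = 0 then 1 else 0
  obtain ⟨c, ⟨b, hb, rfl⟩, hc⟩ := alternative (g '' {b | ∀ s, ‖b s‖ ≤ 1}) (by
      rintro _ ⟨b, hb, rfl⟩ _ ⟨b', hb', rfl⟩ x y hx hy hxy
      refine ⟨fun s => (x : ℂ) • b s + (y : ℂ) • b' s, fun s => ?_, ?_⟩
      · refine (norm_add_le _ _).trans ?_
        rw [norm_smul, norm_smul, Complex.norm_real, Complex.norm_real, Real.norm_of_nonneg hx,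
          Real.norm_of_nonneg hy]
        nlinarith [hb s, hb' s]
      · funext l
        simp only [g, dfc_comb, sum_add_distrib, ← mul_sum, Pi.add_apply, Pi.smul_apply,
          smul_eq_mul]
        have : y = 1 - x := by linarith
        rw [this]
        ring)
    ⟨_, 0, fun s => by simp, rfl⟩ (by
      intro l hl hl0
      obtain ⟨s, b, hb, hle⟩ := h fun i => ((√(l i) : ℝ) : ℂ) • v i
      refine ⟨_, ⟨Pi.single s b, fun s' => ?_, rfl⟩, ?_⟩
      · rcases eq_or_ne s' s with rfl | hs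
        · rw [Pi.single_eq_same]; exact hb
        · rw [Pi.single_eq_of_ne hs, norm_zero]; exact zero_le_one
      · have e : ∀ i, ∑ s', dfc (u s') ((Pi.single s b : S → E →L[ℂ] E) s') (v i) =
            dfc (u s) b (v i) := by
          intro i
          rw [sum_eq_single s, Pi.single_eq_same]
          · intro s' _ hs
            rw [Pi.single_eq_of_ne hs, dfc_zero]
          · simp
        simp only [dfc_smul, norm_smul, mul_pow, Complex.norm_real, Real.norm_eq_abs, sq_abs,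
          Real.sq_sqrt (hl _)] at hle
        have e2 : ∑ i, l i * g (Pi.single s b) i = ∑ i, l i * dfc (u s) b (v i) -
            δ * ∑ i, l i * ‖v i‖ ^ 2 +
            ∑ i, l i * (δ / 2 * ‖v i‖ ^ 2 + if v i = 0 then 1 else 0) := by
          rw [mul_sum, ← sum_sub_distrib, ← sum_add_distrib]
          refine sum_congr rfl fun i _ => ?_
          simp only [g, e]
          ring
        obtain ⟨i, hi⟩ := Function.ne_iff.1 hl0
        have hpos : ∀ i, 0 < δ / 2 * ‖v i‖ ^ 2 + if v i = 0 then 1 else 0 := by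
          intro i
          split_ifs with h0
          · positivity
          · have := norm_pos_iff.2 h0
            positivity
        have h3 : 0 < ∑ i, l i * (δ / 2 * ‖v i‖ ^ 2 + if v i = 0 then 1 else 0) :=
          sum_pos' (fun i _ => mul_nonneg (hl i) (hpos i).le)
            ⟨i, mem_univ _, mul_pos (lt_of_le_of_ne (hl i) (Ne.symm hi)) (hpos i)⟩
        rw [e2]
        linarith)
  refine ⟨b, hb, fun l => ?_⟩
  by_cases h0 : v l = 0
  · simp [h0, dfc_zero']
  · have := hc l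
    simp only [g, if_neg h0] at this
    linarith

variable {Y : Type} [Fintype Y] [DecidableEq Y]

theorem trace_mul_eq {ι : Type} [Fintype ι] (b : Matrix Y Y ℂ) (w : ι → EuclideanSpace ℂ Y) :
    trace (b * ((Matrix.of fun y l => w l y) * (Matrix.of fun y l => w l y)ᴴ)) =
      ∑ l, ⟪w l, toEuclideanCLM (𝕜 := ℂ) b (w l)⟫_ℂ := by
  rw [← Matrix.mul_assoc, trace_mul_comm, trace]
  refine sum_congr rfl fun l _ => ?_
  rw [diag_apply, mul_apply, PiLp.inner_apply]
  refine sum_congr rfl fun y _ => ?_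
  rw [RCLike.inner_apply, conjTranspose_apply, mul_comm]
  rfl

/-- The low rank expansion in operator form, with one family of test operators for all the given
vectors. -/
theorem low_rank_op (σ τ : Equiv.Perm Y) (π : Y → T1 × T1) (hπ : Function.Injective π)
    (hσ : ∀ z, π (σ z) = ((π z).1 + (3 : ℤ) • (π z).2, (π z).2))
    (hτ : ∀ z, π (τ z) = ((π z).1, (π z).2 + (3 : ℤ) • (π z).1)) (r : ℕ)
    (hD : ∀ Big : Finset Y, Big.card ≤ 24 * r → ∃ ζ : Y → T1 × T1,
      (∀ z, ζ (σ z) = ((ζ z).1 + (3 : ℤ) • (ζ z).2, (ζ z).2)) ∧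
      (∀ z, ζ (τ z) = ((ζ z).1, (ζ z).2 + (3 : ℤ) • (ζ z).1)) ∧ (∀ z, ζ z ≠ 0) ∧
      ∀ z ∈ Big, ‖(ζ z).1‖ ≤ 1 / 14 ∧ ‖(ζ z).2‖ ≤ 1 / 14)
    (u : Fin 4 → EuclideanSpace ℂ Y →L[ℂ] EuclideanSpace ℂ Y)
    (h0 : ∀ v y, u 0 v y = v (σ y)) (h1 : ∀ v y, u 1 v y = v (τ y))
    (h2 : ∀ v y, u 2 v y = ch (π y).1 * v y) (h3 : ∀ v y, u 3 v y = ch (π y).2 * v y)
    {ι : Type} [Fintype ι] (hι : Fintype.card ι ≤ r) (v : ι → EuclideanSpace ℂ Y) :
    ∃ b : Fin 4 → EuclideanSpace ℂ Y →L[ℂ] EuclideanSpace ℂ Y, (∀ s, ‖b s‖ ≤ 1) ∧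
      ∀ l, 1 / 2048 * ‖v l‖ ^ 2 ≤ ∑ s, dfc (u s) (b s) (v l) := by
  have := uniform_low_rank u (δ := 1 / 1024) (by norm_num) (fun v : ι → EuclideanSpace ℂ Y => by
    obtain ⟨s, b, hb, hle⟩ := low_rank_fin σ τ π hπ hσ hτ r hD hι (Matrix.of fun y l => v l y)
      (fun s => Matrix.of fun y l => u s (v l) y) (fun y l => h0 _ _) (fun y l => h1 _ _)
      (fun y l => h2 _ _) (fun y l => h3 _ _)
    refine ⟨s, toEuclideanCLM (𝕜 := ℂ) b, ?_, ?_⟩
    · have e : star (toEuclideanCLM (𝕜 := ℂ) b) * toEuclideanCLM (𝕜 := ℂ) b = 1 := by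
        rw [← map_star, ← map_mul, star_eq_conjTranspose, hb, map_one]
      have e2 := CStarRing.norm_star_mul_self (x := toEuclideanCLM (𝕜 := ℂ) b)
      rw [e] at e2
      have e3 : ‖(1 : EuclideanSpace ℂ Y →L[ℂ] EuclideanSpace ℂ Y)‖ ≤ 1 :=
        ContinuousLinearMap.norm_id_le
      nlinarith [norm_nonneg (toEuclideanCLM (𝕜 := ℂ) b)]
    · rw [Matrix.mul_sub, trace_sub, trace_mul_eq, trace_mul_eq, ← sum_sub_distrib,
        Complex.re_sum] at hle
      refine le_trans (le_of_eq ?_) hle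
      rw [hs, sum_comm, one_div, inv_mul_eq_div]
      congr 1
      refine sum_congr rfl fun l _ => ?_
      rw [EuclideanSpace.norm_sq_eq]
      rfl) v
  norm_num at this ⊢
  exact this

end Pool.Agent.P.MP_7f9919_an
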