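import Pool.Agent.P.MP_7f9919_an.Marg

/-!
Product vector states and their faithfulness.
-/

set_option autoImplicit false
set_option linter.unusedSectionVars false

namespace Pool.Agent.P.MP_7f9919_an

open scoped InnerProductSpace ComplexConjugate TensorProduct

theorem eq_zero_of_sep {M N I J : Type} [AddCommGroup M] [Module ℂ M] [AddCommGroup N]
    [Module ℂ N] (f : I → M →ₗ[ℂ] ℂ) (g : J → N →ₗ[ℂ] ℂ) (hf : ∀ m, (∀ i, f i m = 0) → m = 0)
    (hg : ∀ n, (∀ j, g j n = 0) → n = 0) (F : I → J → M ⊗[ℂ] N →ₗ[ℂ] ℂ)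
    (hF : ∀ i j m n, F i j (m ⊗ₜ n) = f i m * g j n) (x : M ⊗[ℂ] N) (hx : ∀ i j, F i j x = 0) :
    x = 0 := by
  classical
  let b := Module.Basis.ofVectorSpace ℂ N
  let y : I → M ⊗[ℂ] N →ₗ[ℂ] N := fun i =>
    (TensorProduct.lid ℂ N).toLinearMap ∘ₗ TensorProduct.map (f i) LinearMap.id
  have h1 : ∀ i j z, g j (y i z) = F i j z := by
    intro i j z
    induction z with
    | zero => simp
    | add a b ha hb => rw [map_add, map_add, map_add, ha, hb]
    | tmul m n => simp [y, hF]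
  have h2 : ∀ i k z, f i (TensorProduct.equivFinsuppOfBasisRight b z k) = b.repr (y i z) k := by
    intro i k z
    induction z with
    | zero => simp
    | add a b ha hb => simp only [map_add, Finsupp.add_apply, ha, hb]
    | tmul m n => simp [y, mul_comm]
  refine (TensorProduct.equivFinsuppOfBasisRight b).map_eq_zero_iff.1 (Finsupp.ext fun k => ?_)
  refine hf _ fun i => ?_
  rw [h2, hg (y i x) fun j => by rw [h1, hx]]
  simp

variable {A A' : Type} [Ring A] [StarRing A] [Algebra ℂ A] [StarModule ℂ A]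
  [Ring A'] [StarRing A'] [Algebra ℂ A'] [StarModule ℂ A']
  {E E' : Type} [NormedAddCommGroup E] [InnerProductSpace ℂ E] [CompleteSpace E]
  [NormedAddCommGroup E'] [InnerProductSpace ℂ E'] [CompleteSpace E']

theorem commute_scalar (S T : ℂ →L[ℂ] ℂ) : Commute S T := by
  refine ContinuousLinearMap.ext_ring ?_
  show S (T 1) = T (S 1)
  rw [← mul_one (T 1), ← smul_eq_mul, map_smul, ← mul_one (S 1), ← smul_eq_mul (S 1), map_smul]
  simp [mul_comm]

/-- The product of two vector functionals. -/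
noncomputable def prodState (L : A →⋆ₐ[ℂ] (E →L[ℂ] E)) (η : E) (L' : A' →⋆ₐ[ℂ] (E' →L[ℂ] E'))
    (η' : E') : PosFun (A ⊗[ℂ] A') :=
  pairPos L (ContinuousLinearMap.toSpanSingleton ℂ η) L' (ContinuousLinearMap.toSpanSingleton ℂ η')
    (fun _ _ => commute_scalar _ _) 1

theorem prodState_bdd (L : A →⋆ₐ[ℂ] (E →L[ℂ] E)) (η : E) (L' : A' →⋆ₐ[ℂ] (E' →L[ℂ] E'))
    (η' : E') : (prodState L η L' η').Bdd := pairPos_bdd _ _ _ _ _ _

theorem prodState_tmul (L : A →⋆ₐ[ℂ] (E →L[ℂ] E)) (η : E) (L' : A' →⋆ₐ[ℂ] (E' →L[ℂ] E'))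
    (η' : E') (x : A) (y : A') :
    (prodState L η L' η').f (x ⊗ₜ y) = ⟪η, L x η⟫_ℂ * ⟪η', L' y η'⟫_ℂ := by
  show pairFun _ _ _ _ = _
  have e : compress L' (ContinuousLinearMap.toSpanSingleton ℂ η') y 1 = ⟪η', L' y η'⟫_ℂ := by
    have := inner_compress L' (ContinuousLinearMap.toSpanSingleton ℂ η') y 1 1
    simpa using this
  rw [pairFun_tmul, e, inner_compress]
  simp [mul_comm]

theorem inner_prodState (L : A →⋆ₐ[ℂ] (E →L[ℂ] E)) (η : E) (L' : A' →⋆ₐ[ℂ] (E' →L[ℂ] E'))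
    (η' : E') (x x' : A) (y y' : A') :
    ⟪(prodState L η L' η').mk' (x ⊗ₜ y), (prodState L η L' η').mk' (x' ⊗ₜ y')⟫_ℂ =
      ⟪L x η, L x' η⟫_ℂ * ⟪L' y η', L' y' η'⟫_ℂ := by
  rw [PosFun.inner_mk, TensorProduct.star_tmul, Algebra.TensorProduct.tmul_mul_tmul,
    prodState_tmul, inner_rep, inner_rep, map_mul, map_mul]
  rfl

theorem prodState_faithful (L : A →⋆ₐ[ℂ] (E →L[ℂ] E)) (η : E) (L' : A' →⋆ₐ[ℂ] (E' →L[ℂ] E'))
    (η' : E') (h : ∀ a, (∀ c d, ⟪η, L (c * a * d) η⟫_ℂ = 0) → a = 0)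
    (h' : ∀ a, (∀ c d, ⟪η', L' (c * a * d) η'⟫_ℂ = 0) → a = 0) (x : A ⊗[ℂ] A')
    (hx : (prodState L η L' η').nu (prodState_bdd L η L' η') x = 0) : x = 0 := by
  refine eq_zero_of_sep
    (fun i : A × A => (innerₛₗ ℂ η).comp ((ContinuousLinearMap.apply ℂ E η).toLinearMap.comp
      (L.toAlgHom.toLinearMap.comp (LinearMap.mulLeftRight ℂ i))))
    (fun i : A' × A' => (innerₛₗ ℂ η').comp ((ContinuousLinearMap.apply ℂ E' η').toLinearMap.comp
      (L'.toAlgHom.toLinearMap.comp (LinearMap.mulLeftRight ℂ i))))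
    (fun a ha => h a fun c d => ?_) (fun a ha => h' a fun c d => ?_)
    (fun i j => (prodState L η L' η').f.comp (LinearMap.mulLeftRight ℂ (i.1 ⊗ₜ j.1, i.2 ⊗ₜ j.2)))
    (fun i j m n => ?_) x fun i j => ?_
  · simpa using ha (c, d)
  · simpa using ha (c, d)
  · obtain ⟨c, d⟩ := i
    obtain ⟨c', d'⟩ := j
    simp [prodState_tmul]
  · rw [LinearMap.comp_apply, LinearMap.mulLeftRight_apply]
    exact PosFun.f_eq_zero_of_nu _ _ hx _ _

theorem sep_id {η : E} (hη : η ≠ 0) (a : E →L[ℂ] E)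
    (h : ∀ c d : E →L[ℂ] E, ⟪η, StarAlgHom.id ℂ (E →L[ℂ] E) (c * a * d) η⟫_ℂ = 0) : a = 0 := by
  ext v
  have := h ((innerSL ℂ (a v)).smulRight η) ((innerSL ℂ η).smulRight v)
  simpa [inner_smul_right, hη] using this

end Pool.Agent.P.MP_7f9919_an
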