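import Pool.Agent.P.MP_7f9919_an.Defs

/-!
C*-seminorms attached to positive functionals on a *-algebra.
-/

set_option autoImplicit false
set_option linter.unusedSectionVars false

namespace Pool.Agent.P.MP_7f9919_an

open scoped InnerProductSpace ComplexConjugate

variable {A : Type} [Ring A] [StarRing A] [Algebra ℂ A] [StarModule ℂ A]

/-- A C*-seminorm. -/
structure IsCStarSemi (ν : A → ℝ) : Prop where
  nonneg : ∀ x, 0 ≤ ν x
  add_le : ∀ x y, ν (x + y) ≤ ν x + ν y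
  smul : ∀ (c : ℂ) (x : A), ν (c • x) = ‖c‖ * ν x
  mul_le : ∀ x y, ν (x * y) ≤ ν x * ν y
  star_eq : ∀ x, ν (star x) = ν x
  cstar : ∀ x, ν (star x * x) = ν x ^ 2

theorem IsCStarSemi.max {ν μ : A → ℝ} (h : IsCStarSemi ν) (k : IsCStarSemi μ) :
    IsCStarSemi fun x => max (ν x) (μ x) where
  nonneg x := le_max_of_le_left (h.nonneg x)
  add_le x y := max_le ((h.add_le x y).trans (add_le_add (le_max_left _ _) (le_max_left _ _)))
    ((k.add_le x y).trans (add_le_add (le_max_right _ _) (le_max_right _ _)))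
  smul c x := by
    show Max.max _ _ = _
    rw [h.smul, k.smul, mul_max_of_nonneg _ _ (norm_nonneg c)]
  mul_le x y := max_le
    ((h.mul_le x y).trans (mul_le_mul (le_max_left _ _) (le_max_left _ _) (h.nonneg y)
      (le_max_of_le_left (h.nonneg x))))
    ((k.mul_le x y).trans (mul_le_mul (le_max_right _ _) (le_max_right _ _) (k.nonneg y)
      (le_max_of_le_left (h.nonneg x))))
  star_eq x := by
    show Max.max _ _ = _
    rw [h.star_eq, k.star_eq]
  cstar x := by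
    show Max.max _ _ = _
    rw [h.cstar, k.cstar]
    rcases le_total (ν x) (μ x) with hle | hle
    · rw [max_eq_right hle, max_eq_right (pow_le_pow_left₀ (h.nonneg x) hle 2)]
    · rw [max_eq_left hle, max_eq_left (pow_le_pow_left₀ (k.nonneg x) hle 2)]

theorem IsCStarSemi.isCStarNorm {ν : A → ℝ} (h : IsCStarSemi ν) (h0 : ∀ x, ν x = 0 → x = 0) :
    IsCStarNorm ν :=
  ⟨h.nonneg, h0, h.add_le, h.smul, h.mul_le, h.star_eq, h.cstar⟩

variable (A) in
/-- A positive hermitian functional. -/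
structure PosFun where
  /-- the underlying linear functional -/
  f : A →ₗ[ℂ] ℂ
  herm : ∀ z, f (star z) = conj (f z)
  pos : ∀ z, 0 ≤ (f (star z * z)).re

namespace PosFun

variable (φ : PosFun A)

/-- The algebra with the semi-inner product given by `φ`. -/
def Pre (_φ : PosFun A) : Type := A

instance : AddCommGroup φ.Pre := inferInstanceAs (AddCommGroup A)
instance : Module ℂ φ.Pre := inferInstanceAs (Module ℂ A)

/-- The identity map. -/
def mk' : A ≃ₗ[ℂ] φ.Pre := LinearEquiv.refl ℂ _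

/-- The semi-inner product. -/
noncomputable abbrev core : PreInnerProductSpace.Core ℂ φ.Pre where
  inner a b := φ.f (star (φ.mk'.symm a) * φ.mk'.symm b)
  conj_inner_symm a b := by rw [← φ.herm, star_mul, star_star]
  re_inner_nonneg a := φ.pos _
  add_left _ _ _ := by rw [map_add, star_add, add_mul, map_add]
  smul_left := by simp

noncomputable instance : SeminormedAddCommGroup φ.Pre :=
  InnerProductSpace.Core.toSeminormedAddCommGroup (c := φ.core)
noncomputable instance : InnerProductSpace ℂ φ.Pre := InnerProductSpace.ofCore φ.core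

theorem inner_mk (a b : A) : ⟪φ.mk' a, φ.mk' b⟫_ℂ = φ.f (star a * b) := rfl

theorem norm_mk_sq (a : A) : ‖φ.mk' a‖ ^ 2 = (φ.f (star a * a)).re := by
  rw [← inner_mk, ← inner_self_eq_norm_sq (𝕜 := ℂ)]; rfl

/-- Every left multiplication is bounded. -/
def Bdd : Prop := ∀ x : A, ∃ C : ℝ, ∀ z : A, ‖φ.mk' (x * z)‖ ≤ C * ‖φ.mk' z‖

/-- Left multiplication as a continuous linear map. -/
noncomputable def lmul (h : φ.Bdd) (x : A) : φ.Pre →L[ℂ] φ.Pre :=
  (φ.mk'.toLinearMap ∘ₗ LinearMap.mul ℂ A x ∘ₗ φ.mk'.symm.toLinearMap).mkContinuousOfExistsBound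
    (h x)

theorem lmul_mk (h : φ.Bdd) (x z : A) : φ.lmul h x (φ.mk' z) = φ.mk' (x * z) := rfl

/-- The C*-seminorm of the representation. -/
noncomputable def nu (h : φ.Bdd) (x : A) : ℝ := ‖φ.lmul h x‖

theorem le_nu (h : φ.Bdd) (x z : A) : ‖φ.mk' (x * z)‖ ≤ φ.nu h x * ‖φ.mk' z‖ :=
  (φ.lmul h x).le_opNorm (φ.mk' z)

theorem nu_le (h : φ.Bdd) (x : A) {C : ℝ} (hC : 0 ≤ C)
    (hb : ∀ z : A, ‖φ.mk' (x * z)‖ ≤ C * ‖φ.mk' z‖) : φ.nu h x ≤ C :=
  (φ.lmul h x).opNorm_le_bound hC hb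

theorem nu_nonneg (h : φ.Bdd) (x : A) : 0 ≤ φ.nu h x := ContinuousLinearMap.opNorm_nonneg _

theorem nu_mul_le (h : φ.Bdd) (x y : A) : φ.nu h (x * y) ≤ φ.nu h x * φ.nu h y := by
  refine φ.nu_le h _ (mul_nonneg (φ.nu_nonneg h x) (φ.nu_nonneg h y)) fun z => ?_
  rw [mul_assoc, mul_assoc]
  exact (φ.le_nu h x _).trans (mul_le_mul_of_nonneg_left (φ.le_nu h y z) (φ.nu_nonneg h x))

theorem nu_sq_le (h : φ.Bdd) (x : A) : φ.nu h x ^ 2 ≤ φ.nu h (star x * x) := by
  have h1 : φ.nu h x ≤ √(φ.nu h (star x * x)) := by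
    refine φ.nu_le h x (Real.sqrt_nonneg _) fun z => ?_
    have h2 : ‖φ.mk' (x * z)‖ ^ 2 ≤ φ.nu h (star x * x) * ‖φ.mk' z‖ ^ 2 := by
      rw [norm_mk_sq]
      have h3 : φ.f (star (x * z) * (x * z)) = ⟪φ.mk' z, φ.mk' (star x * x * z)⟫_ℂ := by
        rw [inner_mk, star_mul]; simp only [mul_assoc]
      rw [h3]
      refine (Complex.re_le_norm _).trans ((norm_inner_le_norm _ _).trans ?_)
      have := mul_le_mul_of_nonneg_left (φ.le_nu h (star x * x) z) (norm_nonneg (φ.mk' z))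
      linarith
    refine le_of_sq_le_sq ?_ (by positivity)
    rw [mul_pow, Real.sq_sqrt (φ.nu_nonneg h _)]
    exact h2
  calc φ.nu h x ^ 2 ≤ √(φ.nu h (star x * x)) ^ 2 := pow_le_pow_left₀ (φ.nu_nonneg h x) h1 2
    _ = _ := Real.sq_sqrt (φ.nu_nonneg h _)

theorem nu_le_star (h : φ.Bdd) (x : A) : φ.nu h x ≤ φ.nu h (star x) := by
  have h1 := (φ.nu_sq_le h x).trans (φ.nu_mul_le h (star x) x)
  rcases (φ.nu_nonneg h x).eq_or_lt with h0 | h0
  · rw [← h0]; exact φ.nu_nonneg h _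
  · rw [sq] at h1
    exact le_of_mul_le_mul_right h1 h0

theorem isCStarSemi (h : φ.Bdd) : IsCStarSemi (φ.nu h) where
  nonneg := φ.nu_nonneg h
  add_le x y := by
    have : φ.lmul h (x + y) = φ.lmul h x + φ.lmul h y := by
      ext z
      exact congrArg φ.mk' (add_mul x y _) |>.trans (map_add _ _ _)
    simp only [nu, this]
    exact ContinuousLinearMap.opNorm_add_le _ _
  smul c x := by
    have hle : ∀ (c : ℂ) (x : A), φ.nu h (c • x) ≤ ‖c‖ * φ.nu h x := by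
      intro c x
      refine φ.nu_le h _ (mul_nonneg (norm_nonneg _) (φ.nu_nonneg h x)) fun z => ?_
      rw [smul_mul_assoc, map_smul, norm_smul, mul_assoc]
      exact mul_le_mul_of_nonneg_left (φ.le_nu h x z) (norm_nonneg _)
    refine le_antisymm (hle c x) ?_
    rcases eq_or_ne c 0 with rfl | hc
    · rw [norm_zero, zero_mul]; exact φ.nu_nonneg h _
    · have h1 := hle c⁻¹ (c • x)
      rw [smul_smul, inv_mul_cancel₀ hc, one_smul, norm_inv] at h1
      have h2 := mul_le_mul_of_nonneg_left h1 (norm_nonneg c)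
      rwa [← mul_assoc, mul_inv_cancel₀ (norm_ne_zero_iff.2 hc), one_mul] at h2
  mul_le := φ.nu_mul_le h
  star_eq x := le_antisymm (by simpa using φ.nu_le_star h (star x)) (φ.nu_le_star h x)
  cstar x := by
    refine le_antisymm ?_ (φ.nu_sq_le h x)
    have h1 := φ.nu_mul_le h (star x) x
    have h2 : φ.nu h (star x) = φ.nu h x :=
      le_antisymm (by simpa using φ.nu_le_star h (star x)) (φ.nu_le_star h x)
    rw [h2, ← sq] at h1
    exact h1

theorem f_eq_zero_of_nu (h : φ.Bdd) {x : A} (hx : φ.nu h x = 0) (w z : A) :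
    φ.f (w * x * z) = 0 := by
  have h1 := φ.le_nu h x z
  rw [hx, zero_mul] at h1
  have h2 : φ.f (w * x * z) = ⟪φ.mk' (star w), φ.mk' (x * z)⟫_ℂ := by
    rw [inner_mk, star_star, mul_assoc]
  have h3 := norm_inner_le_norm (𝕜 := ℂ) (φ.mk' (star w)) (φ.mk' (x * z))
  have h4 : ‖φ.mk' (x * z)‖ = 0 := le_antisymm h1 (norm_nonneg _)
  rw [h4, mul_zero, ← h2] at h3
  exact norm_le_zero_iff.1 h3

theorem norm_unitary_mul {w : A} (hw : star w * w = 1) (z : A) :
    ‖φ.mk' (w * z)‖ = ‖φ.mk' z‖ := by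
  refine (sq_eq_sq₀ (norm_nonneg _) (norm_nonneg _)).1 ?_
  rw [norm_mk_sq, norm_mk_sq, star_mul, mul_assoc, ← mul_assoc (star w), hw, one_mul]

theorem norm_proj_mul_le {q : A} (hq : star q = q) (hq2 : q * q = q) (z : A) :
    ‖φ.mk' (q * z)‖ ≤ ‖φ.mk' z‖ := by
  have h1 : ‖φ.mk' (q * z)‖ ^ 2 = (⟪φ.mk' z, φ.mk' (q * z)⟫_ℂ).re := by
    rw [norm_mk_sq, inner_mk, star_mul, hq, mul_assoc, ← mul_assoc q, hq2]
  have h2 := (Complex.re_le_norm _).trans (norm_inner_le_norm (𝕜 := ℂ) (φ.mk' z) (φ.mk' (q * z)))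
  rw [← h1, sq] at h2
  rcases (norm_nonneg (φ.mk' (q * z))).eq_or_lt with h0 | h0
  · rw [← h0]; exact norm_nonneg _
  · exact le_of_mul_le_mul_right h2 h0

/-- A spectral gap makes the test element small. -/
theorem nu_test_lt (h : φ.Bdd) {ι : Type} [Fintype ι] [Nonempty ι] (w : ι → A)
    (hw : ∀ s, star (w s) * w s = 1) {q : A} (hq : star q = q) (hq2 : q * q = q) {δ : ℝ}
    (hδ : 0 < δ)
    (hgap : ∀ z : A, ∃ s, δ * ‖φ.mk' (q * z)‖ ≤ ‖φ.mk' (w s * (q * z)) - φ.mk' (q * z)‖) :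
    φ.nu h ((∑ s, (1 + w s)) * q) < 2 * Fintype.card ι := by
  classical
  have hc : (1 : ℝ) ≤ Fintype.card ι := by exact_mod_cast Fintype.card_pos
  set δ' := min δ 1 with hδ'
  have hδ0 : 0 < δ' := lt_min hδ one_pos
  have hδ1 : δ' ≤ 1 := min_le_right _ _
  have key : φ.nu h ((∑ s, (1 + w s)) * q) ≤ 2 * Fintype.card ι - δ' ^ 2 / 4 := by
    refine φ.nu_le h _ (by nlinarith) fun z => ?_
    obtain ⟨s₀, hs₀⟩ := hgap z
    set ξ := φ.mk' (q * z) with hξ
    have hξz : ‖ξ‖ ≤ ‖φ.mk' z‖ := φ.norm_proj_mul_le hq hq2 z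
    have e1 : φ.mk' ((∑ s, (1 + w s)) * q * z) = ∑ s, (ξ + φ.mk' (w s * (q * z))) := by
      rw [mul_assoc, Finset.sum_mul, map_sum]
      refine Finset.sum_congr rfl fun s _ => ?_
      rw [add_mul, one_mul, map_add]
    have hn : ∀ s, ‖φ.mk' (w s * (q * z))‖ = ‖ξ‖ := fun s => φ.norm_unitary_mul (hw s) _
    have h1 : ∀ s, ‖ξ + φ.mk' (w s * (q * z))‖ ≤ 2 * ‖ξ‖ := fun s =>
      (norm_add_le _ _).trans (by rw [hn s]; linarith)
    have h2 : ‖ξ + φ.mk' (w s₀ * (q * z))‖ ≤ (2 - δ' ^ 2 / 4) * ‖ξ‖ := by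
      have hp := parallelogram_law_with_norm ℂ ξ (φ.mk' (w s₀ * (q * z)))
      rw [hn s₀, norm_sub_rev] at hp
      have h3 : δ' * ‖ξ‖ ≤ ‖φ.mk' (w s₀ * (q * z)) - ξ‖ :=
        (mul_le_mul_of_nonneg_right (min_le_left _ _) (norm_nonneg _)).trans hs₀
      have h4 := pow_le_pow_left₀ (by positivity) h3 2
      refine le_of_sq_le_sq ?_ (mul_nonneg (by nlinarith) (norm_nonneg _))
      have h5 : 0 ≤ δ' ^ 4 / 16 * ‖ξ‖ ^ 2 := by positivity
      nlinarith
    rw [e1]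
    refine (norm_sum_le _ _).trans ?_
    rw [← Finset.add_sum_erase _ _ (Finset.mem_univ s₀)]
    have h6 := Finset.sum_le_card_nsmul (Finset.univ.erase s₀) _ _ fun s _ => h1 s
    rw [Finset.card_erase_of_mem (Finset.mem_univ _), Finset.card_univ, nsmul_eq_mul,
      Nat.cast_pred Fintype.card_pos] at h6
    have h7 : (2 * Fintype.card ι - δ' ^ 2 / 4) * ‖ξ‖ ≤
        (2 * Fintype.card ι - δ' ^ 2 / 4) * ‖φ.mk' z‖ :=
      mul_le_mul_of_nonneg_left hξz (by nlinarith)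
    nlinarith
  have : 0 < δ' ^ 2 / 4 := by positivity
  linarith

theorem re_f_le_nu (h : φ.Bdd) (h1 : φ.f 1 = 1) (x : A) : (φ.f x).re ≤ φ.nu h x := by
  have e : ‖φ.mk' (1 : A)‖ = 1 := by
    have := φ.norm_mk_sq 1
    rw [star_one, one_mul, h1, Complex.one_re] at this
    exact (pow_eq_one_iff_of_nonneg (norm_nonneg _) two_ne_zero).1 this
  have h2 : φ.f x = ⟪φ.mk' 1, φ.mk' (x * 1)⟫_ℂ := by rw [inner_mk, star_one, one_mul, mul_one]
  have h3 := φ.le_nu h x 1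
  rw [h2]
  refine (Complex.re_le_norm _).trans ((norm_inner_le_norm _ _).trans ?_)
  rw [e] at h3 ⊢
  linarith

end PosFun

end Pool.Agent.P.MP_7f9919_an
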