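import Pool.Agent.P.MP_7f9919_an.Compact

/-!
The Calkin algebra, as a complex *-algebra.
-/

set_option autoImplicit false
set_option linter.unusedSectionVars false

namespace Pool.Agent.P.MP_7f9919_an

variable (H : Type) [NormedAddCommGroup H] [InnerProductSpace ℂ H] [CompleteSpace H]

/-- The ideal of compact operators in the algebra of bounded operators on `H`. -/
def compactIdeal : Ideal (H →L[ℂ] H) where
  carrier := {x | IsCompactOperator x}
  add_mem' hx hy := hx.add hy
  zero_mem' := isCompactOperator_zero
  smul_mem' c _ hx := hx.clm_comp c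

instance : (compactIdeal H).IsTwoSided := ⟨fun b ha => ha.comp_clm b⟩

/-- The Calkin algebra: bounded operators modulo compact operators. -/
def Calkin : Type := (H →L[ℂ] H) ⧸ compactIdeal H

noncomputable instance : Ring (Calkin H) :=
  inferInstanceAs (Ring ((H →L[ℂ] H) ⧸ compactIdeal H))

noncomputable instance : Algebra ℂ (Calkin H) :=
  inferInstanceAs (Algebra ℂ ((H →L[ℂ] H) ⧸ compactIdeal H))

/-- The quotient map onto the Calkin algebra. -/
noncomputable def calkinMk : (H →L[ℂ] H) →ₐ[ℂ] Calkin H := Ideal.Quotient.mkₐ ℂ (compactIdeal H)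

theorem calkinMk_surjective : Function.Surjective (calkinMk H) := Ideal.Quotient.mk_surjective

theorem calkinMk_eq_zero (x : H →L[ℂ] H) : calkinMk H x = 0 ↔ IsCompactOperator x :=
  Ideal.Quotient.eq_zero_iff_mem

/-- The involution of the Calkin algebra, induced by the adjoint. -/
noncomputable instance : Star (Calkin H) where
  star := Quotient.map' star fun x y h => by
    rw [Submodule.quotientRel_def] at h ⊢
    rw [← star_sub]
    exact isCompactOperator_star h

theorem star_calkinMk (x : H →L[ℂ] H) : star (calkinMk H x) = calkinMk H (star x) := rfl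

noncomputable instance : StarRing (Calkin H) where
  star_involutive y := by
    obtain ⟨x, rfl⟩ := calkinMk_surjective H y
    rw [star_calkinMk, star_calkinMk, star_star]
  star_mul y y' := by
    obtain ⟨x, rfl⟩ := calkinMk_surjective H y
    obtain ⟨x', rfl⟩ := calkinMk_surjective H y'
    rw [← map_mul, star_calkinMk, star_calkinMk, star_calkinMk, star_mul, map_mul]
  star_add y y' := by
    obtain ⟨x, rfl⟩ := calkinMk_surjective H y
    obtain ⟨x', rfl⟩ := calkinMk_surjective H y'
    rw [← map_add, star_calkinMk, star_calkinMk, star_calkinMk, star_add, map_add]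

instance : StarModule ℂ (Calkin H) where
  star_smul c y := by
    obtain ⟨x, rfl⟩ := calkinMk_surjective H y
    rw [← map_smul, star_calkinMk, star_calkinMk, star_smul, map_smul]

end Pool.Agent.P.MP_7f9919_an
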