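import Pool.Agent.P.MP_7f9919_an.Marg

/-!
Cardinality computations: the number of free ultrafilters and upper bounds.
-/

set_option autoImplicit false
set_option linter.unusedSectionVars false

namespace Pool.Agent.P.MP_7f9919_an

open Filter Cardinal TopologicalSpace

open scoped InnerProductSpace TensorProduct

open Classical in
/-- The trace of a set on an initial segment. -/
noncomputable def trc (n : ℕ) (A : Set ℕ) : Finset ℕ := (Finset.range n).filter (· ∈ A)

theorem eventually_trc_ne {A B : Set ℕ} (h : A ≠ B) : ∀ᶠ n in atTop, trc n A ≠ trc n B := by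
  obtain ⟨m, hm⟩ : ∃ m, ¬ (m ∈ A ↔ m ∈ B) := by
    by_contra hcon
    push Not at hcon
    exact h (Set.ext hcon)
  filter_upwards [eventually_gt_atTop m] with n hn e
  have := Finset.ext_iff.1 e m
  simp only [trc, Finset.mem_filter, Finset.mem_range, hn, true_and] at this
  exact hm this

theorem pospisil :
    2 ^ 𝔠 ≤ #{U : Ultrafilter ℕ // (U : Filter ℕ) ≤ atTop ∧ {n | Even n} ∈ U} := by
  classical
  obtain ⟨enc, henc⟩ := exists_injective_nat (ℕ × Finset (Finset ℕ))
  let F : Filter (Finset (Set ℕ) × ℕ) := atTop.curry atTop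
  have hF : F.NeBot := by
    rw [← Filter.frequently_true_iff_neBot, frequently_curry_iff]
    exact Frequently.of_forall fun _ => Frequently.of_forall fun _ => trivial
  let g : Set (Set ℕ) → Finset (Set ℕ) × ℕ → ℕ × Finset (Finset ℕ) := fun S p =>
    (p.2, (p.1.filter (· ∈ S)).image (trc p.2))
  let U : Set (Set ℕ) → Ultrafilter ℕ := fun S => (Ultrafilter.of F).map fun p => 2 * enc (g S p)
  have hinj : Function.Injective fun i => 2 * enc i := fun _ _ h =>
    henc (Nat.eq_of_mul_eq_mul_left two_pos h)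
  have h1 : ∀ S, (U S : Filter ℕ) ≤ atTop := by
    intro S
    have a1 : Tendsto (g S) F cofinite := by
      intro s hs
      obtain ⟨m, hm⟩ := (Set.Finite.image Prod.fst hs).bddAbove
      show ∀ᶠ p in F, g S p ∈ s
      rw [eventually_curry_iff]
      refine Eventually.of_forall fun T => ?_
      filter_upwards [eventually_gt_atTop m] with n hn
      by_contra hcon
      exact absurd (hm ⟨_, hcon, rfl⟩) (not_le.2 hn)
    have a2 := (hinj.tendsto_cofinite.comp a1).mono_left (Ultrafilter.of_le F)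
    rwa [Nat.cofinite_eq_atTop] at a2
  have h2 : ∀ S, {n | Even n} ∈ U S := fun S =>
    Ultrafilter.mem_map.2 (univ_mem' fun p => even_two_mul _)
  let B : Set ℕ → Set ℕ := fun A => (fun i => 2 * enc i) '' {i | trc i.1 A ∈ i.2}
  have h3 : ∀ S A, A ∈ S → B A ∈ U S := by
    intro S A hA
    refine Ultrafilter.mem_map.2 (Ultrafilter.of_le F ?_)
    show ∀ᶠ p in F, _
    rw [eventually_curry_iff]
    filter_upwards [eventually_ge_atTop ({A} : Finset (Set ℕ))] with T hT
    refine Eventually.of_forall fun n => ⟨_, ?_, rfl⟩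
    exact Finset.mem_image_of_mem _ (Finset.mem_filter.2 ⟨hT (Finset.mem_singleton_self A), hA⟩)
  have h4 : ∀ S A, A ∉ S → (B A)ᶜ ∈ U S := by
    intro S A hA
    refine Ultrafilter.mem_map.2 (Ultrafilter.of_le F ?_)
    show ∀ᶠ p in F, _
    rw [eventually_curry_iff]
    refine Eventually.of_forall fun T => ?_
    have := (eventually_all_finset (T.filter (· ∈ S))).2 fun A' hA' =>
      eventually_trc_ne (A := A') (B := A) (by
        rintro rfl
        exact hA (Finset.mem_filter.1 hA').2)
    filter_upwards [this] with n hn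
    rintro ⟨i, hi, e⟩
    obtain rfl := hinj e
    obtain ⟨A', hA', e'⟩ := Finset.mem_image.1 hi
    exact hn A' hA' e'
  have h5 : #(Set (Set ℕ)) = 2 ^ 𝔠 := by rw [mk_set, mk_set_nat]
  rw [← h5]
  refine mk_le_of_injective (f := fun S => ⟨U S, h1 S, h2 S⟩) fun S S' h => ?_
  have e : U S = U S' := congrArg Subtype.val h
  ext A
  constructor
  · intro hA
    by_contra hA'
    exact Ultrafilter.compl_mem_iff_notMem.1 (h4 S' A hA') (e ▸ h3 S A hA)
  · intro hA
    by_contra hA'
    exact Ultrafilter.compl_mem_iff_notMem.1 (h4 S A hA') (e ▸ h3 S' A hA)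

theorem card_le_of_separable (Y : Type) [MetricSpace Y] [SeparableSpace Y] [Nonempty Y] :
    #Y ≤ 𝔠 := by
  have h : #(ℕ → ℝ) = 𝔠 := by simp [mk_real]
  rw [← h]
  refine mk_le_of_injective (f := fun y n => dist y (denseSeq Y n)) fun y y' e => ?_
  have := (denseRange_denseSeq Y).equalizer (g := fun z => dist y z) (h := fun z => dist y' z)
    (by fun_prop) (by fun_prop) e
  have h2 := congrFun this y
  simp only [dist_self] at h2
  exact (dist_eq_zero.1 h2.symm).symm

theorem card_clm_le (H : Type) [NormedAddCommGroup H] [NormedSpace ℂ H] [SeparableSpace H] :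
    #(H →L[ℂ] H) ≤ 𝔠 := by
  have h : #(ℕ → H) ≤ 𝔠 := by
    rw [← power_def, mk_nat, ← continuum_power_aleph0]
    exact power_le_power_right (card_le_of_separable H)
  refine le_trans (mk_le_of_injective (f := fun x n => x (denseSeq H n)) fun x y e => ?_) h
  exact DFunLike.coe_injective ((denseRange_denseSeq H).equalizer x.continuous y.continuous e)

theorem card_tensor_le {M N : Type} [AddCommGroup M] [Module ℂ M] [AddCommGroup N] [Module ℂ N]
    (hM : #M ≤ 𝔠) (hN : #N ≤ 𝔠) : #(M ⊗[ℂ] N) ≤ 𝔠 := by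
  have h : #(List (M × N)) ≤ 𝔠 := by
    refine (mk_list_le_max _).trans (max_le aleph0_le_continuum ?_)
    rw [mk_prod, lift_id, lift_id, ← continuum_mul_self]
    exact mul_le_mul' hM hN
  refine le_trans (mk_le_of_surjective
    (f := fun l : List (M × N) => (l.map fun p => p.1 ⊗ₜ[ℂ] p.2).sum) fun z => ?_) h
  induction z with
  | zero => exact ⟨[], rfl⟩
  | tmul m n => exact ⟨[(m, n)], by simp⟩
  | add a b ha hb =>
    obtain ⟨l, rfl⟩ := ha
    obtain ⟨l', rfl⟩ := hb
    exact ⟨l ++ l', by simp⟩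

theorem card_norms_le {C : Type} [Ring C] [StarRing C] [Algebra ℂ C] (h : #C ≤ 𝔠) :
    #{ν : C → ℝ // IsCStarNorm ν} ≤ 2 ^ 𝔠 := by
  refine (mk_subtype_le _).trans ?_
  rw [← power_def, mk_real, ← power_self_eq aleph0_le_continuum]
  exact power_le_power_left continuum_ne_zero h

theorem card_norms_mono {C D : Type} [Ring C] [StarRing C] [Algebra ℂ C] [Ring D] [StarRing D]
    [Algebra ℂ D] (θ : C ≃ₐ[ℂ] D) (hθ : ∀ x, θ (star x) = star (θ x)) :
    #{ν : D → ℝ // IsCStarNorm ν} ≤ #{ν : C → ℝ // IsCStarNorm ν} := by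
  refine mk_le_of_injective (f := fun ν => ⟨fun x => ν.1 (θ x), ?_⟩) fun ν μ h => ?_
  · obtain ⟨ν, h1, h2, h3, h4, h5, h6, h7⟩ := ν
    refine ⟨fun x => h1 _, fun x hx => θ.map_eq_zero_iff.1 (h2 _ hx), fun x y => ?_,
      fun c x => ?_, fun x y => ?_, fun x => ?_, fun x => ?_⟩
    · simp only [map_add, h3]
    · simp only [map_smul, h4]
    · simp only [map_mul, h5]
    · simp only [hθ, h6]
    · simp only [map_mul, hθ, h7]
  · refine Subtype.ext (funext fun y => ?_)
    simpa using congrFun (congrArg Subtype.val h) (θ.symm y)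

theorem card_norms_tensor_mono {A B A' B' : Type} [Ring A] [StarRing A] [Algebra ℂ A]
    [StarModule ℂ A] [Ring B] [StarRing B] [Algebra ℂ B] [StarModule ℂ B] [Ring A'] [StarRing A']
    [Algebra ℂ A'] [StarModule ℂ A'] [Ring B'] [StarRing B'] [Algebra ℂ B'] [StarModule ℂ B']
    (e : A ≃⋆ₐ[ℂ] A') (f : B ≃⋆ₐ[ℂ] B') :
    #{ν : A' ⊗[ℂ] B' → ℝ // IsCStarNorm ν} ≤ #{ν : A ⊗[ℂ] B → ℝ // IsCStarNorm ν} := by
  refine card_norms_mono (Algebra.TensorProduct.congr e.toAlgEquiv f.toAlgEquiv) fun x => ?_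
  induction x with
  | zero => simp
  | add a b ha hb => rw [star_add, map_add, map_add, star_add, ha, hb]
  | tmul a b => simp [TensorProduct.star_tmul, map_star]

theorem exists_basis (H : Type) [NormedAddCommGroup H] [InnerProductSpace ℂ H] [CompleteSpace H]
    [SeparableSpace H] (hH : ¬ FiniteDimensional ℂ H) (ι : Type) [Countable ι] [Infinite ι] :
    Nonempty (HilbertBasis ι ℂ H) := by
  obtain ⟨w, b, -⟩ := exists_hilbertBasis ℂ H
  have : Infinite w := by
    by_contra hfin
    rw [not_infinite_iff_finite] at hfin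
    have := Fintype.ofFinite w
    exact hH (Module.Finite.of_basis b.toOrthonormalBasis.toBasis)
  have : Countable w := by
    refine Pairwise.countable_of_isOpen_disjoint (s := fun i : w => Metric.ball (b i) (1 / 2))
      (fun i j hij => Metric.ball_disjoint_ball ?_) (fun _ => Metric.isOpen_ball)
      fun _ => Metric.nonempty_ball.2 (by norm_num)
    have h1 := norm_sub_sq (𝕜 := ℂ) (b i) (b j)
    rw [b.orthonormal.2 hij, b.orthonormal.1, b.orthonormal.1] at h1
    rw [dist_eq_norm]
    norm_num at h1 ⊢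
    nlinarith [norm_nonneg (b i - b j)]
  obtain ⟨e⟩ : Nonempty (ι ≃ w) := nonempty_equiv_of_countable
  refine ⟨HilbertBasis.mk (b.orthonormal.comp e e.injective) ?_⟩
  rw [e.surjective.range_comp, b.dense_span]

end Pool.Agent.P.MP_7f9919_an
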