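import Mathlib

/-!
Compact operators on a Hilbert space and orthonormal families.
-/

set_option autoImplicit false
set_option linter.unusedSectionVars false

namespace Pool.Agent.P.MP_7f9919_an

open Filter Topology

open scoped InnerProductSpace

variable {H : Type} [NormedAddCommGroup H] [InnerProductSpace ℂ H] [CompleteSpace H]

theorem tendsto_compact_orthonormal {ι : Type} {f : ι → H} (hf : Orthonormal ℂ f) {c : H →L[ℂ] H}
    (hc : IsCompactOperator c) : Tendsto (fun i => c (f i)) cofinite (𝓝 0) := by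
  obtain ⟨K, hK, hKc⟩ := IsCompactOperator.image_closedBall_subset_compact
    (f := (c : H →ₗ[ℂ] H)) hc 1
  refine hK.tendsto_nhds_of_unique_mapClusterPt
    (Eventually.of_forall fun i => hKc ⟨f i, by simp [hf.1 i], rfl⟩) fun y _ hy => ?_
  have h1 : Tendsto (fun i => ⟪y, c (f i)⟫_ℂ) cofinite (𝓝 0) := by
    have h2 := (hf.inner_products_summable (ContinuousLinearMap.adjoint c y)).tendsto_cofinite_zero
    have h3 := (Real.continuous_sqrt.tendsto 0).comp h2
    rw [Real.sqrt_zero] at h3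
    rw [tendsto_zero_iff_norm_tendsto_zero]
    refine h3.congr fun i => ?_
    rw [Function.comp_apply, Real.sqrt_sq (norm_nonneg _), ContinuousLinearMap.adjoint_inner_right,
      norm_inner_symm]
  have h2 : MapClusterPt ⟪y, y⟫_ℂ cofinite fun i => ⟪y, c (f i)⟫_ℂ :=
    hy.continuousAt_comp (f := fun z => ⟪y, z⟫_ℂ) (by fun_prop)
  have h3 : ⟪y, y⟫_ℂ = 0 := eq_of_nhds_neBot (h2.clusterPt.mono h1)
  exact inner_self_eq_zero.1 h3

theorem approx_or_orthonormal (x : H →L[ℂ] H) {ε : ℝ} (hε : 0 < ε) :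
    (∃ (W : Submodule ℂ H) (_ : FiniteDimensional ℂ W), ‖x - x ∘L W.starProjection‖ ≤ ε) ∨
      ∃ f : ℕ → H, Orthonormal ℂ f ∧ (Pairwise fun m n => ⟪x (f m), x (f n)⟫_ℂ = 0) ∧
        ∀ n, ε ≤ ‖x (f n)‖ := by
  classical
  rw [or_iff_not_imp_left]
  intro hy
  have : Std.Symm fun u v : H => ⟪u, v⟫_ℂ = 0 ∧ ⟪x u, x v⟫_ℂ = 0 :=
    ⟨fun _ _ h => ⟨inner_eq_zero_symm.1 h.1, inner_eq_zero_symm.1 h.2⟩⟩
  obtain ⟨f, hf1, hf2⟩ := exists_seq_of_forall_finset_exists'
    (fun v : H => ‖v‖ = 1 ∧ ε ≤ ‖x v‖) (fun u v : H => ⟪u, v⟫_ℂ = 0 ∧ ⟪x u, x v⟫_ℂ = 0) (by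
      intro s _
      by_contra hs
      let t : Finset H := s ∪ s.image fun u => ContinuousLinearMap.adjoint x (x u)
      let W : Submodule ℂ H := Submodule.span ℂ (t : Set H)
      have : FiniteDimensional ℂ W := FiniteDimensional.span_finset ℂ t
      refine hy ⟨W, this, ContinuousLinearMap.opNorm_le_bound _ hε.le fun v => ?_⟩
      have e : (x - x ∘L W.starProjection) v = x (Wᗮ.starProjection v) := by
        rw [Submodule.starProjection_orthogonal_val, map_sub]
        rfl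
      rw [e]
      set u := Wᗮ.starProjection v with hu
      have hu1 : ‖u‖ ≤ ‖v‖ := Wᗮ.norm_starProjection_apply_le v
      rcases eq_or_ne u 0 with h0 | h0
      · rw [h0, map_zero, norm_zero]; positivity
      have hpos : 0 < ‖u‖ := norm_pos_iff.2 h0
      have horth : ∀ z ∈ t, ⟪z, u⟫_ℂ = 0 := fun z hz =>
        Submodule.inner_right_of_mem_orthogonal (K := W) (Submodule.subset_span hz)
          (Wᗮ.starProjection_apply_mem v)
      have h1 : ‖x ((‖u‖⁻¹ : ℂ) • u)‖ < ε := by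
        by_contra hle
        refine hs ⟨(‖u‖⁻¹ : ℂ) • u, ⟨norm_smul_inv_norm h0, not_lt.1 hle⟩, fun z hz => ⟨?_, ?_⟩⟩
        · rw [inner_smul_right, horth z (Finset.mem_union_left _ hz), mul_zero]
        · rw [map_smul, inner_smul_right, ← ContinuousLinearMap.adjoint_inner_left,
            horth _ (Finset.mem_union_right _ (Finset.mem_image_of_mem _ hz)), mul_zero]
      rw [map_smul, norm_smul, norm_inv, Complex.norm_real, norm_norm, inv_mul_lt_iff₀ hpos] at h1
      nlinarith)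
  exact ⟨f, ⟨fun n => (hf1 n).1, fun m n h => (hf2 h).1⟩, fun m n h => (hf2 h).2,
    fun n => (hf1 n).2⟩

theorem exists_orthonormal_of_not_compact' {x : H →L[ℂ] H} (hx : ¬ IsCompactOperator x) :
    ∃ ε : ℝ, 0 < ε ∧ ∃ f : ℕ → H, Orthonormal ℂ f ∧
      (Pairwise fun m n => ⟪x (f m), x (f n)⟫_ℂ = 0) ∧ ∀ n, ε ≤ ‖x (f n)‖ := by
  by_contra hcon
  have key : ∀ ε : ℝ, 0 < ε → ∃ y : H →L[ℂ] H, IsCompactOperator y ∧ ‖x - y‖ ≤ ε := by
    intro ε hε
    obtain ⟨W, hW, hle⟩ := (approx_or_orthonormal x hε).resolve_right fun h => hcon ⟨ε, hε, h⟩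
    have : ProperSpace W := FiniteDimensional.proper ℂ W
    exact ⟨x ∘L W.starProjection,
      (isCompactOperator_of_locallyCompactSpace_dom W.orthogonalProjectionOnto).clm_comp
        (x ∘L W.subtypeL), hle⟩
  choose y hy1 hy2 using fun n : ℕ => key (1 / ((n : ℝ) + 1)) (by positivity)
  refine hx (isCompactOperator_of_tendsto (l := atTop) (F := y) ?_ (Eventually.of_forall hy1))
  rw [tendsto_iff_norm_sub_tendsto_zero]
  refine squeeze_zero (fun _ => norm_nonneg _) (fun n => ?_) tendsto_one_div_add_atTop_nhds_zero_nat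
  rw [norm_sub_rev]
  exact hy2 n

theorem exists_orthonormal_of_not_compact {x : H →L[ℂ] H} (hx : ¬ IsCompactOperator x) :
    ∃ ε : ℝ, 0 < ε ∧ ∃ f : ℕ → H, Orthonormal ℂ f ∧ ∀ n, ε ≤ ‖x (f n)‖ := by
  obtain ⟨ε, hε, f, h1, -, h2⟩ := exists_orthonormal_of_not_compact' hx
  exact ⟨ε, hε, f, h1, h2⟩

theorem approx_of_compact {x : H →L[ℂ] H} (hx : IsCompactOperator x) {ε : ℝ} (hε : 0 < ε) :
    ∃ (W : Submodule ℂ H) (_ : FiniteDimensional ℂ W), ‖x - x ∘L W.starProjection‖ ≤ ε := by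
  refine (approx_or_orthonormal x hε).resolve_right ?_
  rintro ⟨f, hf, -, hle⟩
  have h1 := tendsto_compact_orthonormal hf hx
  rw [tendsto_zero_iff_norm_tendsto_zero] at h1
  obtain ⟨n, hn⟩ := (h1.eventually (gt_mem_nhds hε)).exists
  exact absurd (hle n) (not_le.2 hn)

theorem isCompactOperator_star {x : H →L[ℂ] H} (hx : IsCompactOperator x) :
    IsCompactOperator (star x : H →L[ℂ] H) := by
  by_contra hcon
  obtain ⟨ε, hε, f, hf, hle⟩ := exists_orthonormal_of_not_compact hcon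
  have h1 := tendsto_compact_orthonormal hf (c := x ∘L star x) (hx.comp_clm (star x))
  rw [tendsto_zero_iff_norm_tendsto_zero] at h1
  obtain ⟨n, hn⟩ := (h1.eventually (gt_mem_nhds (pow_pos hε 2))).exists
  have h2 : ‖star x (f n)‖ ^ 2 ≤ ‖(x ∘L star x) (f n)‖ := by
    rw [← inner_self_eq_norm_sq (𝕜 := ℂ), ContinuousLinearMap.star_eq_adjoint,
      ContinuousLinearMap.adjoint_inner_left]
    refine (Complex.re_le_norm _).trans ((norm_inner_le_norm _ _).trans ?_)
    rw [hf.1 n, one_mul]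
    rfl
  have h3 := pow_le_pow_left₀ hε.le (hle n) 2
  linarith

end Pool.Agent.P.MP_7f9919_an
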