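import Mathlib

set_option autoImplicit false

namespace Pool.Agent.P.MP_7f9919_an

/-- `ν` is a C*-norm on the complex *-algebra `A`: a norm which is submultiplicative, invariant
under the involution and satisfies the C*-identity. -/
def IsCStarNorm {A : Type} [Ring A] [StarRing A] [Algebra ℂ A] (ν : A → ℝ) : Prop :=
  (∀ x, 0 ≤ ν x) ∧ (∀ x, ν x = 0 → x = 0) ∧ (∀ x y, ν (x + y) ≤ ν x + ν y) ∧
    (∀ (c : ℂ) (x : A), ν (c • x) = ‖c‖ * ν x) ∧ (∀ x y, ν (x * y) ≤ ν x * ν y) ∧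
    (∀ x, ν (star x) = ν x) ∧ (∀ x, ν (star x * x) = ν x ^ 2)

end Pool.Agent.P.MP_7f9919_an
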