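import Pool.Agent.P.MP_7f9919_an.Hilb

/-!
The expansion property of the representations attached to the limit traces.
-/

set_option autoImplicit false
set_option linter.unusedSectionVars false

namespace Pool.Agent.P.MP_7f9919_an

open Finset Filter Topology

open scoped InnerProductSpace ComplexConjugate ComplexOrder

section general

variable {E : Type} [NormedAddCommGroup E] [InnerProductSpace ℂ E]

theorem re_inner_sub_le {b : E →L[ℂ] E} (hb : ‖b‖ ≤ 1) (x y : E) :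
    |(⟪x, b x⟫_ℂ).re - (⟪y, b y⟫_ℂ).re| ≤ ‖x - y‖ * (‖x‖ + ‖y‖) := by
  have e : ⟪x, b x⟫_ℂ - ⟪y, b y⟫_ℂ = ⟪x - y, b x⟫_ℂ + ⟪y, b (x - y)⟫_ℂ := by
    rw [map_sub, inner_sub_left, inner_sub_right]; ring
  rw [← Complex.sub_re, e]
  refine (Complex.abs_re_le_norm _).trans ((norm_add_le _ _).trans ?_)
  have h1 := norm_inner_le_norm (𝕜 := ℂ) (x - y) (b x)
  have h2 := norm_inner_le_norm (𝕜 := ℂ) y (b (x - y))
  have h3 := b.le_of_opNorm_le hb x
  have h4 := b.le_of_opNorm_le hb (x - y)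
  nlinarith [mul_le_mul_of_nonneg_left h3 (norm_nonneg (x - y)),
    mul_le_mul_of_nonneg_left h4 (norm_nonneg y)]

theorem dfc_sub_le {u b : E →L[ℂ] E} (hu : ‖u‖ ≤ 1) (hb : ‖b‖ ≤ 1) (v w : E) :
    dfc u b v ≤ dfc u b w + 2 * (‖v - w‖ * (‖v‖ + ‖w‖)) := by
  have h1 := abs_le.1 (re_inner_sub_le hb (u v) (u w))
  have h2 := abs_le.1 (re_inner_sub_le hb v w)
  have h3 : ‖u v - u w‖ * (‖u v‖ + ‖u w‖) ≤ ‖v - w‖ * (‖v‖ + ‖w‖) := by
    have a1 := u.le_of_opNorm_le hu v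
    have a2 := u.le_of_opNorm_le hu w
    have a3 := u.le_of_opNorm_le hu (v - w)
    rw [map_sub] at a3
    rw [one_mul] at a1 a2 a3
    gcongr
  simp only [dfc, Complex.sub_re]
  linarith

theorem neg_le_dfc {u b : E →L[ℂ] E} (hu : ‖u‖ ≤ 1) (hb : ‖b‖ ≤ 1) (v : E) :
    -(2 * ‖v‖ ^ 2) ≤ dfc u b v := by
  have := dfc_sub_le hu hb 0 v
  rw [dfc_zero', zero_sub, norm_neg, norm_zero, zero_add] at this
  nlinarith

theorem expand_of_dense {B : Type} [NormedAddCommGroup B] (L : B → E →L[ℂ] E)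
    (hL : ∀ b, ‖b‖ ≤ 1 → ‖L b‖ ≤ 1) (hL0 : L 0 = 0) (P : E →L[ℂ] E) (u : Fin 4 → E →L[ℂ] E)
    (hu : ∀ s, ‖u s‖ ≤ 1) {A : Type} (cl : A → E) (hcl : DenseRange cl) {δ : ℝ} (hδ : 0 < δ)
    {m : ℕ} (h : ∀ a : Fin m → A, ∃ b : Fin 4 → B, (∀ s, ‖b s‖ ≤ 1) ∧
      ∀ i, δ * ‖P (cl (a i))‖ ^ 2 ≤ ∑ s, dfc (u s) (L (b s)) (P (cl (a i))))
    (α : Fin m → E) : ∃ (s : Fin 4) (b : B), ‖b‖ ≤ 1 ∧
      δ / 8 * ∑ i, ‖P (α i)‖ ^ 2 ≤ ∑ i, dfc (u s) (L b) (P (α i)) := by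
  set M := ∑ i, ‖P (α i)‖ ^ 2 with hM
  have hM0 : 0 ≤ M := by positivity
  rcases hM0.eq_or_lt with h0 | h0
  · refine ⟨0, 0, by simp, ?_⟩
    simp [← h0, hL0, dfc_zero]
  have hd : DenseRange (Pi.map fun _ : Fin m => cl) := DenseRange.piMap fun _ => hcl
  obtain ⟨a, ha⟩ := hd.exists_mem_open (s := {β : Fin m → E | δ / 2 * M <
      δ * ∑ i, ‖P (β i)‖ ^ 2 - 8 * ∑ i, ‖P (β i) - P (α i)‖ * (‖P (β i)‖ + ‖P (α i)‖)})
    (isOpen_lt continuous_const (by fun_prop)) ⟨α, by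
      simp only [Set.mem_ofPred_eq, sub_self, norm_zero, zero_mul, sum_const_zero, ← hM]
      nlinarith⟩
  obtain ⟨b, hb, hle⟩ := h a
  simp only [Set.mem_ofPred_eq, Pi.map_apply] at ha
  have h1 : δ * ∑ i, ‖P (cl (a i))‖ ^ 2 ≤ ∑ s, ∑ i, dfc (u s) (L (b s)) (P (cl (a i))) := by
    rw [sum_comm, mul_sum]
    exact sum_le_sum fun i _ => hle i
  have h2 : ∀ s, ∑ i, dfc (u s) (L (b s)) (P (cl (a i))) ≤ ∑ i, dfc (u s) (L (b s)) (P (α i)) +
      2 * ∑ i, ‖P (cl (a i)) - P (α i)‖ * (‖P (cl (a i))‖ + ‖P (α i)‖) := by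
    intro s
    rw [mul_sum, ← sum_add_distrib]
    exact sum_le_sum fun i _ => dfc_sub_le (hu s) (hL _ (hb s)) _ _
  by_contra hcon
  push Not at hcon
  rw [Fin.sum_univ_four] at h1
  linarith [h2 0, h2 1, h2 2, h2 3, hcon 0 _ (hb 0), hcon 1 _ (hb 1), hcon 2 _ (hb 2),
    hcon 3 _ (hb 3)]

end general

theorem hasSum_dfc (g : Aff) (b : ∀ j, EB j →L[ℂ] EB j) (hb : ∀ j, ‖b j‖ ≤ 1) (y : H0) :
    HasSum (fun j => dfc (ub j g) (b j) (y j)) (dfc (uu g) (bd b hb) y) :=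
  Complex.hasSum_re ((lp.hasSum_inner (𝕜 := ℂ) (uu g y) (bd b hb (uu g y))).sub
    (lp.hasSum_inner (𝕜 := ℂ) y (bd b hb y)))

theorem hasSum_norm_sq (y : H0) : HasSum (fun j => ‖y j‖ ^ 2) (‖y‖ ^ 2) := by
  simpa using lp.hasSum_norm (p := 2) (by norm_num) y

theorem sum_low_le (a : B0) (k j : ℕ) :
    ∑ v : X k, ‖a (ee k v) j‖ ^ 2 ≤ Fintype.card (X j) * ‖a‖ ^ 2 := by
  simp only [EuclideanSpace.norm_sq_eq]
  rw [sum_comm, ← nsmul_eq_mul, ← card_univ]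
  refine sum_le_card_nsmul _ _ _ fun y _ => ?_
  have e : ∀ v : X k, ‖a (ee k v) j y‖ = ‖star a (ee j y) k v‖ := by
    intro v
    rw [← inner_ee, ← inner_ee, ContinuousLinearMap.star_eq_adjoint,
      ContinuousLinearMap.adjoint_inner_right, norm_inner_symm]
  simp only [e]
  rw [← EuclideanSpace.norm_sq_eq]
  refine pow_le_pow_left₀ (norm_nonneg _) ((lp.norm_apply_le_norm (by norm_num) _ _).trans ?_) 2
  have := (star a).le_opNorm (ee j y)
  rw [norm_ee, mul_one] at this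
  exact this.trans (norm_star a).le

theorem exists_blocks {m : ℕ} (a : Fin m → B0) (j : ℕ) :
    ∃ b : Fin 4 → EB j →L[ℂ] EB j, (∀ s, ‖b s‖ ≤ 1) ∧ (m ≤ j → ∀ i k, k < j → ∀ v : X k,
      1 / 2048 * ‖a i (ee k v) j‖ ^ 2 ≤ ∑ s, dfc (ub j (gen s)) (b s) (a i (ee k v) j)) := by
  by_cases hm : m ≤ j
  swap
  · exact ⟨0, fun _ => by simp, fun h => absurd h hm⟩
  obtain ⟨b, hb, hle⟩ := low_rank_op (act j (gen 0)) (act j (gen 1)) (pos j) (pos_injective j)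
    (pos_gen0 j) (pos_gen1 j) ((j + 1) * cum j) (dilation j _ le_rfl) (fun s => ub j (gen s))
    (fun v y => by rw [ub_apply, coc_gen0, one_mul])
    (fun v y => by rw [ub_apply, coc_gen1, one_mul])
    (fun v y => by rw [ub_apply, coc_gen2, act_gen2])
    (fun v y => by rw [ub_apply, coc_gen3, act_gen3])
    (ι := Fin m × Σ k : Fin j, X k) (by
      rw [Fintype.card_prod, Fintype.card_fin, Fintype.card_sigma,
        Fin.sum_univ_eq_sum_range (fun k => Fintype.card (X k))]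
      exact Nat.mul_le_mul (by omega) (sum_card_le j))
    (fun l => a l.1 (ee l.2.1 l.2.2) j)
  exact ⟨b, hb, fun _ i k hk v => hle (i, ⟨⟨k, hk⟩, v⟩)⟩

theorem block_estimate {m : ℕ} (a : Fin m → B0) (ω : Set ℕ) :
    ∃ b : Fin 4 → B0, (∀ s, ‖b s‖ ≤ 1) ∧ ∀ k, m ≤ k → k ∉ ω → ∀ i,
      -(9 * ‖a i‖ ^ 2 * (1 / ((k : ℝ) + 1))) ≤ ((Fintype.card (X k) : ℝ))⁻¹ *
        ∑ v, (∑ s, dfc (uu (gen s)) (b s) (PP ω (a i (ee k v))) -
          1 / 2048 * ‖PP ω (a i (ee k v))‖ ^ 2) := by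
  choose b hb hle using exists_blocks a
  refine ⟨fun s => bd (fun j => b j s) fun j => hb j s, fun s => norm_bd_le _ _,
    fun k hk hkω i => ?_⟩
  have h1 : ∀ v : X k, -(9 * ∑ j ∈ range k, ‖a i (ee k v) j‖ ^ 2) ≤
      ∑ s, dfc (uu (gen s)) (bd (fun j => b j s) fun j => hb j s) (PP ω (a i (ee k v))) -
        1 / 2048 * ‖PP ω (a i (ee k v))‖ ^ 2 := by
    intro v
    set x := a i (ee k v) with hx
    have s1 := (hasSum_sum fun s (_ : s ∈ univ) =>
      hasSum_dfc (gen s) (fun j => b j s) (fun j => hb j s) (PP ω x)).sub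
        ((hasSum_norm_sq (PP ω x)).mul_left (1 / 2048))
    have s2 : HasSum (fun j => if j ∈ range k then -(9 * ‖x j‖ ^ 2) else 0)
        (∑ j ∈ range k, if j ∈ range k then -(9 * ‖x j‖ ^ 2) else 0) :=
      hasSum_sum_of_ne_finset_zero fun j hj => if_neg hj
    rw [sum_congr rfl fun j hj => if_pos hj, sum_neg_distrib, ← mul_sum] at s2
    refine hasSum_le (fun j => ?_) s2 s1
    by_cases hj : j ∈ ω
    · rw [PP_of_mem hj]
      split_ifs with hjk
      · rw [Fin.sum_univ_four]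
        have := fun s => neg_le_dfc (norm_ub_le j (gen s)) (hb j s) (x j)
        nlinarith [this 0, this 1, this 2, this 3, sq_nonneg ‖x j‖]
      · have hkj : k < j := lt_of_le_of_ne (not_lt.1 fun h => hjk (mem_range.2 h))
          (by rintro rfl; exact hkω hj)
        exact sub_nonneg.2 (hle j (by omega) i k hkj v)
    · rw [PP_of_not_mem hj]
      simp only [dfc_zero', sum_const_zero, norm_zero]
      split_ifs
      · nlinarith [sq_nonneg ‖x j‖]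
      · norm_num
  have h0 : (0 : ℝ) < Fintype.card (X k) := by exact_mod_cast card_X_pos k
  rw [le_inv_mul_iff₀ h0]
  refine le_trans ?_ (sum_le_sum fun v _ => h1 v)
  rw [sum_neg_distrib, ← mul_sum, sum_comm]
  have h2 : ∑ j ∈ range k, ∑ v : X k, ‖a i (ee k v) j‖ ^ 2 ≤ cum k * ‖a i‖ ^ 2 := by
    refine (sum_le_sum fun j _ => sum_low_le (a i) k j).trans ?_
    rw [← sum_mul]
    refine mul_le_mul_of_nonneg_right ?_ (by positivity)
    exact_mod_cast sum_card_le k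
  have h3 : (cum k : ℝ) ≤ Fintype.card (X k) * (1 / ((k : ℝ) + 1)) := by
    rw [mul_one_div, le_div_iff₀ (by positivity)]
    have a1 := cum_lt_pr k
    have a2 := card_X_ge k
    have a3 : cum k * (k + 1) ≤ Fintype.card (X k) := by nlinarith
    exact_mod_cast a3
  nlinarith [mul_le_mul_of_nonneg_right h3 (sq_nonneg ‖a i‖)]

/-- The Hilbert space of the representation attached to a limit trace. -/
abbrev GN (U : Ultrafilter ℕ) : Type := (tau U).GNS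

/-- The representation attached to a limit trace. -/
noncomputable def LL (U : Ultrafilter ℕ) : B0 →⋆ₐ[ℂ] (GN U →L[ℂ] GN U) := (tau U).gnsStarAlgHom

/-- The vector attached to an operator. -/
noncomputable def cl (U : Ultrafilter ℕ) (a : B0) : GN U :=
  (((tau U).toPreGNS a : (tau U).PreGNS) : UniformSpace.Completion (tau U).PreGNS)

theorem LL_cl (U : Ultrafilter ℕ) (x a : B0) : LL U x (cl U a) = cl U (x * a) :=
  (tau U).gnsNonUnitalStarAlgHom_apply_coe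

theorem inner_cl (U : Ultrafilter ℕ) (a b : B0) :
    ⟪cl U a, cl U b⟫_ℂ = tau U (star a * b) := by
  rw [cl, cl, UniformSpace.Completion.inner_coe]
  rfl

theorem denseRange_cl (U : Ultrafilter ℕ) : DenseRange (cl U) :=
  UniformSpace.Completion.denseRange_coe (α := (tau U).PreGNS)

theorem norm_LL_le (U : Ultrafilter ℕ) (x : B0) : ‖LL U x‖ ≤ ‖x‖ :=
  NonUnitalStarAlgHom.norm_apply_le (LL U) x

theorem tendsto_inner_cl (U : Ultrafilter ℕ) (y c : B0) :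
    Tendsto (fun k => ((Fintype.card (X k) : ℝ))⁻¹ * ∑ v, (⟪y (ee k v), c (y (ee k v))⟫_ℂ).re) U
      (𝓝 (⟪cl U y, LL U c (cl U y)⟫_ℂ).re) := by
  rw [LL_cl, inner_cl, ← mul_assoc]
  refine ((Complex.continuous_re.tendsto _).comp (tendsto_tau U _)).congr fun k => ?_
  rw [Function.comp_apply, tr_star_mul, ← Complex.re_sum, ← Complex.re_ofReal_mul]
  simp

theorem tendsto_dfc (U : Ultrafilter ℕ) (y u b : B0) :
    Tendsto (fun k => ((Fintype.card (X k) : ℝ))⁻¹ * ∑ v, dfc u b (y (ee k v))) U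
      (𝓝 (dfc (LL U u) (LL U b) (cl U y))) := by
  have := (tendsto_inner_cl U (u * y) b).sub (tendsto_inner_cl U y b)
  rw [← LL_cl, ← Complex.sub_re] at this
  refine this.congr fun k => ?_
  rw [← mul_sub, ← sum_sub_distrib]
  rfl

theorem tendsto_norm_cl (U : Ultrafilter ℕ) (y : B0) :
    Tendsto (fun k => ((Fintype.card (X k) : ℝ))⁻¹ * ∑ v, ‖y (ee k v)‖ ^ 2) U
      (𝓝 (‖cl U y‖ ^ 2)) := by
  have := tendsto_inner_cl U y 1
  simp only [map_one, one_apply_eq_self] at this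
  simp only [← inner_self_eq_norm_sq (𝕜 := ℂ)]
  exact this

/-- The expansion property. -/
theorem expansion {U : Ultrafilter ℕ} (hU : (U : Filter ℕ) ≤ atTop) {ω : Set ℕ} (hω : ω ∉ U)
    {m : ℕ} (α : Fin m → GN U) : ∃ (s : Fin 4) (b : B0), ‖b‖ ≤ 1 ∧
      1 / 2048 / 8 * ∑ i, ‖LL U (PP ω) (α i)‖ ^ 2 ≤
        ∑ i, dfc (LL U (uu (gen s))) (LL U b) (LL U (PP ω) (α i)) := by
  refine expand_of_dense (LL U) (fun b hb => (norm_LL_le U b).trans hb) (map_zero _) _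
    (fun s => LL U (uu (gen s))) (fun s => (norm_LL_le U _).trans (norm_bd_le _ _)) (cl U)
    (denseRange_cl U) (by norm_num) (fun a => ?_) α
  obtain ⟨b, hb, hle⟩ := block_estimate a ω
  refine ⟨b, hb, fun i => ?_⟩
  rw [LL_cl, ← sub_nonneg]
  have t1 := (tendsto_finsetSum univ fun s _ =>
    tendsto_dfc U (PP ω * a i) (uu (gen s)) (b s)).sub
      ((tendsto_norm_cl U (PP ω * a i)).const_mul (1 / 2048))
  have t2 : Tendsto (fun k : ℕ => -(9 * ‖a i‖ ^ 2 * (1 / ((k : ℝ) + 1)))) U (𝓝 0) := by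
    have := ((tendsto_one_div_add_atTop_nhds_zero_nat.const_mul
      (9 * ‖a i‖ ^ 2)).neg).mono_left hU
    rwa [mul_zero, neg_zero] at this
  refine le_of_tendsto_of_tendsto t2 t1 ?_
  filter_upwards [hU (eventually_ge_atTop m), Ultrafilter.compl_mem_iff_notMem.2 hω] with k hk hkω
  refine (hle k hk hkω i).trans (le_of_eq ?_)
  rw [sum_sub_distrib, sum_comm, mul_sub, mul_sum, ← mul_sum _ _ (1 / 2048 : ℝ), mul_left_comm]
  rfl

end Pool.Agent.P.MP_7f9919_an
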