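import Pool.Agent.P.MP_7f9919_an.Model

/-!
The Hilbert space of the model, block diagonal operators and normalized block traces.
-/

set_option autoImplicit false
set_option linter.unusedSectionVars false

namespace Pool.Agent.P.MP_7f9919_an

open Finset Filter Topology

open scoped InnerProductSpace ComplexConjugate ComplexOrder

/-- A block. -/
abbrev EB (j : ℕ) : Type := EuclideanSpace ℂ (X j)

/-- The Hilbert sum of the blocks. -/
abbrev H0 : Type := lp EB 2

/-- The bounded operators on the Hilbert sum. -/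
abbrev B0 : Type := H0 →L[ℂ] H0

/-- A block diagonal contraction. -/
noncomputable def bd (T : ∀ j, EB j →L[ℂ] EB j) (h : ∀ j, ‖T j‖ ≤ 1) : B0 :=
  lp.mapCLM 2 T zero_le_one h

theorem bd_apply (T : ∀ j, EB j →L[ℂ] EB j) (h : ∀ j, ‖T j‖ ≤ 1) (x : H0) (j : ℕ) :
    bd T h x j = T j (x j) := rfl

theorem norm_bd_le (T : ∀ j, EB j →L[ℂ] EB j) (h : ∀ j, ‖T j‖ ≤ 1) : ‖bd T h‖ ≤ 1 :=
  lp.norm_mapCLM_le 2 T zero_le_one h

theorem star_bd (T T' : ∀ j, EB j →L[ℂ] EB j) (h : ∀ j, ‖T j‖ ≤ 1) (h' : ∀ j, ‖T' j‖ ≤ 1)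
    (hT : ∀ j x y, ⟪T' j x, y⟫_ℂ = ⟪x, T j y⟫_ℂ) : star (bd T h) = bd T' h' := by
  rw [ContinuousLinearMap.star_eq_adjoint]
  refine ((ContinuousLinearMap.eq_adjoint_iff _ _).2 fun x y => ?_).symm
  rw [lp.inner_eq_tsum, lp.inner_eq_tsum]
  exact tsum_congr fun j => hT j _ _

/-- The monomial unitary on a block. -/
noncomputable def ub (j : ℕ) (g : Aff) : EB j →L[ℂ] EB j :=
  LinearMap.toContinuousLinearMap
    { toFun := fun v => WithLp.toLp 2 fun y => coc j g y * v (act j g y)
      map_add' := fun v w => by ext y; simp [mul_add]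
      map_smul' := fun c v => by ext y; simp [mul_left_comm] }

theorem ub_apply (j : ℕ) (g : Aff) (v : EB j) (y : X j) :
    ub j g v y = coc j g y * v (act j g y) := rfl

theorem inner_ub (j : ℕ) (g : Aff) (v w : EB j) : ⟪ub j g v, ub j g w⟫_ℂ = ⟪v, w⟫_ℂ := by
  rw [PiLp.inner_apply, PiLp.inner_apply, ← Equiv.sum_comp (act j g) fun y => ⟪v y, w y⟫_ℂ]
  refine sum_congr rfl fun y _ => ?_
  rw [ub_apply, ub_apply, RCLike.inner_apply, RCLike.inner_apply, map_mul]
  have : coc j g y * conj (coc j g y) = 1 := by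
    rw [Complex.mul_conj', norm_coc]; simp
  linear_combination (w (act j g y) * conj (v (act j g y))) * this

theorem norm_ub_apply (j : ℕ) (g : Aff) (v : EB j) : ‖ub j g v‖ = ‖v‖ := by
  rw [norm_eq_sqrt_re_inner (𝕜 := ℂ), inner_ub, ← norm_eq_sqrt_re_inner]

theorem norm_ub_le (j : ℕ) (g : Aff) : ‖ub j g‖ ≤ 1 :=
  ContinuousLinearMap.opNorm_le_bound _ zero_le_one fun v => by rw [norm_ub_apply, one_mul]

theorem ub_mul (j : ℕ) (g h : Aff) (v : EB j) : ub j (g * h) v = ub j g (ub j h v) := by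
  ext y
  rw [ub_apply, ub_apply, ub_apply, coc_mul, act_mul, mul_assoc]

theorem ub_one (j : ℕ) (v : EB j) : ub j 1 v = v := by
  ext y
  rw [ub_apply, coc_one, act_one, one_mul]

/-- The unitary representation on the Hilbert sum. -/
noncomputable def uu (g : Aff) : B0 := bd (fun j => ub j g) fun j => norm_ub_le j g

theorem uu_apply (g : Aff) (x : H0) (j : ℕ) : uu g x j = ub j g (x j) := rfl

theorem uu_mul (g h : Aff) : uu (g * h) = uu g * uu h := by
  refine ContinuousLinearMap.ext fun x => lp.ext (funext fun j => ?_)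
  exact ub_mul j g h _

theorem uu_one : uu 1 = 1 := by
  refine ContinuousLinearMap.ext fun x => lp.ext (funext fun j => ?_)
  exact ub_one j _

theorem star_uu (g : Aff) : star (uu g) = uu g⁻¹ :=
  star_bd _ _ _ _ fun j x y => by
    rw [← inner_ub j g, ← ub_mul, mul_inv_cancel, ub_one]

theorem star_uu_mul (g : Aff) : star (uu g) * uu g = 1 := by
  rw [star_uu, ← uu_mul, inv_mul_cancel, uu_one]

theorem uu_mul_star (g : Aff) : uu g * star (uu g) = 1 := by
  rw [star_uu, ← uu_mul, mul_inv_cancel, uu_one]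

open Classical in
/-- The projection onto the sum of a set of blocks. -/
noncomputable def PP (ω : Set ℕ) : B0 :=
  bd (fun j => if j ∈ ω then 1 else 0) fun j => by
    split_ifs
    · exact ContinuousLinearMap.norm_id_le
    · simp

theorem PP_of_mem {ω : Set ℕ} {j : ℕ} (h : j ∈ ω) (x : H0) : PP ω x j = x j := by
  rw [PP, bd_apply, if_pos h]; rfl

theorem PP_of_not_mem {ω : Set ℕ} {j : ℕ} (h : j ∉ ω) (x : H0) : PP ω x j = 0 := by
  rw [PP, bd_apply, if_neg h]; rfl

theorem star_PP (ω : Set ℕ) : star (PP ω) = PP ω :=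
  star_bd _ _ _ _ fun j x y => by split_ifs <;> simp

theorem PP_mul_PP (ω : Set ℕ) : PP ω * PP ω = PP ω := by
  refine ContinuousLinearMap.ext fun x => lp.ext (funext fun j => ?_)
  show PP ω (PP ω x) j = _
  by_cases h : j ∈ ω
  · rw [PP_of_mem h]
  · rw [PP_of_not_mem h, PP_of_not_mem h]

theorem PP_mul_uu (ω : Set ℕ) (g : Aff) : PP ω * uu g = uu g * PP ω := by
  refine ContinuousLinearMap.ext fun x => lp.ext (funext fun j => ?_)
  show PP ω (uu g x) j = ub j g (PP ω x j)
  by_cases h : j ∈ ω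
  · rw [PP_of_mem h, PP_of_mem h, uu_apply]
  · rw [PP_of_not_mem h, PP_of_not_mem h, map_zero]

/-- The standard basis vectors. -/
noncomputable def ee (k : ℕ) (v : X k) : H0 := lp.single 2 k (EuclideanSpace.single v (1 : ℂ))

theorem inner_ee (k : ℕ) (v : X k) (x : H0) : ⟪ee k v, x⟫_ℂ = x k v := by
  rw [ee, lp.inner_single_left, EuclideanSpace.inner_single_left, map_one, one_mul]

theorem norm_ee (k : ℕ) (v : X k) : ‖ee k v‖ = 1 := by
  rw [ee, lp.norm_single (by norm_num)]
  simp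

theorem ee_self (k : ℕ) (v : X k) : ee k v k = EuclideanSpace.single v (1 : ℂ) :=
  lp.single_apply_self _ _ _

theorem ee_ne {k j : ℕ} (h : j ≠ k) (v : X k) : ee k v j = 0 := lp.single_apply_ne _ _ _ h

theorem PP_ee {ω : Set ℕ} {k : ℕ} (h : k ∈ ω) (v : X k) : PP ω (ee k v) = ee k v := by
  refine lp.ext (funext fun j => ?_)
  by_cases hj : j ∈ ω
  · exact PP_of_mem hj _
  · rw [PP_of_not_mem hj, ee_ne]
    rintro rfl
    exact hj h

theorem uu_ee (g : Aff) (k : ℕ) (v : X k) : uu g (ee k (act k g v)) = coc k g v • ee k v := by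
  refine lp.ext (funext fun j => ?_)
  rw [uu_apply, lp.coeFn_smul, Pi.smul_apply]
  rcases eq_or_ne j k with rfl | h
  · rw [ee_self, ee_self]
    ext y
    rw [ub_apply]
    rcases eq_or_ne y v with rfl | hy
    · simp
    · have : act j g y ≠ act j g v := fun h => hy ((act j g).injective h)
      simp [hy, this]
  · rw [ee_ne h, ee_ne h, map_zero, smul_zero]

/-- The normalized trace of the compression to a block. -/
noncomputable def tr (k : ℕ) : B0 →ₗ[ℂ] ℂ where
  toFun x := ((Fintype.card (X k) : ℂ))⁻¹ * ∑ v, ⟪ee k v, x (ee k v)⟫_ℂ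
  map_add' x y := by simp [inner_add_right, sum_add_distrib, mul_add]
  map_smul' c x := by simp [inner_smul_right, ← mul_sum, mul_left_comm]

theorem tr_apply (k : ℕ) (x : B0) :
    tr k x = ((Fintype.card (X k) : ℂ))⁻¹ * ∑ v, ⟪ee k v, x (ee k v)⟫_ℂ := rfl

theorem norm_tr_le (k : ℕ) (x : B0) : ‖tr k x‖ ≤ ‖x‖ := by
  have h0 : (0 : ℝ) < Fintype.card (X k) := by exact_mod_cast card_X_pos k
  rw [tr_apply, norm_mul, norm_inv, Complex.norm_natCast, inv_mul_le_iff₀ h0]
  refine (norm_sum_le _ _).trans ?_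
  rw [← nsmul_eq_mul, ← card_univ]
  refine sum_le_card_nsmul _ _ _ fun v _ => (norm_inner_le_norm _ _).trans ?_
  have := x.le_opNorm (ee k v)
  rw [norm_ee] at this ⊢
  linarith

theorem tr_nonneg (k : ℕ) {x : B0} (hx : 0 ≤ x) : 0 ≤ tr k x := by
  rw [tr_apply]
  refine mul_nonneg (inv_nonneg.2 (Nat.cast_nonneg _)) (sum_nonneg fun v _ => ?_)
  exact ((ContinuousLinearMap.nonneg_iff_isPositive _).1 hx).inner_nonneg_right _

theorem tr_conj (k : ℕ) (g : Aff) (x : B0) : tr k (star (uu g) * x * uu g) = tr k x := by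
  rw [tr_apply, tr_apply, ← Equiv.sum_comp (act k g)]
  congr 1
  refine sum_congr rfl fun v _ => ?_
  show ⟪_, star (uu g) (x (uu g _))⟫_ℂ = _
  rw [ContinuousLinearMap.star_eq_adjoint, ContinuousLinearMap.adjoint_inner_right, uu_ee,
    map_smul, inner_smul_left, inner_smul_right, ← mul_assoc, Complex.conj_mul', norm_coc]
  simp

theorem tr_mul_PP {ω : Set ℕ} {k : ℕ} (h : k ∈ ω) (x : B0) : tr k (x * PP ω) = tr k x := by
  rw [tr_apply, tr_apply]
  congr 1
  refine sum_congr rfl fun v _ => ?_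
  show ⟪_, x (PP ω _)⟫_ℂ = _
  rw [PP_ee h]

theorem tr_one (k : ℕ) : tr k 1 = 1 := by
  have h0 : (Fintype.card (X k) : ℂ) ≠ 0 := by exact_mod_cast (card_X_pos k).ne'
  rw [tr_apply]
  simp [inner_self_eq_norm_sq_to_K, norm_ee, h0]

theorem tr_star_mul (k : ℕ) (a c : B0) : tr k (star a * c * a) =
    ((Fintype.card (X k) : ℂ))⁻¹ * ∑ v, ⟪a (ee k v), c (a (ee k v))⟫_ℂ := by
  rw [tr_apply]
  congr 1
  refine sum_congr rfl fun v _ => ?_
  show ⟪_, star a (c (a _))⟫_ℂ = _
  rw [ContinuousLinearMap.star_eq_adjoint, ContinuousLinearMap.adjoint_inner_right]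

theorem tendsto_tr_uu {g : Aff} (hg : g ≠ 1) : Tendsto (fun k => tr k (uu g)) atTop (𝓝 0) := by
  refine squeeze_zero_norm' ?_ tendsto_one_div_add_atTop_nhds_zero_nat
  filter_upwards [eventually_trace_le hg] with k hk
  have h0 : (0 : ℝ) < Fintype.card (X k) := by exact_mod_cast card_X_pos k
  have e : ∀ v : X k, ⟪ee k v, uu g (ee k v)⟫_ℂ = if act k g v = v then coc k g v else 0 := by
    intro v
    rw [inner_ee, uu_apply, ub_apply, ee_self]
    split_ifs with h <;> simp [h]
  rw [tr_apply, norm_mul, norm_inv, Complex.norm_natCast, inv_mul_le_iff₀ h0]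
  simp only [e]
  refine hk.trans ?_
  have h1 : (((k + 1) * pr k : ℕ) : ℝ) ≤ Fintype.card (X k) := by exact_mod_cast card_X_ge k
  rw [mul_one_div, le_div_iff₀ (by positivity)]
  push_cast at h1
  linarith

theorem exists_ulim (U : Ultrafilter ℕ) (x : B0) :
    ∃ c : ℂ, Tendsto (fun k => tr k x) U (𝓝 c) := by
  obtain ⟨c, -, hc⟩ := (isCompact_closedBall (0 : ℂ) ‖x‖).ultrafilter_le_nhds
    (U.map fun k => tr k x) (by
      rw [le_principal_iff, Ultrafilter.coe_map, Filter.mem_map]
      exact univ_mem' fun k => by simpa using norm_tr_le k x)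
  exact ⟨c, hc⟩

/-- The limit of the block traces along an ultrafilter. -/
noncomputable def tau (U : Ultrafilter ℕ) : B0 →ₚ[ℂ] ℂ :=
  PositiveLinearMap.mk₀
    { toFun := fun x => (exists_ulim U x).choose
      map_add' := fun x y => tendsto_nhds_unique (exists_ulim U (x + y)).choose_spec (by
        simpa only [map_add] using
          (exists_ulim U x).choose_spec.add (exists_ulim U y).choose_spec)
      map_smul' := fun c x => tendsto_nhds_unique (exists_ulim U (c • x)).choose_spec (by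
        simpa only [map_smul, RingHom.id_apply] using (exists_ulim U x).choose_spec.const_smul c) }
    fun x hx => ge_of_tendsto' (exists_ulim U x).choose_spec fun k => tr_nonneg k hx

theorem tendsto_tau (U : Ultrafilter ℕ) (x : B0) : Tendsto (fun k => tr k x) U (𝓝 (tau U x)) :=
  (exists_ulim U x).choose_spec

theorem tau_conj (U : Ultrafilter ℕ) (g : Aff) (x : B0) :
    tau U (star (uu g) * x * uu g) = tau U x :=
  tendsto_nhds_unique (tendsto_tau U _) (by simpa only [tr_conj] using tendsto_tau U x)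

theorem tau_comm (U : Ultrafilter ℕ) (g : Aff) (x : B0) : tau U (uu g * x) = tau U (x * uu g) := by
  rw [← tau_conj U g (uu g * x), ← mul_assoc, star_uu_mul, one_mul]

theorem tau_mul_PP {U : Ultrafilter ℕ} {ω : Set ℕ} (h : ω ∈ U) (x : B0) :
    tau U (x * PP ω) = tau U x :=
  tendsto_nhds_unique (tendsto_tau U _) ((tendsto_tau U x).congr'
    (mem_of_superset h fun _ hk => (tr_mul_PP hk x).symm))

theorem tau_one (U : Ultrafilter ℕ) : tau U 1 = 1 :=
  tendsto_nhds_unique (tendsto_tau U _) (by simpa only [tr_one] using tendsto_const_nhds)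

open Classical in
theorem tau_uu {U : Ultrafilter ℕ} (hU : (U : Filter ℕ) ≤ atTop) (g : Aff) :
    tau U (uu g) = if g = 1 then 1 else 0 := by
  split_ifs with h
  · rw [h, uu_one, tau_one]
  · exact tendsto_nhds_unique (tendsto_tau U _) ((tendsto_tr_uu h).mono_left hU)

end Pool.Agent.P.MP_7f9919_an
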