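import Pool.Agent.P.MP_7f9919_an.Main

/-!
Closed ideals of the algebra of bounded operators, and the main theorem.
-/

set_option autoImplicit false
set_option linter.unusedSectionVars false

namespace Pool.Agent.P.MP_7f9919_an

open Filter Topology Cardinal TopologicalSpace

open scoped InnerProductSpace TensorProduct

variable {H : Type} [NormedAddCommGroup H] [InnerProductSpace ℂ H] [CompleteSpace H]
  {D : Type} [Ring D] [StarRing D] [Algebra ℂ D] [StarModule ℂ D]

theorem compact_of_ker [Nontrivial D] (b : HilbertBasis ℕ ℂ H) (q : (H →L[ℂ] H) →⋆ₐ[ℂ] D)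
    {x : H →L[ℂ] H} (hx : q x = 0) : IsCompactOperator x := by
  by_contra hcon
  obtain ⟨ε, hε, f, hf, hf2, hle⟩ := exists_orthonormal_of_not_compact' hcon
  have hpos : ∀ n, 0 < ‖x (f n)‖ := fun n => hε.trans_le (hle n)
  have hg : Orthonormal ℂ fun n => (‖x (f n)‖⁻¹ : ℂ) • x (f n) :=
    ⟨fun n => norm_smul_inv_norm (norm_pos_iff.1 (hpos n)), fun m n h => by
      show ⟪_, _⟫_ℂ = 0
      rw [inner_smul_left, inner_smul_right, hf2 h, mul_zero, mul_zero]⟩
  let m : lp (fun _ : ℕ => ℂ) 2 →L[ℂ] lp (fun _ : ℕ => ℂ) 2 :=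
    lp.mapCLM 2 (fun n => (‖x (f n)‖⁻¹ : ℂ) • ContinuousLinearMap.id ℂ ℂ) (K := ε⁻¹)
      (by positivity) fun n => by
        rw [norm_smul, ContinuousLinearMap.norm_id, mul_one, norm_inv, Complex.norm_real,
          norm_norm]
        exact inv_anti₀ hε (hle n)
  have hm : ∀ n, m (lp.single 2 n 1) = (‖x (f n)‖⁻¹ : ℂ) • lp.single 2 n 1 := by
    intro n
    refine lp.ext (funext fun k => ?_)
    show (‖x (f k)‖⁻¹ : ℂ) • (lp.single 2 n (1 : ℂ) : lp (fun _ : ℕ => ℂ) 2) k = _
    rw [lp.coeFn_smul, Pi.smul_apply]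
    rcases eq_or_ne k n with rfl | h
    · rfl
    · rw [lp.single_apply_ne _ _ _ h, smul_zero, smul_zero]
  have e : x ∘L isoOf hf ∘L m = isoOf hg := by
    refine lp.ext_continuousLinearMap (by norm_num) fun n => ContinuousLinearMap.ext_ring ?_
    show x (isoOf hf (m (lp.single 2 n 1))) = isoOf hg (lp.single 2 n 1)
    rw [hm, map_smul, map_smul, isoOf_single, isoOf_single]
  let r : H →L[ℂ] lp (fun _ : ℕ => ℂ) 2 := b.repr.toContinuousLinearEquiv.toContinuousLinearMap
  have e2 : star (isoOf hg ∘L r) * (x * (isoOf hf ∘L m ∘L r)) = 1 := by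
    refine ContinuousLinearMap.ext fun v => ext_inner_left ℂ fun u => ?_
    show ⟪u, star (isoOf hg ∘L r) ((x ∘L isoOf hf ∘L m) (r v))⟫_ℂ = ⟪u, v⟫_ℂ
    rw [e, ContinuousLinearMap.star_eq_adjoint, ContinuousLinearMap.adjoint_inner_right]
    exact (hg.orthogonalFamily.linearIsometry.inner_map_map _ _).trans (b.repr.inner_map_map u v)
  have e3 := congrArg q e2
  rw [map_mul, map_mul, hx, zero_mul, mul_zero, map_one] at e3
  exact zero_ne_one e3

theorem ker_of_compact (q : (H →L[ℂ] H) →⋆ₐ[ℂ] D) (hc : IsClosed {x | q x = 0})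
    (hq : ¬ Function.Injective q) {y : H →L[ℂ] H} (hy : IsCompactOperator y) : q y = 0 := by
  rw [injective_iff_map_eq_zero] at hq
  push Not at hq
  obtain ⟨x, hx, hx0⟩ := hq
  obtain ⟨v, hv⟩ : ∃ v, x v ≠ 0 := by
    by_contra hcon
    push Not at hcon
    exact hx0 (ContinuousLinearMap.ext hcon)
  have h1 : ∀ u w : H, q (InnerProductSpace.rankOne ℂ u w) = 0 := by
    intro u w
    have e : (⟪x v, x v⟫_ℂ) • InnerProductSpace.rankOne ℂ u w =
        InnerProductSpace.rankOne ℂ u (x v) * x * InnerProductSpace.rankOne ℂ v w := by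
      ext z
      simp [smul_smul, mul_comm]
    have e2 := congrArg q e
    rw [map_smul, map_mul, map_mul, hx, mul_zero, zero_mul] at e2
    exact (smul_eq_zero.1 e2).resolve_left (inner_self_ne_zero.2 hv)
  refine hc.closure_subset (Metric.mem_closure_iff.2 fun ε hε => ?_)
  obtain ⟨W, hW, hle⟩ := approx_of_compact hy (half_pos hε)
  refine ⟨y ∘L W.starProjection, ?_, ?_⟩
  · show q (y * W.starProjection) = 0
    rw [(stdOrthonormalBasis ℂ W).starProjection_eq_sum_rankOne, map_mul, map_sum]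
    simp only [h1, Finset.sum_const_zero, mul_zero]
  · rw [dist_eq_norm]
    linarith

theorem exists_model [SeparableSpace H] (hH : ¬ FiniteDimensional ℂ H) [Nontrivial D]
    (q : (H →L[ℂ] H) →⋆ₐ[ℂ] D) (hq : Function.Surjective q) (hc : IsClosed {x | q x = 0}) :
    Nonempty (D ≃⋆ₐ[ℂ] B0) ∨ ∃ p : B0 →⋆ₐ[ℂ] D, Function.Surjective p ∧
      ∀ x, p x = 0 ↔ IsCompactOperator x := by
  obtain ⟨e⟩ := exists_unitary H hH
  obtain ⟨b⟩ := exists_basis H hH ℕ
  by_cases hi : Function.Injective q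
  · exact Or.inl ⟨(StarAlgEquiv.ofBijective q ⟨hi, hq⟩).symm.trans e.conjStarAlgEquiv⟩
  · refine Or.inr ⟨q.comp (e.symm.conjStarAlgEquiv : B0 →⋆ₐ[ℂ] (H →L[ℂ] H)),
      hq.comp e.symm.conjStarAlgEquiv.surjective, fun x => ⟨fun hx => ?_, fun hx => ?_⟩⟩
    · have h1 := compact_of_ker b q hx
      have h2 := (h1.comp_clm e.symm.toContinuousLinearEquiv.toContinuousLinearMap).clm_comp
        e.toContinuousLinearEquiv.toContinuousLinearMap
      have h3 : (x : H0 → H0) = fun v => e (e.symm (x (e (e.symm v)))) := by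
        funext v
        simp
      rw [h3]
      exact h2
    · exact ker_of_compact q hc hi
        ((hx.comp_clm e.toContinuousLinearEquiv.toContinuousLinearMap).clm_comp
          e.symm.toContinuousLinearEquiv.toContinuousLinearMap)

theorem card_norms_comm {A B : Type} [Ring A] [StarRing A] [Algebra ℂ A] [StarModule ℂ A]
    [Ring B] [StarRing B] [Algebra ℂ B] [StarModule ℂ B] :
    #{ν : B ⊗[ℂ] A → ℝ // IsCStarNorm ν} ≤ #{ν : A ⊗[ℂ] B → ℝ // IsCStarNorm ν} := by
  refine card_norms_mono (Algebra.TensorProduct.comm ℂ A B) fun x => ?_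
  induction x with
  | zero => simp
  | add a b ha hb => rw [star_add, map_add, map_add, star_add, ha, hb]
  | tmul a b => simp [TensorProduct.star_tmul]

theorem card_norms_quotients [SeparableSpace H] (hH : ¬ FiniteDimensional ℂ H)
    {A B : Type} [Ring A] [StarRing A] [Algebra ℂ A] [StarModule ℂ A] [Nontrivial A]
    [Ring B] [StarRing B] [Algebra ℂ B] [StarModule ℂ B] [Nontrivial B]
    (p : (H →L[ℂ] H) →⋆ₐ[ℂ] A) (hp : Function.Surjective p) (hpc : IsClosed {x | p x = 0})
    (q : (H →L[ℂ] H) →⋆ₐ[ℂ] B) (hq : Function.Surjective q) (hqc : IsClosed {x | q x = 0}) :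
    #{ν : A ⊗[ℂ] B → ℝ // IsCStarNorm ν} = 2 ^ 𝔠 := by
  refine le_antisymm (card_norms_le (card_tensor_le
    ((mk_le_of_surjective hp).trans (card_clm_le H))
    ((mk_le_of_surjective hq).trans (card_clm_le H)))) ?_
  rcases exists_model hH p hp hpc with ⟨⟨e⟩⟩ | ⟨p', hp', hk⟩ <;>
    rcases exists_model hH q hq hqc with ⟨⟨e'⟩⟩ | ⟨q', hq', hk'⟩
  · exact lower_BB.trans (card_norms_tensor_mono e e')
  · exact (lower_BQ q' hq' hk').trans (card_norms_tensor_mono e (StarAlgEquiv.refl ℂ _))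
  · exact ((lower_BQ p' hp' hk).trans (card_norms_tensor_mono e' (StarAlgEquiv.refl ℂ _))).trans
      card_norms_comm
  · exact lower_QQ p' hp' hk q' hq' hk'

end Pool.Agent.P.MP_7f9919_an
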