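import Pool.Agent.P.MP_7f9919_an.Ideals
import Pool.Agent.P.MP_7f9919_an.Calkin

/-!
The cases (a) and (c) of the problem are instances of `card_norms_quotients`.
-/

set_option autoImplicit false

namespace Pool.Agent.P.MP_7f9919_an

open scoped TensorProduct

variable (H : Type) [NormedAddCommGroup H] [InnerProductSpace ℂ H] [CompleteSpace H]
  [TopologicalSpace.SeparableSpace H]

theorem not_compact_one (hH : ¬ FiniteDimensional ℂ H) :
    ¬ IsCompactOperator (1 : H →L[ℂ] H) := fun h =>
  hH (FiniteDimensional.of_isCompactOperator_id h)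

theorem nontrivial_bounded (hH : ¬ FiniteDimensional ℂ H) : Nontrivial (H →L[ℂ] H) :=
  ⟨1, 0, fun h => not_compact_one H hH (by rw [h]; exact isCompactOperator_zero)⟩

theorem nontrivial_calkin (hH : ¬ FiniteDimensional ℂ H) : Nontrivial (Calkin H) :=
  ⟨calkinMk H 1, 0, fun h => not_compact_one H hH ((calkinMk_eq_zero H 1).1 h)⟩

/-- The quotient map onto the Calkin algebra as a *-homomorphism. -/
noncomputable def calkinStar : (H →L[ℂ] H) →⋆ₐ[ℂ] Calkin H :=
  { calkinMk H with map_star' := fun x => (star_calkinMk H x).symm }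

theorem case_a (hH : ¬ FiniteDimensional ℂ H) :
    Cardinal.mk {ν : (H →L[ℂ] H) ⊗[ℂ] (H →L[ℂ] H) → ℝ // IsCStarNorm ν} =
      2 ^ (2 ^ Cardinal.aleph0 : Cardinal) := by
  have := nontrivial_bounded H hH
  rw [Cardinal.two_power_aleph0]
  exact card_norms_quotients hH (StarAlgHom.id ℂ _) Function.surjective_id
    isClosed_singleton (StarAlgHom.id ℂ _) Function.surjective_id isClosed_singleton

theorem case_c (hH : ¬ FiniteDimensional ℂ H) :
    Cardinal.mk {ν : (H →L[ℂ] H) ⊗[ℂ] Calkin H → ℝ // IsCStarNorm ν} =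
      2 ^ (2 ^ Cardinal.aleph0 : Cardinal) := by
  have := nontrivial_bounded H hH
  have := nontrivial_calkin H hH
  rw [Cardinal.two_power_aleph0]
  exact card_norms_quotients hH (StarAlgHom.id ℂ _) Function.surjective_id
    isClosed_singleton (calkinStar H) (calkinMk_surjective H) (by
      have e : {x | calkinStar H x = 0} = {x : H →L[ℂ] H | IsCompactOperator x} :=
        Set.ext fun x => calkinMk_eq_zero H x
      rw [e]
      exact isClosed_setOfPred_isCompactOperator)

end Pool.Agent.P.MP_7f9919_an
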