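import Pool.Agent.P.MP_7f9919_an.PingPong

/-!
Low rank positive matrices are not almost invariant.
-/

set_option autoImplicit false
set_option linter.unusedSectionVars false

namespace Pool.Agent.P.MP_7f9919_an

open Finset Matrix

open scoped ComplexOrder ComplexConjugate

theorem l1_of_l2 {Z : Type} [Fintype Z] (σ : Equiv.Perm Z) (f : Z → ℂ) {M : ℝ}
    (hM : ∑ z, ‖f z‖ ^ 2 ≤ M) (h : ∑ z, ‖f (σ z) - f z‖ ^ 2 ≤ M / 1024) :
    ∑ z, |‖f (σ z)‖ ^ 2 - ‖f z‖ ^ 2| ≤ M / 16 := by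
  have h1 : ∀ z, |‖f (σ z)‖ ^ 2 - ‖f z‖ ^ 2| ≤
      32 * ‖f (σ z) - f z‖ ^ 2 + (1 / 64) * ‖f (σ z)‖ ^ 2 + (1 / 64) * ‖f z‖ ^ 2 := by
    intro z
    have h2 := abs_norm_sub_norm_le (f (σ z)) (f z)
    set a := ‖f (σ z)‖
    set b := ‖f z‖
    set d := ‖f (σ z) - f z‖
    have ha : 0 ≤ a := norm_nonneg _
    have hb : 0 ≤ b := norm_nonneg _
    have hd : 0 ≤ d := norm_nonneg _
    have h3 : |a ^ 2 - b ^ 2| ≤ d * (a + b) := by
      rw [sq_sub_sq, abs_mul, abs_of_nonneg (add_nonneg ha hb), mul_comm]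
      exact mul_le_mul_of_nonneg_right h2 (add_nonneg ha hb)
    nlinarith [sq_nonneg (64 * d - (a + b)), sq_nonneg (a - b)]
  refine (sum_le_sum fun z _ => h1 z).trans ?_
  rw [sum_add_distrib, sum_add_distrib, ← mul_sum, ← mul_sum, ← mul_sum,
    Equiv.sum_comp σ (fun z => ‖f z‖ ^ 2)]
  linarith

/-- The ping-pong estimate for almost invariant square summable functions. -/
theorem pingpong_l2 {Z : Type} [Fintype Z] (σ τ : Equiv.Perm Z) (ζ : Z → T1 × T1)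
    (hσ : ∀ z, ζ (σ z) = ((ζ z).1 + (3 : ℤ) • (ζ z).2, (ζ z).2))
    (hτ : ∀ z, ζ (τ z) = ((ζ z).1, (ζ z).2 + (3 : ℤ) • (ζ z).1))
    (f : Z → ℂ) {M : ℝ} (hM : ∑ z, ‖f z‖ ^ 2 ≤ M)
    (h1 : ∑ z, ‖f (σ z) - f z‖ ^ 2 ≤ M / 1024) (h2 : ∑ z, ‖f (τ z) - f z‖ ^ 2 ≤ M / 1024)
    (h3 : ∑ z, ‖ch (ζ z).1 * f z - f z‖ ^ 2 ≤ M / 1024)
    (h4 : ∑ z, ‖ch (ζ z).2 * f z - f z‖ ^ 2 ≤ M / 1024) :
    mass (fun z => ‖f z‖ ^ 2) (fun z => ζ z ≠ 0) ≤ M / 3 := by
  have hp := pingpong σ τ ζ hσ hτ (fun z => ‖f z‖ ^ 2) fun z => by positivity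
  have a1 := l1_of_l2 σ f hM h1
  have a2 := l1_of_l2 τ f hM h2
  have hfar : ∀ (x : T1) (w : ℂ), 1 / 14 < ‖x‖ → ‖w‖ ^ 2 ≤ 49 / 4 * ‖ch x * w - w‖ ^ 2 := by
    intro x w hx
    have e : ch x * w - w = (ch x - 1) * w := by ring
    have h5 := norm_ch_sub_one x
    rw [e, norm_mul, mul_pow]
    have h6 : (2 / 7 : ℝ) ^ 2 ≤ ‖ch x - 1‖ ^ 2 := pow_le_pow_left₀ (by norm_num) (by linarith) 2
    nlinarith [sq_nonneg ‖w‖]
  have a3 := mass_or_le (μ := fun z => ‖f z‖ ^ 2) (fun z => by positivity)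
    (fun z => 1 / 14 < ‖(ζ z).1‖) (fun z => 1 / 14 < ‖(ζ z).2‖)
  have a4 := mass_le_of_le (μ := fun z => ‖f z‖ ^ 2)
    (ν := fun z => 49 / 4 * ‖ch (ζ z).1 * f z - f z‖ ^ 2) (fun z => by positivity)
    (Q := fun z => 1 / 14 < ‖(ζ z).1‖) fun z hz => hfar _ _ hz
  have a5 := mass_le_of_le (μ := fun z => ‖f z‖ ^ 2)
    (ν := fun z => 49 / 4 * ‖ch (ζ z).2 * f z - f z‖ ^ 2) (fun z => by positivity)
    (Q := fun z => 1 / 14 < ‖(ζ z).2‖) fun z hz => hfar _ _ hz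
  rw [← mul_sum] at a4 a5
  have h0 : 0 ≤ M := le_trans (by positivity) hM
  linarith

variable {Y : Type} [Fintype Y] [DecidableEq Y]

/-- The square of the Hilbert-Schmidt norm. -/
noncomputable def hs {ι : Type} [Fintype ι] (S : Matrix Y ι ℂ) : ℝ := ∑ x, ∑ y, ‖S x y‖ ^ 2

theorem hs_eq_trace {ι : Type} [Fintype ι] (S : Matrix Y ι ℂ) : hs S = (trace (S * Sᴴ)).re := by
  simp only [hs, trace, diag_apply, mul_apply, conjTranspose_apply, Complex.re_sum]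
  refine sum_congr rfl fun x _ => sum_congr rfl fun y _ => ?_
  rw [Complex.star_def, Complex.mul_conj, Complex.ofReal_re, Complex.normSq_eq_norm_sq]

theorem hs_prod (S : Matrix Y Y ℂ) : hs S = ∑ z : Y × Y, ‖S z.1 z.2‖ ^ 2 :=
  (Fintype.sum_prod_type' fun x y => ‖S x y‖ ^ 2).symm

theorem spec {S : Matrix Y Y ℂ} (hS : S.IsHermitian) :
    ∃ W : Matrix Y Y ℂ, Wᴴ * W = 1 ∧ W * Wᴴ = 1 ∧
      S = W * diagonal (fun i => (hS.eigenvalues i : ℂ)) * Wᴴ := by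
  refine ⟨hS.eigenvectorUnitary, Unitary.coe_star_mul_self _, Unitary.coe_mul_star_self _, ?_⟩
  have := hS.spectral_theorem
  rw [Unitary.conjStarAlgAut_apply] at this
  exact this

theorem conj_diag_mul {W : Matrix Y Y ℂ} (hW : Wᴴ * W = 1) (d e : Y → ℂ) :
    W * diagonal d * Wᴴ * (W * diagonal e * Wᴴ) = W * diagonal (fun i => d i * e i) * Wᴴ := by
  calc W * diagonal d * Wᴴ * (W * diagonal e * Wᴴ)
      = W * (diagonal d * (Wᴴ * W) * diagonal e) * Wᴴ := by simp only [Matrix.mul_assoc]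
    _ = _ := by rw [hW, Matrix.mul_one, diagonal_mul_diagonal]

theorem trace_conj_diag {W : Matrix Y Y ℂ} (hW : Wᴴ * W = 1) (d : Y → ℂ) :
    trace (W * diagonal d * Wᴴ) = ∑ i, d i := by
  rw [trace_mul_cycle, hW, Matrix.one_mul, trace_diagonal]

theorem conj_diag_herm (W : Matrix Y Y ℂ) (d : Y → ℝ) :
    (W * diagonal (fun i => (d i : ℂ)) * Wᴴ)ᴴ = W * diagonal (fun i => (d i : ℂ)) * Wᴴ := by
  rw [conjTranspose_mul, conjTranspose_mul, conjTranspose_conjTranspose, diagonal_conjTranspose,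
    Matrix.mul_assoc]
  congr 3
  funext i
  simp

theorem sqrt_exists {ι : Type} [Fintype ι] (T : Matrix Y ι ℂ) :
    ∃ A : Matrix Y Y ℂ, A.PosSemidef ∧ A * A = T * Tᴴ ∧
      (trace A).re ^ 2 ≤ Fintype.card ι * hs A ∧ hs A = hs T := by
  have hρ := posSemidef_self_mul_conjTranspose T
  obtain ⟨W, hW, -, hS⟩ := spec hρ.1
  set l := hρ.1.eigenvalues with hl
  have hl0 : ∀ i, 0 ≤ l i := hρ.eigenvalues_nonneg
  set A := W * diagonal (fun i => ((√(l i) : ℝ) : ℂ)) * Wᴴ with hA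
  have hAA : A * A = T * Tᴴ := by
    rw [hA, conj_diag_mul hW, hS]
    congr 3
    funext i
    rw [← Complex.ofReal_mul, Real.mul_self_sqrt (hl0 i)]
  have hhs : hs A = (trace (T * Tᴴ)).re := by rw [hs_eq_trace, conj_diag_herm, hAA]
  refine ⟨A, ?_, hAA, ?_, by rw [hhs, hs_eq_trace]⟩
  · refine PosSemidef.mul_mul_conjTranspose_same (PosSemidef.diagonal fun i => ?_) W
    exact Complex.zero_le_real.2 (Real.sqrt_nonneg _)
  · have h1 : (trace A).re = ∑ i with l i ≠ 0, √(l i) := by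
      rw [hA, trace_conj_diag hW, Complex.re_sum, sum_filter_of_ne]
      · simp
      · intro i _ hi h0
        exact hi (by rw [h0, Real.sqrt_zero])
    have h2 : hs A = ∑ i, l i := by
      rw [hhs, hS, trace_conj_diag hW, Complex.re_sum]
      simp
    have h3 : (univ.filter fun i => l i ≠ 0).card ≤ Fintype.card ι := by
      rw [← Fintype.card_subtype, ← hρ.1.rank_eq_card_non_zero_eigs]
      exact (rank_mul_le_left _ _).trans (rank_le_card_width _)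
    have h4 : ∑ i with l i ≠ 0, √(l i) ^ 2 ≤ ∑ i, l i := by
      rw [sum_congr rfl fun i _ => Real.sq_sqrt (hl0 i)]
      exact sum_le_sum_of_subset_of_nonneg (filter_subset _ _) fun i _ _ => hl0 i
    rw [h1, h2]
    refine sq_sum_le_card_mul_sum_sq.trans ?_
    exact mul_le_mul (by exact_mod_cast h3) h4 (by positivity) (by positivity)

/-- The Powers-Stormer inequality, in dual form. -/
theorem powers_stormer {A A' : Matrix Y Y ℂ} (hA : A.PosSemidef) (hA' : A'.PosSemidef) :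
    ∃ b : Matrix Y Y ℂ, bᴴ * b = 1 ∧ hs (A' - A) ≤ (trace (b * (A' * A' - A * A))).re := by
  have hS : (A' - A).IsHermitian := hA'.1.sub hA.1
  obtain ⟨W, hW, hW', hSW⟩ := spec hS
  set d := hS.eigenvalues with hd
  set e : Y → ℝ := fun i => if 0 ≤ d i then 1 else -1 with he
  have hee : ∀ i, e i * e i = 1 := fun i => by simp only [he]; split_ifs <;> norm_num
  have hed : ∀ i, e i * d i = |d i| := fun i => by
    simp only [he]
    split_ifs with h
    · rw [abs_of_nonneg h, one_mul]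
    · rw [abs_of_neg (not_le.1 h), neg_one_mul]
  set b := W * diagonal (fun i => (e i : ℂ)) * Wᴴ with hb
  have hbS : b * (A' - A) = W * diagonal (fun i => ((|d i| : ℝ) : ℂ)) * Wᴴ := by
    rw [hSW, hb, conj_diag_mul hW]
    congr 3
    funext i
    rw [← Complex.ofReal_mul, hed]
  have hSb : (A' - A) * b = W * diagonal (fun i => ((|d i| : ℝ) : ℂ)) * Wᴴ := by
    rw [hSW, hb, conj_diag_mul hW]
    congr 3
    funext i
    rw [← Complex.ofReal_mul, mul_comm, hed]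
  refine ⟨b, ?_, ?_⟩
  · rw [hb, conj_diag_herm, conj_diag_mul hW]
    have : (fun i => (e i : ℂ) * e i) = fun _ => 1 := by
      funext i; rw [← Complex.ofReal_mul, hee]; simp
    rw [this, diagonal_one, Matrix.mul_one, hW']
  · have h1 : hs (A' - A) = ∑ i, d i ^ 2 := by
      rw [hs_eq_trace, hS.eq]
      conv_lhs => rw [hSW]
      rw [conj_diag_mul hW, trace_conj_diag hW, Complex.re_sum]
      refine sum_congr rfl fun i _ => ?_
      rw [← Complex.ofReal_mul, Complex.ofReal_re, sq]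
    have h2 : trace (b * (A' * A' - A * A)) =
        ∑ i, ((|d i| : ℝ) : ℂ) * ((Wᴴ * A' * W) i i + (Wᴴ * A * W) i i) := by
      have e1 : b * (A' * A' - A * A) = b * (A' - A) * A' + b * (A * (A' - A)) := by
        noncomm_ring
      have e2 : trace (b * (A * (A' - A))) = trace ((A' - A) * b * A) := by
        rw [← Matrix.mul_assoc, trace_mul_cycle]
      have e3 : ∀ X : Matrix Y Y ℂ, trace (W * diagonal (fun i => ((|d i| : ℝ) : ℂ)) * Wᴴ * X) =
          ∑ i, ((|d i| : ℝ) : ℂ) * (Wᴴ * X * W) i i := by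
        intro X
        have : W * diagonal (fun i => ((|d i| : ℝ) : ℂ)) * Wᴴ * X =
            W * (diagonal (fun i => ((|d i| : ℝ) : ℂ)) * (Wᴴ * X)) := by
          simp only [Matrix.mul_assoc]
        rw [this, trace_mul_comm, Matrix.mul_assoc]
        simp only [trace, diag_apply, diagonal_mul]
      rw [e1, trace_add, e2, hbS, hSb, e3, e3, ← sum_add_distrib]
      exact sum_congr rfl fun i _ => (mul_add _ _ _).symm
    have h3 : Wᴴ * A' * W - Wᴴ * A * W = diagonal fun i => (d i : ℂ) := by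
      rw [← Matrix.sub_mul, ← Matrix.mul_sub, hSW]
      calc Wᴴ * (W * diagonal (fun i => (d i : ℂ)) * Wᴴ) * W
          = (Wᴴ * W) * diagonal (fun i => (d i : ℂ)) * (Wᴴ * W) := by simp only [Matrix.mul_assoc]
        _ = _ := by rw [hW, Matrix.one_mul, Matrix.mul_one]
    rw [h1, h2, Complex.re_sum]
    refine sum_le_sum fun i _ => ?_
    have h4 : 0 ≤ ((Wᴴ * A' * W) i i).re :=
      (Complex.nonneg_iff.1 (hA'.conjTranspose_mul_mul_same W).diag_nonneg).1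
    have h5 : 0 ≤ ((Wᴴ * A * W) i i).re :=
      (Complex.nonneg_iff.1 (hA.conjTranspose_mul_mul_same W).diag_nonneg).1
    have h6 := congrArg (fun X : Matrix Y Y ℂ => (X i i).re) h3
    simp only [Matrix.sub_apply, Complex.sub_re, diagonal_apply_eq, Complex.ofReal_re] at h6
    rw [Complex.re_ofReal_mul, Complex.add_re, ← sq_abs, sq]
    refine mul_le_mul_of_nonneg_left ?_ (abs_nonneg _)
    rw [abs_le]
    constructor <;> linarith

/-- A low rank positive matrix cannot be almost invariant. -/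
theorem hs_eq_zero_of_almost_inv (σ τ : Equiv.Perm Y) (π : Y → T1 × T1)
    (hπ : Function.Injective π)
    (hσ : ∀ z, π (σ z) = ((π z).1 + (3 : ℤ) • (π z).2, (π z).2))
    (hτ : ∀ z, π (τ z) = ((π z).1, (π z).2 + (3 : ℤ) • (π z).1)) (r : ℕ)
    (hD : ∀ Big : Finset Y, Big.card ≤ 24 * r → ∃ ζ : Y → T1 × T1,
      (∀ z, ζ (σ z) = ((ζ z).1 + (3 : ℤ) • (ζ z).2, (ζ z).2)) ∧
      (∀ z, ζ (τ z) = ((ζ z).1, (ζ z).2 + (3 : ℤ) • (ζ z).1)) ∧ (∀ z, ζ z ≠ 0) ∧
      ∀ z ∈ Big, ‖(ζ z).1‖ ≤ 1 / 14 ∧ ‖(ζ z).2‖ ≤ 1 / 14)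
    {A : Matrix Y Y ℂ} (hA : A.PosSemidef) (hr : (trace A).re ^ 2 ≤ r * hs A)
    (h1 : ∑ z : Y × Y, ‖A (σ z.1) (σ z.2) - A z.1 z.2‖ ^ 2 ≤ hs A / 1024)
    (h2 : ∑ z : Y × Y, ‖A (τ z.1) (τ z.2) - A z.1 z.2‖ ^ 2 ≤ hs A / 1024)
    (h3 : ∑ z : Y × Y, ‖ch ((π z.1).1 - (π z.2).1) * A z.1 z.2 - A z.1 z.2‖ ^ 2 ≤ hs A / 1024)
    (h4 : ∑ z : Y × Y, ‖ch ((π z.1).2 - (π z.2).2) * A z.1 z.2 - A z.1 z.2‖ ^ 2 ≤ hs A / 1024) :
    hs A ≤ 0 := by
  by_contra hpos
  have hM : 0 < hs A := not_le.1 hpos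
  set M := hs A with hMdef
  have a1 := pingpong_l2 (Equiv.prodCongr σ σ) (Equiv.prodCongr τ τ)
    (fun z : Y × Y => π z.1 - π z.2)
    (fun z => by
      simp only [Equiv.prodCongr_apply, Prod.map_fst, Prod.map_snd, hσ, Prod.mk_sub_mk,
        Prod.fst_sub, Prod.snd_sub, zsmul_sub]
      congr 1; abel)
    (fun z => by
      simp only [Equiv.prodCongr_apply, Prod.map_fst, Prod.map_snd, hτ, Prod.mk_sub_mk,
        Prod.fst_sub, Prod.snd_sub, zsmul_sub]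
      congr 1; abel)
    (fun z => A z.1 z.2) (M := M) (hs_prod A).ge h1 h2 h3 h4
  have hdiag : ∀ g : Y × Y → ℝ, (∀ z, 0 ≤ g z) → ∑ x, g (x, x) ≤ ∑ z, g z := by
    intro g hg
    rw [Fintype.sum_prod_type]
    exact sum_le_sum fun x _ => single_le_sum (f := fun y => g (x, y)) (fun y _ => hg _) (mem_univ x)
  have a2 : 2 * M / 3 ≤ ∑ x, ‖A x x‖ ^ 2 := by
    have b1 := mass_add_not (fun z : Y × Y => ‖A z.1 z.2‖ ^ 2) (fun z => π z.1 - π z.2 ≠ 0)
    rw [← hs_prod] at b1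
    have b2 : mass (fun z : Y × Y => ‖A z.1 z.2‖ ^ 2) (fun z => ¬ π z.1 - π z.2 ≠ 0) ≤
        ∑ x, ‖A x x‖ ^ 2 := by
      rw [mass, Fintype.sum_prod_type]
      refine sum_le_sum fun x _ => ?_
      rw [sum_eq_single x]
      · split_ifs <;> simp
      · intro y _ hy
        rw [if_neg (not_not.2 fun h => hy (hπ (sub_eq_zero.1 h)).symm)]
      · simp
    linarith
  have a3 : ∑ x, ‖A x x‖ ^ 2 ≤ M := (hdiag (fun z => ‖A z.1 z.2‖ ^ 2) fun z => by positivity).trans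
    (hs_prod A).ge
  have c1 := l1_of_l2 σ (fun x => A x x) a3
    ((hdiag (fun z => ‖A (σ z.1) (σ z.2) - A z.1 z.2‖ ^ 2) fun z => by positivity).trans h1)
  have c2 := l1_of_l2 τ (fun x => A x x) a3
    ((hdiag (fun z => ‖A (τ z.1) (τ z.2) - A z.1 z.2‖ ^ 2) fun z => by positivity).trans h2)
  set S := ∑ x, ‖A x x‖ with hS
  have hStr : (trace A).re = S := by
    rw [trace, Complex.re_sum]
    refine sum_congr rfl fun x _ => ?_
    have := Complex.nonneg_iff.1 (hA.diag_nonneg (i := x))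
    rw [diag_apply, ← Complex.re_add_im (A x x), ← this.2]
    simp [abs_of_nonneg this.1]
  rw [hStr] at hr
  have hS0 : 0 < S := by
    rcases (show 0 ≤ S by positivity).eq_or_lt with h0 | h0
    · have : ∀ x ∈ univ, ‖A x x‖ = 0 :=
        (sum_eq_zero_iff_of_nonneg fun x _ => norm_nonneg _).1 h0.symm
      rw [sum_eq_zero fun x hx => by rw [this x hx]; norm_num] at a2
      linarith
    · exact h0
  set Big := univ.filter fun x => M < 24 * S * ‖A x x‖ with hBig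
  have hBc : Big.card ≤ 24 * r := by
    have b1 : Big.card • M ≤ ∑ x ∈ Big, 24 * S * ‖A x x‖ :=
      card_nsmul_le_sum _ _ _ fun x hx => (mem_filter.1 hx).2.le
    have b2 : ∑ x ∈ Big, 24 * S * ‖A x x‖ ≤ 24 * S * S := by
      rw [← mul_sum]
      refine mul_le_mul_of_nonneg_left ?_ (by positivity)
      exact sum_le_sum_of_subset_of_nonneg (filter_subset _ _) fun _ _ _ => norm_nonneg _
    rw [nsmul_eq_mul] at b1
    have b3 : (Big.card : ℝ) * M ≤ (24 * r) * M := by nlinarith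
    exact_mod_cast le_of_mul_le_mul_right b3 hM
  obtain ⟨ζ, z1, z2, z3, z4⟩ := hD Big hBc
  have d1 := pingpong σ τ ζ z1 z2 (fun x => ‖A x x‖ ^ 2) fun x => by positivity
  have d2 : mass (fun x => ‖A x x‖ ^ 2) (fun z => ζ z ≠ 0) = ∑ x, ‖A x x‖ ^ 2 :=
    sum_congr rfl fun x _ => if_pos (z3 x)
  have d3 : mass (fun x => ‖A x x‖ ^ 2) (fun z => 1 / 14 < ‖(ζ z).1‖ ∨ 1 / 14 < ‖(ζ z).2‖) ≤
      ∑ x, M / (24 * S) * ‖A x x‖ := by
    refine mass_le_of_le (fun x => by positivity) fun x hx => ?_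
    have b1 : x ∉ Big := fun h => by
      have := z4 x h
      rcases hx with hx | hx <;> linarith [this.1, this.2]
    have b2 : 24 * S * ‖A x x‖ ≤ M := by simpa [hBig] using b1
    rw [sq]
    refine mul_le_mul_of_nonneg_right ?_ (norm_nonneg _)
    rw [le_div_iff₀ (by positivity)]
    linarith
  rw [← mul_sum, ← hS] at d3
  have d4 : M / (24 * S) * S = M / 24 := by field_simp
  linarith

theorem monomial_step (σ : Equiv.Perm Y) (c : Y → ℂ) (hc : ∀ y, ‖c y‖ = 1) {ι : Type} [Fintype ι]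
    {T T' : Matrix Y ι ℂ} (hT : ∀ y l, T' y l = c y * T (σ y) l) {A : Matrix Y Y ℂ}
    (hA : A.PosSemidef) (hAA : A * A = T * Tᴴ) :
    ∃ b : Matrix Y Y ℂ, bᴴ * b = 1 ∧
      ∑ z : Y × Y, ‖c z.1 * conj (c z.2) * A (σ z.1) (σ z.2) - A z.1 z.2‖ ^ 2 ≤
        (trace (b * (T' * T'ᴴ - T * Tᴴ))).re := by
  set U : Matrix Y Y ℂ := (diagonal c).submatrix id σ.symm with hU
  have hUU : Uᴴ * U = 1 := by
    have e := submatrix_mul_equiv (diagonal c)ᴴ (diagonal c) σ.symm (Equiv.refl Y) σ.symm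
    rw [hU, conjTranspose_submatrix]
    refine e.trans ?_
    have : (diagonal c)ᴴ * diagonal c = 1 := by
      rw [diagonal_conjTranspose, diagonal_mul_diagonal, ← diagonal_one]
      congr 1
      funext y
      rw [Pi.star_apply, Complex.star_def, Complex.conj_mul', hc]
      simp
    rw [this, submatrix_one_equiv]
  have hUX : ∀ {κ : Type} (X : Matrix Y κ ℂ) y l, (U * X) y l = c y * X (σ y) l := by
    intro κ X y l
    rw [mul_apply, sum_eq_single (σ y)]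
    · simp [hU]
    · intro x _ hx
      have : y ≠ σ.symm x := fun h => hx (by rw [h, Equiv.apply_symm_apply])
      simp [hU, diagonal_apply_ne _ this]
    · simp
  have hUT : U * T = T' := by
    ext x l
    rw [hUX, hT]
  obtain ⟨b, hb, hle⟩ := powers_stormer hA (hA.mul_mul_conjTranspose_same U)
  refine ⟨b, hb, le_trans (le_of_eq ?_) (hle.trans (le_of_eq ?_))⟩
  · rw [hs_prod]
    refine sum_congr rfl fun z _ => ?_
    have e : (U * A * Uᴴ) z.1 z.2 = c z.1 * conj (c z.2) * A (σ z.1) (σ z.2) := by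
      rw [Matrix.mul_assoc, hUX]
      have : (A * Uᴴ) (σ z.1) z.2 = star ((U * Aᴴ) z.2 (σ z.1)) := by
        rw [← conjTranspose_apply, conjTranspose_mul, conjTranspose_conjTranspose]
      rw [this, hUX, conjTranspose_apply, star_mul', star_star, Complex.star_def, mul_assoc]
    rw [Matrix.sub_apply, e]
  · have : U * A * Uᴴ * (U * A * Uᴴ) = T' * T'ᴴ := by
      calc U * A * Uᴴ * (U * A * Uᴴ) = U * (A * (Uᴴ * U) * A) * Uᴴ := by
            simp only [Matrix.mul_assoc]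
        _ = U * T * (U * T)ᴴ := by
            rw [hUU, Matrix.mul_one, hAA, conjTranspose_mul]; simp only [Matrix.mul_assoc]
        _ = _ := by rw [hUT]
    rw [this, hAA]

/-- Finite dimensional low rank expansion. -/
theorem low_rank_fin (σ τ : Equiv.Perm Y) (π : Y → T1 × T1) (hπ : Function.Injective π)
    (hσ : ∀ z, π (σ z) = ((π z).1 + (3 : ℤ) • (π z).2, (π z).2))
    (hτ : ∀ z, π (τ z) = ((π z).1, (π z).2 + (3 : ℤ) • (π z).1)) (r : ℕ)
    (hD : ∀ Big : Finset Y, Big.card ≤ 24 * r → ∃ ζ : Y → T1 × T1,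
      (∀ z, ζ (σ z) = ((ζ z).1 + (3 : ℤ) • (ζ z).2, (ζ z).2)) ∧
      (∀ z, ζ (τ z) = ((ζ z).1, (ζ z).2 + (3 : ℤ) • (ζ z).1)) ∧ (∀ z, ζ z ≠ 0) ∧
      ∀ z ∈ Big, ‖(ζ z).1‖ ≤ 1 / 14 ∧ ‖(ζ z).2‖ ≤ 1 / 14)
    {ι : Type} [Fintype ι] (hι : Fintype.card ι ≤ r) (T : Matrix Y ι ℂ)
    (T' : Fin 4 → Matrix Y ι ℂ) (h0 : ∀ y l, T' 0 y l = T (σ y) l)
    (h1 : ∀ y l, T' 1 y l = T (τ y) l) (h2 : ∀ y l, T' 2 y l = ch (π y).1 * T y l)
    (h3 : ∀ y l, T' 3 y l = ch (π y).2 * T y l) :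
    ∃ (s : Fin 4) (b : Matrix Y Y ℂ), bᴴ * b = 1 ∧
      hs T / 1024 ≤ (trace (b * (T' s * (T' s)ᴴ - T * Tᴴ))).re := by
  obtain ⟨A, hA, hAA, hr, hAT⟩ := sqrt_exists T
  have hA0 : 0 ≤ hs A := by rw [hs]; positivity
  obtain ⟨b0, u0, e0⟩ := monomial_step σ (fun _ => 1) (fun _ => norm_one) (T' := T' 0)
    (fun y l => by rw [h0, one_mul]) hA hAA
  obtain ⟨b1, u1, e1⟩ := monomial_step τ (fun _ => 1) (fun _ => norm_one) (T' := T' 1)
    (fun y l => by rw [h1, one_mul]) hA hAA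
  obtain ⟨b2, u2, e2⟩ := monomial_step (Equiv.refl Y) (fun y => ch (π y).1) (fun _ => norm_ch _)
    (T' := T' 2) h2 hA hAA
  obtain ⟨b3, u3, e3⟩ := monomial_step (Equiv.refl Y) (fun y => ch (π y).2) (fun _ => norm_ch _)
    (T' := T' 3) h3 hA hAA
  by_contra hcon
  push Not at hcon
  have f0 := (e0.trans (hcon 0 b0 u0).le)
  have f1 := (e1.trans (hcon 1 b1 u1).le)
  have f2 := (e2.trans (hcon 2 b2 u2).le)
  have f3 := (e3.trans (hcon 3 b3 u3).le)
  rw [← hAT] at f0 f1 f2 f3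
  simp only [map_one, one_mul] at f0 f1
  simp only [Equiv.refl_apply, conj_ch, ← ch_add, ← sub_eq_add_neg] at f2 f3
  have hz := hs_eq_zero_of_almost_inv σ τ π hπ hσ hτ r hD hA
    (hr.trans (mul_le_mul_of_nonneg_right (by exact_mod_cast hι) hA0)) f0 f1 f2 f3
  have g := lt_of_le_of_lt e0 (hcon 0 b0 u0)
  have : (0 : ℝ) ≤ ∑ z : Y × Y, ‖1 * conj 1 * A (σ z.1) (σ z.2) - A z.1 z.2‖ ^ 2 := by positivity
  rw [← hAT] at g
  linarith

end Pool.Agent.P.MP_7f9919_an
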