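import Pool.Agent.P.MP_7f9919_an.Spatial
import Pool.Agent.P.MP_7f9919_an.Card
import Pool.Agent.P.MP_7f9919_an.Compact

/-!
The lower bounds for the number of C*-norms.
-/

set_option autoImplicit false
set_option linter.unusedSectionVars false

namespace Pool.Agent.P.MP_7f9919_an

open Finset Filter Topology Cardinal TopologicalSpace

open scoped InnerProductSpace ComplexConjugate TensorProduct

instance (k : ℕ) : Nonempty (X k) := Fintype.card_pos_iff.1 (card_X_pos k)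

instance : Infinite (Σ k, X k) :=
  Infinite.of_surjective Sigma.fst fun k => ⟨⟨k, Classical.arbitrary _⟩, rfl⟩

theorem orthonormal_ee : Orthonormal ℂ fun i : Σ k, X k => ee i.1 i.2 := by
  refine ⟨fun i => norm_ee _ _, fun ⟨k, v⟩ ⟨j, w⟩ h => ?_⟩
  show ⟪ee k v, ee j w⟫_ℂ = 0
  rw [inner_ee]
  rcases eq_or_ne k j with rfl | hkj
  · have : v ≠ w := fun e => h (by rw [e])
    rw [ee_self]
    simp [this]
  · rw [ee_ne hkj]; rfl

/-- The standard Hilbert basis of the model space. -/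
noncomputable def eeBasis : HilbertBasis (Σ k, X k) ℂ H0 :=
  HilbertBasis.mkOfOrthogonalEqBot orthonormal_ee (by
    rw [eq_bot_iff]
    intro x hx
    refine lp.ext (funext fun k => ?_)
    ext v
    have := Submodule.inner_right_of_mem_orthogonal
      (Submodule.subset_span (Set.mem_range_self (⟨k, v⟩ : Σ k, X k))) hx
    rw [inner_ee] at this
    exact this)

theorem eeBasis_apply (k : ℕ) (v : X k) : eeBasis ⟨k, v⟩ = ee k v := by
  rw [eeBasis, HilbertBasis.coe_mkOfOrthogonalEqBot]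

theorem exists_unitary (H : Type) [NormedAddCommGroup H] [InnerProductSpace ℂ H] [CompleteSpace H]
    [SeparableSpace H] (hH : ¬ FiniteDimensional ℂ H) : Nonempty (H ≃ₗᵢ[ℂ] H0) := by
  obtain ⟨b⟩ := exists_basis H hH (Σ k, X k)
  exact ⟨b.repr.trans eeBasis.repr.symm⟩

theorem exists_odd : ∃ W : Ultrafilter ℕ, (W : Filter ℕ) ≤ atTop ∧ {n | Even n}ᶜ ∈ W :=
  ⟨(Ultrafilter.of atTop).map fun n => 2 * n + 1,
    (tendsto_atTop_mono (fun n => (by omega : n ≤ 2 * n + 1)) tendsto_id).mono_left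
      (Ultrafilter.of_le _),
    Ultrafilter.mem_map.2 (univ_mem' fun n => by simp)⟩

theorem exists_even : ∃ W : Ultrafilter ℕ, (W : Filter ℕ) ≤ atTop ∧ {n | Even n}ᶜ ∉ W :=
  ⟨(Ultrafilter.of atTop).map fun n => 2 * n,
    (tendsto_atTop_mono (fun n => (by omega : n ≤ 2 * n)) tendsto_id).mono_left
      (Ultrafilter.of_le _),
    Ultrafilter.compl_notMem_iff.2 (Ultrafilter.mem_map.2 (univ_mem' fun n => by simp))⟩

theorem ee_ne_zero (k : ℕ) (v : X k) : ee k v ≠ 0 := by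
  rw [← norm_ne_zero_iff, norm_ee]
  exact one_ne_zero

theorem lower_BB : 2 ^ 𝔠 ≤ #{ν : B0 ⊗[ℂ] B0 → ℝ // IsCStarNorm ν} := by
  obtain ⟨W, hW, hW'⟩ := exists_odd
  have hη := ee_ne_zero 0 (Classical.arbitrary _)
  exact pospisil.trans (card_le_norms (StarAlgHom.id ℂ B0) (StarAlgHom.id ℂ B0)
    Function.surjective_id Function.surjective_id (fun U _ => ⟨LL U, fun _ => rfl⟩) hW (LL W)
    (fun _ => rfl) hW' _ (PosFun.isCStarSemi _ (prodState_bdd _ _ _ _))
    (prodState_faithful _ _ _ _ (sep_id hη) (sep_id hη))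
    fun ω hω => spat_tt_lt _ (Set.disjoint_compl_right_iff_subset.2 hω) _)

theorem LL_compact {U : Ultrafilter ℕ} (hU : (U : Filter ℕ) ≤ atTop) {x : B0}
    (hx : IsCompactOperator x) : LL U x = 0 := by
  have key : ∀ y : B0, IsCompactOperator y → cl U y = 0 := by
    intro y hy
    have h1 := tendsto_compact_orthonormal orthonormal_ee hy
    have h2 : Tendsto (fun k => ((Fintype.card (X k) : ℝ))⁻¹ * ∑ v, ‖y (ee k v)‖ ^ 2) atTop
        (𝓝 0) := by
      rw [Metric.tendsto_nhds] at h1 ⊢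
      intro ε hε
      obtain ⟨m, hm⟩ := (Set.Finite.image Sigma.fst (h1 √(ε / 2) (by positivity))).bddAbove
      filter_upwards [eventually_gt_atTop m] with k hk
      have h0 : (0 : ℝ) < Fintype.card (X k) := by exact_mod_cast card_X_pos k
      rw [dist_zero_right, Real.norm_of_nonneg (by positivity)]
      refine lt_of_le_of_lt ?_ (half_lt_self hε)
      rw [inv_mul_le_iff₀ h0, ← nsmul_eq_mul, ← card_univ]
      refine sum_le_card_nsmul _ _ _ fun v _ => ?_
      rw [← Real.sq_sqrt (half_pos hε).le]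
      refine pow_le_pow_left₀ (norm_nonneg _) ?_ 2
      by_contra hcon
      refine absurd (hm ⟨⟨k, v⟩, fun h => hcon ?_, rfl⟩) (not_le.2 hk)
      have h' : dist (y (ee k v)) 0 < √(ε / 2) := h
      rw [dist_zero_right] at h'
      exact h'.le
    have h3 := tendsto_nhds_unique (tendsto_norm_cl U y) (h2.mono_left hU)
    simpa using h3
  refine DFunLike.coe_injective ((denseRange_cl U).equalizer (LL U x).continuous
    (0 : GN U →L[ℂ] GN U).continuous (funext fun a => ?_))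
  show LL U x (cl U a) = 0
  rw [LL_cl]
  exact key _ (hx.comp_clm a)

theorem exists_tau_ne_zero (U : Ultrafilter ℕ) {x : B0} (hx : ¬ IsCompactOperator x) :
    ∃ d : B0, cl U (x * d) ≠ 0 := by
  classical
  obtain ⟨ε, hε, f, hf, hle⟩ := exists_orthonormal_of_not_compact hx
  obtain ⟨enc, henc⟩ := exists_injective_nat (Σ k, X k)
  let d : B0 := isoOf (hf.comp enc henc) ∘L eeBasis.repr.toContinuousLinearEquiv.toContinuousLinearMap
  have hd : ∀ k v, d (ee k v) = f (enc ⟨k, v⟩) := by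
    intro k v
    show isoOf (hf.comp enc henc) (eeBasis.repr (ee k v)) = _
    rw [← eeBasis_apply, HilbertBasis.repr_self, isoOf_single]
    rfl
  refine ⟨d, fun h0 => ?_⟩
  have h1 := ge_of_tendsto' (tendsto_norm_cl U (x * d)) (b := ε ^ 2) fun k => by
    have h0 : (0 : ℝ) < Fintype.card (X k) := by exact_mod_cast card_X_pos k
    rw [le_inv_mul_iff₀ h0, ← nsmul_eq_mul, ← card_univ]
    refine card_nsmul_le_sum _ _ _ fun v _ => pow_le_pow_left₀ hε.le ?_ 2
    show ε ≤ ‖x (d (ee k v))‖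
    rw [hd]
    exact hle _
  rw [h0, norm_zero] at h1
  nlinarith

variable {A' : Type} [Ring A'] [StarRing A'] [Algebra ℂ A'] [StarModule ℂ A']

theorem exists_factor_gen {A C : Type} [Ring A] [StarRing A] [Algebra ℂ A] [Ring C] [StarRing C]
    [Algebra ℂ C] (q : A →⋆ₐ[ℂ] A') (hq : Function.Surjective q) (L : A →⋆ₐ[ℂ] C)
    (hk : ∀ x, q x = 0 → L x = 0) : ∃ L' : A' →⋆ₐ[ℂ] C, ∀ x, L' (q x) = L x := by
  have key : ∀ x, L (Function.surjInv hq (q x)) = L x := by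
    intro x
    rw [← sub_eq_zero, ← map_sub]
    refine hk _ ?_
    rw [map_sub, Function.surjInv_eq hq, sub_self]
  refine ⟨⟨⟨⟨⟨⟨fun y => L (Function.surjInv hq y), ?_⟩, fun y y' => ?_⟩, ?_, fun y y' => ?_⟩,
    fun c => ?_⟩, fun y => ?_⟩, key⟩
  · rw [← map_one q, key, map_one]
  · obtain ⟨x, rfl⟩ := hq y
    obtain ⟨x', rfl⟩ := hq y'
    simp only [← map_mul q, key, map_mul L]
  · simp only [← map_zero q, key, map_zero L]
  · obtain ⟨x, rfl⟩ := hq y
    obtain ⟨x', rfl⟩ := hq y'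
    simp only [← map_add q, key, map_add L]
  · show L (Function.surjInv hq (algebraMap ℂ A' c)) = _
    rw [← AlgHomClass.commutes q, key, AlgHomClass.commutes]
  · obtain ⟨x, rfl⟩ := hq y
    show L (Function.surjInv hq (star (q x))) = star (L (Function.surjInv hq (q x)))
    rw [← map_star q, key, key, map_star]

theorem exists_factor (q : B0 →⋆ₐ[ℂ] A') (hq : Function.Surjective q)
    (hk : ∀ x, q x = 0 → IsCompactOperator x) {U : Ultrafilter ℕ} (hU : (U : Filter ℕ) ≤ atTop) :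
    ∃ L' : A' →⋆ₐ[ℂ] (GN U →L[ℂ] GN U), ∀ x, L' (q x) = LL U x :=
  exists_factor_gen q hq (LL U) fun x hx => LL_compact hU (hk x hx)

theorem sep_calkin (q : B0 →⋆ₐ[ℂ] A') (hq : Function.Surjective q)
    (hk : ∀ x : B0, IsCompactOperator x → q x = 0) {V : Ultrafilter ℕ}
    (L₀ : A' →⋆ₐ[ℂ] (GN V →L[ℂ] GN V)) (hL₀ : ∀ x, L₀ (q x) = LL V x) (y : A')
    (hy : ∀ c d, ⟪cl V 1, L₀ (c * y * d) (cl V 1)⟫_ℂ = 0) : y = 0 := by
  obtain ⟨x, rfl⟩ := hq y
  refine hk x ?_
  by_contra hx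
  obtain ⟨d, hd⟩ := exists_tau_ne_zero V hx
  have := hy (q (star (x * d))) (q d)
  rw [← map_mul, ← map_mul, hL₀, mul_assoc, map_mul] at this
  refine hd (inner_self_eq_zero (𝕜 := ℂ).1 ?_)
  rw [← mul_one (x * d), ← LL_cl, inner_rep]
  exact this

theorem lower_AQ {A : Type} [Ring A] [StarRing A] [Algebra ℂ A] [StarModule ℂ A]
    (p : B0 →⋆ₐ[ℂ] A) (hp : Function.Surjective p) (hkp : ∀ x, p x = 0 → IsCompactOperator x)
    {E : Type} [NormedAddCommGroup E] [InnerProductSpace ℂ E] [CompleteSpace E]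
    (L : A →⋆ₐ[ℂ] (E →L[ℂ] E)) (η : E) (hsep : ∀ a, (∀ c d, ⟪η, L (c * a * d) η⟫_ℂ = 0) → a = 0)
    (q : B0 →⋆ₐ[ℂ] A') (hq : Function.Surjective q)
    (hk : ∀ x, q x = 0 ↔ IsCompactOperator x) :
    2 ^ 𝔠 ≤ #{ν : A ⊗[ℂ] A' → ℝ // IsCStarNorm ν} := by
  obtain ⟨W, hW, hW'⟩ := exists_odd
  obtain ⟨V, hV, hV'⟩ := exists_even
  obtain ⟨L', hL'⟩ := exists_factor q hq (fun x => (hk x).1) hW
  obtain ⟨L₀, hL₀⟩ := exists_factor q hq (fun x => (hk x).1) hV
  refine pospisil.trans (card_le_norms p q hp hq (fun U hU => exists_factor p hp hkp hU) hW L' hL'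
    hW' _ (PosFun.isCStarSemi _ (prodState_bdd L η L₀ (cl V 1)))
    (prodState_faithful _ _ _ _ hsep (sep_calkin q hq (fun x => (hk x).2) L₀ hL₀))
    fun ω _ => nu_tt_lt_right p q hV ω hV' _ _ fun z => ?_)
  obtain ⟨n, α, hα⟩ := marg_right L _ L₀ _ (fun _ _ => commute_scalar _ _) 1 z
  exact ⟨n, α, fun c => (hα (q c)).trans (by rw [hL₀])⟩

theorem lower_BQ (q : B0 →⋆ₐ[ℂ] A') (hq : Function.Surjective q)
    (hk : ∀ x, q x = 0 ↔ IsCompactOperator x) :
    2 ^ 𝔠 ≤ #{ν : B0 ⊗[ℂ] A' → ℝ // IsCStarNorm ν} :=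
  lower_AQ (StarAlgHom.id ℂ B0) Function.surjective_id
    (fun x (hx : x = 0) => by rw [hx]; exact isCompactOperator_zero) (StarAlgHom.id ℂ B0) _
    (sep_id (ee_ne_zero 0 (Classical.arbitrary _))) q hq hk

theorem lower_QQ {A : Type} [Ring A] [StarRing A] [Algebra ℂ A] [StarModule ℂ A]
    (p : B0 →⋆ₐ[ℂ] A) (hp : Function.Surjective p) (hkp : ∀ x, p x = 0 ↔ IsCompactOperator x)
    (q : B0 →⋆ₐ[ℂ] A') (hq : Function.Surjective q)
    (hk : ∀ x, q x = 0 ↔ IsCompactOperator x) :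
    2 ^ 𝔠 ≤ #{ν : A ⊗[ℂ] A' → ℝ // IsCStarNorm ν} := by
  obtain ⟨W, hW, -⟩ := exists_odd
  obtain ⟨L, hL⟩ := exists_factor p hp (fun x => (hkp x).1) hW
  exact lower_AQ p hp (fun x => (hkp x).1) L _ (sep_calkin p hp (fun x => (hkp x).2) L hL) q hq hk

end Pool.Agent.P.MP_7f9919_an
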