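import Pool.Agent.P.MP_7f9919_an.Semi

/-!
Positive functionals on an algebraic tensor product coming from two compressions of
representations with commuting ranges, and the description of their marginals.
-/

set_option autoImplicit false
set_option linter.unusedSectionVars false

namespace Pool.Agent.P.MP_7f9919_an

open scoped InnerProductSpace ComplexConjugate TensorProduct
open ContinuousLinearMap

variable {A A' : Type} [Ring A] [StarRing A] [Algebra ℂ A] [StarModule ℂ A]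
  [Ring A'] [StarRing A'] [Algebra ℂ A'] [StarModule ℂ A']
  {K E E' : Type} [NormedAddCommGroup K] [InnerProductSpace ℂ K] [CompleteSpace K]
  [NormedAddCommGroup E] [InnerProductSpace ℂ E] [CompleteSpace E]
  [NormedAddCommGroup E'] [InnerProductSpace ℂ E'] [CompleteSpace E']

/-- The compression `x ↦ V* L(x) V`. -/
noncomputable def compress (L : A →⋆ₐ[ℂ] (E →L[ℂ] E)) (V : K →L[ℂ] E) : A →ₗ[ℂ] (K →L[ℂ] K) where
  toFun x := adjoint V ∘L L x ∘L V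
  map_add' x y := by rw [map_add, add_comp, comp_add]
  map_smul' c x := by rw [map_smul, smul_comp, comp_smul]; rfl

theorem inner_compress (L : A →⋆ₐ[ℂ] (E →L[ℂ] E)) (V : K →L[ℂ] E) (x : A) (u v : K) :
    ⟪u, compress L V x v⟫_ℂ = ⟪V u, L x (V v)⟫_ℂ :=
  adjoint_inner_right V u _

theorem inner_rep (L : A →⋆ₐ[ℂ] (E →L[ℂ] E)) (x : A) (u v : E) :
    ⟪L x u, v⟫_ℂ = ⟪u, L (star x) v⟫_ℂ := by
  rw [map_star, star_eq_adjoint, adjoint_inner_right]

theorem inner_compress_mul (L : A →⋆ₐ[ℂ] (E →L[ℂ] E)) (V : K →L[ℂ] E) (x c y : A) (u v : K) :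
    ⟪u, compress L V (star x * c * y) v⟫_ℂ = ⟪L x (V u), L c (L y (V v))⟫_ℂ := by
  rw [inner_compress, inner_rep, map_mul, map_mul]; rfl

theorem inner_compress_left (L : A →⋆ₐ[ℂ] (E →L[ℂ] E)) (V : K →L[ℂ] E) (x : A) (u v : K) :
    ⟪compress L V x u, v⟫_ℂ = ⟪u, compress L V (star x) v⟫_ℂ := by
  rw [← inner_conj_symm, inner_compress, inner_compress, inner_conj_symm, inner_rep]

/-- The diagonal amplification of an operator. -/
noncomputable def ampl {ι : Type} [Fintype ι] (a : K →L[ℂ] K) :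
    PiLp 2 (fun _ : ι => K) →L[ℂ] PiLp 2 (fun _ : ι => K) :=
  (PiLp.continuousLinearEquiv 2 ℂ (fun _ : ι => K)).symm.toContinuousLinearMap ∘L
    ContinuousLinearMap.pi fun k => a ∘L PiLp.proj 2 (fun _ : ι => K) k

theorem ampl_apply {ι : Type} [Fintype ι] (a : K →L[ℂ] K) (v : PiLp 2 (fun _ : ι => K)) (k : ι) :
    ampl a v k = a (v k) := rfl

theorem marg {ι : Type} [Fintype ι] (L : A →⋆ₐ[ℂ] (E →L[ℂ] E)) (V : K →L[ℂ] E)
    (L' : A' →⋆ₐ[ℂ] (E' →L[ℂ] E')) (V' : K →L[ℂ] E')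
    (hc : ∀ a a', Commute (compress L V a) (compress L' V' a')) (Ω : K) (x : ι → A) (y : ι → A') :
    ∃ α : ι → E, ∀ c : A,
      ∑ i, ∑ j, ⟪Ω, compress L V (star (x i) * c * x j)
        (compress L' V' (star (y i) * y j) Ω)⟫_ℂ = ∑ k, ⟪α k, L c (α k)⟫_ℂ := by
  classical
  let P := PiLp 2 (fun _ : ι => K)
  let T : P →L[ℂ] E' := ∑ j, (L' (y j) ∘L V') ∘L PiLp.proj 2 (fun _ : ι => K) j
  have hT : ∀ v : P, T v = ∑ j, L' (y j) (V' (v j)) := by
    intro v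
    simp only [T, _root_.sum_apply]
    rfl
  let η : P →L[ℂ] P := adjoint T ∘L T
  have hsingle : ∀ (i : ι) (u : K) (v : P), ⟪(PiLp.single 2 i u : P), v⟫_ℂ = ⟪u, v i⟫_ℂ := by
    intro i u v
    rw [PiLp.inner_apply, Finset.sum_eq_single i]
    · rw [PiLp.single_eq_same]
    · intro j _ hj; rw [PiLp.single_eq_of_ne 2 hj, inner_zero_left]
    · simp
  have hTs : ∀ (i : ι) (u : K), T (PiLp.single 2 i u) = L' (y i) (V' u) := by
    intro i u
    rw [hT, Finset.sum_eq_single i]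
    · rw [PiLp.single_eq_same]
    · intro j _ hj; rw [PiLp.single_eq_of_ne 2 hj, map_zero, map_zero]
    · simp
  have hη : ∀ (v : P) (i : ι), η v i = ∑ j, compress L' V' (star (y i) * y j) (v j) := by
    intro v i
    refine ext_inner_left ℂ fun u => ?_
    rw [← hsingle, inner_sum]
    show ⟪_, adjoint T (T v)⟫_ℂ = _
    rw [adjoint_inner_right, hTs, hT, inner_sum]
    refine Finset.sum_congr rfl fun j _ => ?_
    rw [inner_compress, inner_rep, map_mul]; rfl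
  have hη0 : 0 ≤ η := (nonneg_iff_isPositive _).2 (isPositive_adjoint_comp_self T)
  let s : P →L[ℂ] P := CFC.sqrt η
  have hss : s * s = η := CFC.sqrt_mul_sqrt_self η hη0
  have hsa : ∀ u v : P, ⟪s u, v⟫_ℂ = ⟪u, s v⟫_ℂ :=
    ((nonneg_iff_isPositive _).1 (CFC.sqrt_nonneg η)).inner_left_eq_inner_right
  have hcomm : ∀ a : A, Commute s (ampl (compress L V a)) := by
    intro a
    have h1 : Commute η (ampl (compress L V a)) := by
      ext v i
      show η (ampl (compress L V a) v) i = compress L V a (η v i)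
      rw [hη, hη, map_sum]
      refine Finset.sum_congr rfl fun j _ => ?_
      exact (congrArg (fun f : K →L[ℂ] K => f (v j)) (hc a (star (y i) * y j))).symm
    exact h1.cfcₙ_nnreal _
  let ζ : ι → P := fun j => s (PiLp.single 2 j Ω)
  refine ⟨fun k => ∑ j, L (x j) (V (ζ j k)), fun c => ?_⟩
  have h1 : ∀ i j, ⟪Ω, compress L V (star (x i) * c * x j)
      (compress L' V' (star (y i) * y j) Ω)⟫_ℂ =
      ∑ k, ⟪L (x i) (V (ζ i k)), L c (L (x j) (V (ζ j k)))⟫_ℂ := by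
    intro i j
    have e1 : compress L' V' (star (y i) * y j) Ω = η (PiLp.single 2 j Ω) i := by
      rw [hη, Finset.sum_eq_single j]
      · rw [PiLp.single_eq_same]
      · intro l _ hl; rw [PiLp.single_eq_of_ne 2 hl, map_zero]
      · simp
    rw [e1, ← ampl_apply, ← hsingle, ← hss]
    have e2 : ampl (compress L V (star (x i) * c * x j)) ((s * s) (PiLp.single 2 j Ω)) =
        s (ampl (compress L V (star (x i) * c * x j)) (ζ j)) :=
      (congrArg (fun f : P →L[ℂ] P => f (ζ j)) (hcomm (star (x i) * c * x j))).symm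
    rw [e2, ← hsa, PiLp.inner_apply]
    refine Finset.sum_congr rfl fun k _ => ?_
    rw [ampl_apply, inner_compress_mul]
  simp only [h1, sum_inner, map_sum, inner_sum]
  rw [Finset.sum_comm]
  refine (Finset.sum_congr rfl fun j _ => Finset.sum_comm).trans ?_
  rw [Finset.sum_comm]

/-- The functional `x ⊗ y ↦ ⟪Ω, Φ(x) Ψ(y) Ω⟫`. -/
noncomputable def pairFun (Φ : A →ₗ[ℂ] (K →L[ℂ] K)) (Ψ : A' →ₗ[ℂ] (K →L[ℂ] K)) (Ω : K) :
    A ⊗[ℂ] A' →ₗ[ℂ] ℂ :=
  TensorProduct.lift (LinearMap.mk₂ ℂ (fun x y => ⟪Ω, Φ x (Ψ y Ω)⟫_ℂ)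
    (fun _ _ _ => by simp) (fun _ _ _ => by simp)
    (fun _ _ _ => by simp) (fun _ _ _ => by simp))

theorem pairFun_tmul (Φ : A →ₗ[ℂ] (K →L[ℂ] K)) (Ψ : A' →ₗ[ℂ] (K →L[ℂ] K)) (Ω : K)
    (x : A) (y : A') : pairFun Φ Ψ Ω (x ⊗ₜ y) = ⟪Ω, Φ x (Ψ y Ω)⟫_ℂ := rfl

theorem exists_fin_sum (z : A ⊗[ℂ] A') :
    ∃ (n : ℕ) (x : Fin n → A) (y : Fin n → A'), z = ∑ i, x i ⊗ₜ y i := by
  obtain ⟨n, x, y, h⟩ := TensorProduct.exists_sum_tmul_eq z
  exact ⟨n, x, y, h⟩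

theorem marg_left (L : A →⋆ₐ[ℂ] (E →L[ℂ] E)) (V : K →L[ℂ] E)
    (L' : A' →⋆ₐ[ℂ] (E' →L[ℂ] E')) (V' : K →L[ℂ] E')
    (hc : ∀ a a', Commute (compress L V a) (compress L' V' a')) (Ω : K) (z : A ⊗[ℂ] A') :
    ∃ (n : ℕ) (α : Fin n → E), ∀ c : A,
      pairFun (compress L V) (compress L' V') Ω (star z * ((c ⊗ₜ 1) * z)) =
        ∑ k, ⟪α k, L c (α k)⟫_ℂ := by
  obtain ⟨n, x, y, rfl⟩ := exists_fin_sum z
  obtain ⟨α, hα⟩ := marg L V L' V' hc Ω x y
  refine ⟨n, α, fun c => ?_⟩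
  rw [← hα c, star_sum, Finset.mul_sum, Finset.sum_mul_sum, map_sum]
  refine Finset.sum_congr rfl fun i _ => ?_
  rw [map_sum]
  refine Finset.sum_congr rfl fun j _ => ?_
  rw [TensorProduct.star_tmul, Algebra.TensorProduct.tmul_mul_tmul,
    Algebra.TensorProduct.tmul_mul_tmul, pairFun_tmul, one_mul, mul_assoc]

theorem marg_right (L : A →⋆ₐ[ℂ] (E →L[ℂ] E)) (V : K →L[ℂ] E)
    (L' : A' →⋆ₐ[ℂ] (E' →L[ℂ] E')) (V' : K →L[ℂ] E')
    (hc : ∀ a a', Commute (compress L V a) (compress L' V' a')) (Ω : K) (z : A ⊗[ℂ] A') :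
    ∃ (n : ℕ) (α : Fin n → E'), ∀ c : A',
      pairFun (compress L V) (compress L' V') Ω (star z * ((1 ⊗ₜ c) * z)) =
        ∑ k, ⟪α k, L' c (α k)⟫_ℂ := by
  obtain ⟨n, x, y, rfl⟩ := exists_fin_sum z
  obtain ⟨α, hα⟩ := marg L' V' L V (fun a' a => (hc a a').symm) Ω y x
  refine ⟨n, α, fun c => ?_⟩
  rw [← hα c, star_sum, Finset.mul_sum, Finset.sum_mul_sum, map_sum]
  refine Finset.sum_congr rfl fun i _ => ?_
  rw [map_sum]
  refine Finset.sum_congr rfl fun j _ => ?_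
  rw [TensorProduct.star_tmul, Algebra.TensorProduct.tmul_mul_tmul,
    Algebra.TensorProduct.tmul_mul_tmul, pairFun_tmul, one_mul, mul_assoc]
  exact congrArg (fun f : K →L[ℂ] K => ⟪Ω, f Ω⟫_ℂ)
    (hc (star (x i) * x j) (star (y i) * (c * y j))).eq

theorem sum_inner_star_mul_re (L : A →⋆ₐ[ℂ] (E →L[ℂ] E)) {n : ℕ} (α : Fin n → E) (x : A) :
    (∑ k, ⟪α k, L (star x * x) (α k)⟫_ℂ).re = ∑ k, ‖L x (α k)‖ ^ 2 := by
  rw [Complex.re_sum]
  refine Finset.sum_congr rfl fun k _ => ?_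
  rw [map_mul]
  show (⟪α k, L (star x) (L x (α k))⟫_ℂ).re = _
  rw [← inner_rep]
  exact inner_self_eq_norm_sq (𝕜 := ℂ) _

theorem sum_inner_one_re (L : A →⋆ₐ[ℂ] (E →L[ℂ] E)) {n : ℕ} (α : Fin n → E) :
    (∑ k, ⟪α k, L 1 (α k)⟫_ℂ).re = ∑ k, ‖α k‖ ^ 2 := by
  rw [Complex.re_sum]
  refine Finset.sum_congr rfl fun k _ => ?_
  rw [map_one]
  exact inner_self_eq_norm_sq (𝕜 := ℂ) _

/-- The positive functional on the tensor product. -/
noncomputable def pairPos (L : A →⋆ₐ[ℂ] (E →L[ℂ] E)) (V : K →L[ℂ] E)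
    (L' : A' →⋆ₐ[ℂ] (E' →L[ℂ] E')) (V' : K →L[ℂ] E')
    (hc : ∀ a a', Commute (compress L V a) (compress L' V' a')) (Ω : K) :
    PosFun (A ⊗[ℂ] A') where
  f := pairFun (compress L V) (compress L' V') Ω
  herm z := by
    induction z with
    | zero => simp
    | add a b ha hb => rw [star_add, map_add, map_add, map_add, ha, hb]
    | tmul x y =>
      rw [TensorProduct.star_tmul, pairFun_tmul, pairFun_tmul, inner_conj_symm,
        ← inner_compress_left, ← inner_compress_left]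
      exact congrArg (fun f : K →L[ℂ] K => ⟪f Ω, Ω⟫_ℂ) (hc x y).symm
  pos z := by
    obtain ⟨n, α, hα⟩ := marg_left L V L' V' hc Ω z
    have := hα 1
    rw [← Algebra.TensorProduct.one_def, one_mul] at this
    rw [this, sum_inner_one_re]
    positivity

theorem pairPos_bdd (L : A →⋆ₐ[ℂ] (E →L[ℂ] E)) (V : K →L[ℂ] E)
    (L' : A' →⋆ₐ[ℂ] (E' →L[ℂ] E')) (V' : K →L[ℂ] E')
    (hc : ∀ a a', Commute (compress L V a) (compress L' V' a')) (Ω : K) :
    (pairPos L V L' V' hc Ω).Bdd := by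
  set φ := pairPos L V L' V' hc Ω with hφ
  have hl : ∀ (x : A) (z : A ⊗[ℂ] A'), ‖φ.mk' ((x ⊗ₜ 1) * z)‖ ≤ ‖L x‖ * ‖φ.mk' z‖ := by
    intro x z
    obtain ⟨n, α, hα⟩ := marg_left L V L' V' hc Ω z
    have h1 := hα 1
    have h2 := hα (star x * x)
    rw [← Algebra.TensorProduct.one_def, one_mul] at h1
    refine le_of_sq_le_sq ?_ (by positivity)
    have e : star ((x ⊗ₜ[ℂ] (1 : A')) * z) * ((x ⊗ₜ 1) * z) =
        star z * (((star x * x) ⊗ₜ 1) * z) := by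
      rw [star_mul, TensorProduct.star_tmul, star_one, mul_assoc, ← mul_assoc (star x ⊗ₜ 1),
        Algebra.TensorProduct.tmul_mul_tmul, one_mul]
    rw [mul_pow, φ.norm_mk_sq, φ.norm_mk_sq, e]
    show (pairFun _ _ Ω _).re ≤ _ * (pairFun _ _ Ω _).re
    rw [h1, h2, sum_inner_one_re, sum_inner_star_mul_re, Finset.mul_sum]
    refine Finset.sum_le_sum fun k _ => ?_
    rw [← mul_pow]
    exact pow_le_pow_left₀ (norm_nonneg _) (le_opNorm _ _) 2
  have hr : ∀ (y : A') (z : A ⊗[ℂ] A'), ‖φ.mk' ((1 ⊗ₜ y) * z)‖ ≤ ‖L' y‖ * ‖φ.mk' z‖ := by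
    intro x z
    obtain ⟨n, α, hα⟩ := marg_right L V L' V' hc Ω z
    have h1 := hα 1
    have h2 := hα (star x * x)
    rw [← Algebra.TensorProduct.one_def, one_mul] at h1
    refine le_of_sq_le_sq ?_ (by positivity)
    have e : star (((1 : A) ⊗ₜ[ℂ] x) * z) * ((1 ⊗ₜ x) * z) =
        star z * ((1 ⊗ₜ (star x * x)) * z) := by
      rw [star_mul, TensorProduct.star_tmul, star_one, mul_assoc, ← mul_assoc (1 ⊗ₜ star x),
        Algebra.TensorProduct.tmul_mul_tmul, one_mul]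
    rw [mul_pow, φ.norm_mk_sq, φ.norm_mk_sq, e]
    show (pairFun _ _ Ω _).re ≤ _ * (pairFun _ _ Ω _).re
    rw [h1, h2, sum_inner_one_re, sum_inner_star_mul_re, Finset.mul_sum]
    refine Finset.sum_le_sum fun k _ => ?_
    rw [← mul_pow]
    exact pow_le_pow_left₀ (norm_nonneg _) (le_opNorm _ _) 2
  intro w
  induction w with
  | zero => exact ⟨0, fun z => by simp⟩
  | add a b ha hb =>
    obtain ⟨C, hC⟩ := ha
    obtain ⟨D, hD⟩ := hb
    refine ⟨C + D, fun z => ?_⟩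
    rw [add_mul, map_add, add_mul]
    exact (norm_add_le _ _).trans (add_le_add (hC z) (hD z))
  | tmul x y =>
    refine ⟨‖L x‖ * ‖L' y‖, fun z => ?_⟩
    have e : (x ⊗ₜ[ℂ] y) * z = (x ⊗ₜ 1) * ((1 ⊗ₜ y) * z) := by
      rw [← mul_assoc, Algebra.TensorProduct.tmul_mul_tmul, one_mul, mul_one]
    rw [e, mul_assoc]
    exact (hl x _).trans (mul_le_mul_of_nonneg_left (hr y z) (norm_nonneg _))

/-- From a non-invariant marginal to a spectral gap. -/
theorem gap_of_marg {B : Type} [Ring B] [StarRing B] [Algebra ℂ B] [StarModule ℂ B]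
    (φ : PosFun B) (w b ξ : B) (hw : star w * w = 1)
    (hb : ∀ z : B, ‖φ.mk' (b * z)‖ ≤ ‖φ.mk' z‖) {δ : ℝ}
    (h : δ * ‖φ.mk' ξ‖ ^ 2 ≤ (φ.f (star ξ * ((star w * b * w - b) * ξ))).re) :
    δ / 2 * ‖φ.mk' ξ‖ ≤ ‖φ.mk' (w * ξ) - φ.mk' ξ‖ := by
  have e : φ.f (star ξ * ((star w * b * w - b) * ξ)) =
      ⟪φ.mk' (w * ξ) - φ.mk' ξ, φ.mk' (b * (w * ξ))⟫_ℂ +
        ⟪φ.mk' ξ, φ.mk' (b * (w * ξ - ξ))⟫_ℂ := by
    rw [← map_sub, φ.inner_mk, φ.inner_mk, ← map_add]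
    congr 1
    rw [star_sub, star_mul]
    noncomm_ring
  rw [e] at h
  have h1 := norm_inner_le_norm (𝕜 := ℂ) (φ.mk' (w * ξ) - φ.mk' ξ) (φ.mk' (b * (w * ξ)))
  have h2 := norm_inner_le_norm (𝕜 := ℂ) (φ.mk' ξ) (φ.mk' (b * (w * ξ - ξ)))
  have h3 := hb (w * ξ)
  have h4 := hb (w * ξ - ξ)
  rw [φ.norm_unitary_mul hw] at h3
  rw [map_sub φ.mk' (w * ξ) ξ] at h4
  have h5 := h.trans ((Complex.re_le_norm _).trans (norm_add_le _ _))
  set d := ‖φ.mk' (w * ξ) - φ.mk' ξ‖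
  set n := ‖φ.mk' ξ‖
  have hd : 0 ≤ d := norm_nonneg _
  have hn : 0 ≤ n := norm_nonneg _
  have h6 : δ * n ^ 2 ≤ 2 * d * n := by
    nlinarith [mul_le_mul_of_nonneg_left h3 hd, mul_le_mul_of_nonneg_left h4 hn]
  rcases hn.eq_or_lt with h0 | h0
  · rw [← h0, mul_zero]; exact hd
  · have : δ / 2 * n * n ≤ d * n := by nlinarith
    exact le_of_mul_le_mul_right this h0

end Pool.Agent.P.MP_7f9919_an
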