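import Pool.Agent.P.MP_7f9919_an.Alt

/-!
The finite models: the affine group of the integer plane acting monomially on punctured planes
over prime fields of rapidly growing order.
-/

set_option autoImplicit false
set_option linter.unusedSectionVars false

namespace Pool.Agent.P.MP_7f9919_an

open Finset Filter Topology

open scoped InnerProductSpace ComplexConjugate

/-- A prime which is large with respect to `j` and `s`. -/
noncomputable def nextP (j s : ℕ) : ℕ :=
  (Nat.exists_infinite_primes (15 ^ (48 * ((j + 1) * s)) + j + 2)).choose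

/-- The sum of the squares of the first primes of the sequence. -/
noncomputable def cum : ℕ → ℕ
  | 0 => 0
  | j + 1 => cum j + nextP j (cum j) ^ 2

/-- A rapidly growing sequence of primes. -/
noncomputable def pr (j : ℕ) : ℕ := nextP j (cum j)

theorem pr_prime (j : ℕ) : (pr j).Prime := (Nat.exists_infinite_primes _).choose_spec.2

theorem le_pr (j : ℕ) : 15 ^ (48 * ((j + 1) * cum j)) + j + 2 ≤ pr j :=
  (Nat.exists_infinite_primes _).choose_spec.1

theorem le_pr' (j : ℕ) : j + 2 ≤ pr j :=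
  le_trans (by rw [add_assoc]; exact Nat.le_add_left _ _) (le_pr j)

instance (j : ℕ) : Fact (pr j).Prime := ⟨pr_prime j⟩

theorem cum_eq (j : ℕ) : cum j = ∑ k ∈ range j, pr k ^ 2 := by
  induction j with
  | zero => rfl
  | succ j ih => rw [sum_range_succ, ← ih]; rfl

theorem cum_lt_pr (j : ℕ) : (j + 1) * cum j < pr j := by
  have h1 := le_pr j
  have h2 : 48 * ((j + 1) * cum j) < 15 ^ (48 * ((j + 1) * cum j)) :=
    Nat.lt_pow_self (by norm_num)
  omega

theorem pr_lt {j k : ℕ} (h : j < k) : pr j < pr k := by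
  have h1 := cum_lt_pr k
  have h2 : pr j ^ 2 ≤ cum k := by
    rw [cum_eq]
    exact single_le_sum (f := fun k => pr k ^ 2) (fun _ _ => Nat.zero_le _) (mem_range.2 h)
  have h3 : pr j ≤ pr j ^ 2 := Nat.le_self_pow two_ne_zero _
  nlinarith

theorem pr_cast_ne_zero {j k : ℕ} (h : j ≠ k) : ((pr j : ℕ) : ZMod (pr k)) ≠ 0 := by
  rw [Ne, ZMod.natCast_eq_zero_iff, Nat.prime_dvd_prime_iff_eq (pr_prime k) (pr_prime j)]
  rcases h.lt_or_gt with h | h
  · exact (pr_lt h).ne'
  · exact (pr_lt h).ne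

theorem eventually_cast_ne_zero {n : ℤ} (hn : n ≠ 0) : ∀ᶠ j in atTop, (n : ZMod (pr j)) ≠ 0 := by
  filter_upwards [eventually_ge_atTop n.natAbs] with j hj
  rw [Ne, ZMod.intCast_zmod_eq_zero_iff_dvd]
  intro hd
  have h1 := Int.natAbs_le_of_dvd_ne_zero hd hn
  have h2 := le_pr' j
  rw [Int.natAbs_natCast] at h1
  omega

/-- The punctured plane. -/
def X (j : ℕ) : Type := {v : ZMod (pr j) × ZMod (pr j) // v ≠ 0}

noncomputable instance (j : ℕ) : Fintype (X j) :=
  inferInstanceAs (Fintype {v : ZMod (pr j) × ZMod (pr j) // v ≠ 0})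

noncomputable instance (j : ℕ) : DecidableEq (X j) := Classical.decEq _

theorem card_X (j : ℕ) : Fintype.card (X j) + 1 = pr j ^ 2 := by
  have h1 : Fintype.card (X j) = Fintype.card (ZMod (pr j) × ZMod (pr j)) - 1 :=
    Fintype.card_subtype_compl (fun v : ZMod (pr j) × ZMod (pr j) => v = 0) |>.trans
      (by rw [Fintype.card_subtype_eq])
  rw [h1, Fintype.card_prod, ZMod.card, sq, Nat.sub_add_cancel]
  exact Nat.mul_pos (pr_prime j).pos (pr_prime j).pos

theorem card_X_ge (j : ℕ) : (j + 1) * pr j ≤ Fintype.card (X j) := by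
  have h1 := card_X j
  have h3 := le_pr' j
  nlinarith

theorem card_X_pos (j : ℕ) : 0 < Fintype.card (X j) :=
  lt_of_lt_of_le (Nat.mul_pos (Nat.succ_pos j) (pr_prime j).pos) (card_X_ge j)

theorem sum_card_le (j : ℕ) : ∑ k ∈ range j, Fintype.card (X k) ≤ cum j := by
  rw [cum_eq]
  exact sum_le_sum fun k _ => by rw [← card_X]; omega

/-- The group of affine maps of the integer plane with determinant one. -/
@[ext] structure Aff : Type where
  /-- matrix entry -/
  a : ℤ
  /-- matrix entry -/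
  b : ℤ
  /-- matrix entry -/
  c : ℤ
  /-- matrix entry -/
  d : ℤ
  /-- translation part -/
  e : ℤ
  /-- translation part -/
  f : ℤ
  det : a * d - b * c = 1

namespace Aff

instance : Mul Aff := ⟨fun g h => ⟨g.a * h.a + g.b * h.c, g.a * h.b + g.b * h.d,
  g.c * h.a + g.d * h.c, g.c * h.b + g.d * h.d, g.e + g.a * h.e + g.b * h.f,
  g.f + g.c * h.e + g.d * h.f, by linear_combination (h.a * h.d - h.b * h.c) * g.det + h.det⟩⟩

instance : One Aff := ⟨⟨1, 0, 0, 1, 0, 0, by norm_num⟩⟩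

instance : Inv Aff := ⟨fun g => ⟨g.d, -g.b, -g.c, g.a, g.b * g.f - g.d * g.e,
  g.c * g.e - g.a * g.f, by linear_combination g.det⟩⟩

theorem mul_a (g h : Aff) : (g * h).a = g.a * h.a + g.b * h.c := rfl
theorem mul_b (g h : Aff) : (g * h).b = g.a * h.b + g.b * h.d := rfl
theorem mul_c (g h : Aff) : (g * h).c = g.c * h.a + g.d * h.c := rfl
theorem mul_d (g h : Aff) : (g * h).d = g.c * h.b + g.d * h.d := rfl
theorem mul_e (g h : Aff) : (g * h).e = g.e + g.a * h.e + g.b * h.f := rfl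
theorem mul_f (g h : Aff) : (g * h).f = g.f + g.c * h.e + g.d * h.f := rfl
theorem one_a : (1 : Aff).a = 1 := rfl
theorem one_b : (1 : Aff).b = 0 := rfl
theorem one_c : (1 : Aff).c = 0 := rfl
theorem one_d : (1 : Aff).d = 1 := rfl
theorem one_e : (1 : Aff).e = 0 := rfl
theorem one_f : (1 : Aff).f = 0 := rfl
theorem inv_a (g : Aff) : g⁻¹.a = g.d := rfl
theorem inv_b (g : Aff) : g⁻¹.b = -g.b := rfl
theorem inv_c (g : Aff) : g⁻¹.c = -g.c := rfl
theorem inv_d (g : Aff) : g⁻¹.d = g.a := rfl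
theorem inv_e (g : Aff) : g⁻¹.e = g.b * g.f - g.d * g.e := rfl
theorem inv_f (g : Aff) : g⁻¹.f = g.c * g.e - g.a * g.f := rfl

instance : Group Aff := Group.ofLeftAxioms
  (fun g h k => by
    ext <;> simp only [mul_a, mul_b, mul_c, mul_d, mul_e, mul_f] <;> ring)
  (fun g => by
    ext <;> simp [mul_a, mul_b, mul_c, mul_d, mul_e, mul_f, one_a, one_b, one_c, one_d, one_e,
      one_f])
  (fun g => by
    have := g.det
    ext <;> simp only [mul_a, mul_b, mul_c, mul_d, mul_e, mul_f, one_a, one_b, one_c, one_d,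
      one_e, one_f, inv_a, inv_b, inv_c, inv_d, inv_e, inv_f] <;> linarith)

end Aff

/-- The action on the punctured plane. -/
noncomputable def act0 (j : ℕ) (g : Aff) (v : X j) : X j :=
  ⟨(v.1.1 * g.a + v.1.2 * g.c, v.1.1 * g.b + v.1.2 * g.d), fun h => v.2 (by
    have h1 := congrArg Prod.fst h
    have h2 := congrArg Prod.snd h
    have h3 : (g.a : ZMod (pr j)) * g.d - g.b * g.c = 1 := by
      have := congrArg (Int.cast : ℤ → ZMod (pr j)) g.det
      push_cast at this
      exact this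
    simp only [Prod.fst_zero, Prod.snd_zero] at h1 h2
    ext
    · show v.1.1 = 0
      linear_combination g.d * h1 - g.c * h2 - v.1.1 * h3
    · show v.1.2 = 0
      linear_combination g.a * h2 - g.b * h1 - v.1.2 * h3)⟩

theorem act0_mul (j : ℕ) (g h : Aff) (v : X j) : act0 j (g * h) v = act0 j h (act0 j g v) := by
  refine Subtype.ext (Prod.ext ?_ ?_) <;>
    simp only [act0, Aff.mul_a, Aff.mul_b, Aff.mul_c, Aff.mul_d] <;> push_cast <;> ring

theorem act0_one (j : ℕ) (v : X j) : act0 j 1 v = v := by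
  refine Subtype.ext (Prod.ext ?_ ?_) <;>
    simp [act0, Aff.one_a, Aff.one_b, Aff.one_c, Aff.one_d]

/-- The action on the punctured plane, as a permutation. -/
noncomputable def act (j : ℕ) (g : Aff) : Equiv.Perm (X j) where
  toFun := act0 j g
  invFun := act0 j g⁻¹
  left_inv v := by rw [← act0_mul, mul_inv_cancel, act0_one]
  right_inv v := by rw [← act0_mul, inv_mul_cancel, act0_one]

/-- The cocycle. -/
noncomputable def coc (j : ℕ) (g : Aff) (v : X j) : ℂ :=
  ch (ZMod.toAddCircle (v.1.1 * (g.e : ZMod (pr j)) + v.1.2 * (g.f : ZMod (pr j))))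

theorem norm_coc (j : ℕ) (g : Aff) (v : X j) : ‖coc j g v‖ = 1 := norm_ch _

theorem coc_mul (j : ℕ) (g h : Aff) (v : X j) :
    coc j (g * h) v = coc j g v * coc j h (act j g v) := by
  rw [coc, coc, coc, ← ch_add, ← map_add]
  congr 2
  simp only [act, Equiv.coe_fn_mk, act0, Aff.mul_e, Aff.mul_f]
  push_cast
  ring

theorem coc_one (j : ℕ) (v : X j) : coc j 1 v = 1 := by
  simp [coc, Aff.one_e, Aff.one_f, ch_zero]

theorem act_mul (j : ℕ) (g h : Aff) (v : X j) : act j (g * h) v = act j h (act j g v) :=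
  act0_mul j g h v

theorem act_one (j : ℕ) (v : X j) : act j 1 v = v := act0_one j v

/-- The position of a point in the torus. -/
noncomputable def pos (j : ℕ) (v : X j) : T1 × T1 :=
  (ZMod.toAddCircle v.1.1, ZMod.toAddCircle v.1.2)

theorem pos_injective (j : ℕ) : Function.Injective (pos j) := fun _ _ h =>
  Subtype.ext (Prod.ext (ZMod.toAddCircle_injective _ (congrArg Prod.fst h))
    (ZMod.toAddCircle_injective _ (congrArg Prod.snd h)))

/-- The four generators. -/
def gen : Fin 4 → Aff :=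
  ![⟨1, 0, 3, 1, 0, 0, by norm_num⟩, ⟨1, 3, 0, 1, 0, 0, by norm_num⟩,
    ⟨1, 0, 0, 1, 1, 0, by norm_num⟩, ⟨1, 0, 0, 1, 0, 1, by norm_num⟩]

theorem pos_gen0 (j : ℕ) (v : X j) :
    pos j (act j (gen 0) v) = ((pos j v).1 + (3 : ℤ) • (pos j v).2, (pos j v).2) := by
  simp only [pos, ← map_zsmul, ← map_add]
  congr 2 <;> simp [act, act0, gen, mul_comm]

theorem pos_gen1 (j : ℕ) (v : X j) :
    pos j (act j (gen 1) v) = ((pos j v).1, (pos j v).2 + (3 : ℤ) • (pos j v).1) := by
  simp only [pos, ← map_zsmul, ← map_add]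
  congr 2 <;> simp [act, act0, gen, mul_comm, add_comm]

theorem coc_gen0 (j : ℕ) (v : X j) : coc j (gen 0) v = 1 := by simp [coc, gen, ch_zero]

theorem coc_gen1 (j : ℕ) (v : X j) : coc j (gen 1) v = 1 := by simp [coc, gen, ch_zero]

theorem coc_gen2 (j : ℕ) (v : X j) : coc j (gen 2) v = ch (pos j v).1 := by simp [coc, gen, pos]

theorem coc_gen3 (j : ℕ) (v : X j) : coc j (gen 3) v = ch (pos j v).2 := by simp [coc, gen, pos]

theorem act_gen2 (j : ℕ) (v : X j) : act j (gen 2) v = v := by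
  refine Subtype.ext (Prod.ext ?_ ?_) <;> simp [act, act0, gen]

theorem act_gen3 (j : ℕ) (v : X j) : act j (gen 3) v = v := by
  refine Subtype.ext (Prod.ext ?_ ?_) <;> simp [act, act0, gen]

theorem pos_add_ne_zero {j k : ℕ} (h : j ≠ k) (v : X j) (w : X k) : pos j v + pos k w ≠ 0 := by
  intro h0
  have key : ∀ (x : ZMod (pr j)) (y : ZMod (pr k)),
      ZMod.toAddCircle x + ZMod.toAddCircle y = 0 → y = 0 := by
    intro x y hxy
    have h1 := congrArg (fun t => pr j • t) hxy
    simp only [smul_add, ← map_nsmul, nsmul_eq_mul, CharP.cast_eq_zero, zero_mul, map_zero,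
      zero_add, smul_zero, ZMod.toAddCircle_eq_zero] at h1
    exact (mul_eq_zero.1 h1).resolve_left (pr_cast_ne_zero h)
  exact w.2 (Prod.ext (key _ _ (congrArg Prod.fst h0)) (key _ _ (congrArg Prod.snd h0)))

theorem dilation (j r : ℕ) (hr : r ≤ (j + 1) * cum j) (Big : Finset (X j))
    (hB : Big.card ≤ 24 * r) : ∃ ζ : X j → T1 × T1,
      (∀ z, ζ (act j (gen 0) z) = ((ζ z).1 + (3 : ℤ) • (ζ z).2, (ζ z).2)) ∧
      (∀ z, ζ (act j (gen 1) z) = ((ζ z).1, (ζ z).2 + (3 : ℤ) • (ζ z).1)) ∧ (∀ z, ζ z ≠ 0) ∧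
      ∀ z ∈ Big, ‖(ζ z).1‖ ≤ 1 / 14 ∧ ‖(ζ z).2‖ ≤ 1 / 14 := by
  obtain ⟨l, hl1, hl2, hl⟩ := dirichlet (ι := Big ⊕ Big)
    (Sum.elim (fun z => (pos j z.1).1) fun z => (pos j z.1).2) (15 ^ (48 * ((j + 1) * cum j)))
    (Nat.pow_le_pow_right (by norm_num) (by
      rw [Fintype.card_sum, Fintype.card_coe]
      omega))
  have hlp : ((l : ℕ) : ZMod (pr j)) ≠ 0 := by
    rw [Ne, ZMod.natCast_eq_zero_iff]
    intro hd
    have := Nat.le_of_dvd hl1 hd
    have := le_pr j
    omega
  refine ⟨fun z => l • pos j z, fun z => ?_, fun z => ?_, fun z h0 => z.2 ?_, fun z hz =>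
    ⟨hl (Sum.inl ⟨z, hz⟩), hl (Sum.inr ⟨z, hz⟩)⟩⟩
  · simp only [pos_gen0, Prod.smul_mk, Prod.smul_fst, Prod.smul_snd, smul_add]
    rw [smul_comm]
  · simp only [pos_gen1, Prod.smul_mk, Prod.smul_fst, Prod.smul_snd, smul_add]
    rw [smul_comm]
  · have h1 := congrArg Prod.fst h0
    have h2 := congrArg Prod.snd h0
    simp only [pos, Prod.smul_mk, ← map_nsmul, nsmul_eq_mul, Prod.fst_zero, Prod.snd_zero,
      ZMod.toAddCircle_eq_zero] at h1 h2
    exact Prod.ext ((mul_eq_zero.1 h1).resolve_left hlp) ((mul_eq_zero.1 h2).resolve_left hlp)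

theorem card_line_le (j : ℕ) {α β : ZMod (pr j)} (h : α ≠ 0 ∨ β ≠ 0) (S : Finset (X j))
    (hS : ∀ v ∈ S, v.1.1 * α + v.1.2 * β = 0) : S.card ≤ pr j := by
  rw [← ZMod.card (pr j), ← card_univ]
  rcases h with h | h
  · refine card_le_card_of_injOn (fun v => v.1.2) (fun _ _ => mem_univ _) fun v hv w hw e => ?_
    have e' : v.1.2 = w.1.2 := e
    refine Subtype.ext (Prod.ext (mul_right_cancel₀ h ?_) e')
    linear_combination hS v hv - hS w hw - β * e'
  · refine card_le_card_of_injOn (fun v => v.1.1) (fun _ _ => mem_univ _) fun v hv w hw e => ?_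
    have e' : v.1.1 = w.1.1 := e
    refine Subtype.ext (Prod.ext e' (mul_right_cancel₀ h ?_))
    linear_combination hS v hv - hS w hw - α * e'

theorem sum_char (j : ℕ) {α β : ZMod (pr j)} (h : α ≠ 0 ∨ β ≠ 0) :
    ∑ v : X j, ch (ZMod.toAddCircle (v.1.1 * α + v.1.2 * β)) = -1 := by
  set χ : ZMod (pr j) × ZMod (pr j) → ℂ := fun v => ch (ZMod.toAddCircle (v.1 * α + v.2 * β))
  have hadd : ∀ v w, χ (v + w) = χ v * χ w := by
    intro v w
    simp only [χ, ← ch_add, ← map_add, Prod.fst_add, Prod.snd_add]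
    congr 2
    ring
  obtain ⟨w, hw⟩ : ∃ w, χ w ≠ 1 := by
    rcases h with h | h
    · exact ⟨(1, 0), ch_ne_one (by simpa using h)⟩
    · exact ⟨(0, 1), ch_ne_one (by simpa using h)⟩
  have h1 : ∑ v, χ v = 0 := by
    have h2 := Equiv.sum_comp (Equiv.addRight w) χ
    simp only [Equiv.coe_addRight, hadd, ← sum_mul] at h2
    have h3 : (∑ v, χ v) * (χ w - 1) = 0 := by rw [mul_sub, h2, mul_one, sub_self]
    exact (mul_eq_zero.1 h3).resolve_right (sub_ne_zero.2 hw)
  rw [Fintype.sum_eq_add_sum_subtype_ne χ 0] at h1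
  have h2 : χ 0 = 1 := by simp [χ, ch_zero]
  rw [h2] at h1
  exact eq_neg_of_add_eq_zero_right h1

theorem eventually_trace_le {g : Aff} (hg : g ≠ 1) :
    ∀ᶠ j in atTop, ‖∑ v : X j, if act j g v = v then coc j g v else 0‖ ≤ pr j := by
  have key : ∀ (j : ℕ) {α β : ZMod (pr j)}, (α ≠ 0 ∨ β ≠ 0) →
      (∀ v : X j, act j g v = v → v.1.1 * α + v.1.2 * β = 0) →
      ‖∑ v : X j, if act j g v = v then coc j g v else 0‖ ≤ pr j := by
    intro j α β h hS
    rw [← sum_filter]
    refine (norm_sum_le _ _).trans ?_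
    simp only [norm_coc, sum_const, nsmul_eq_mul, mul_one, Nat.cast_le]
    exact card_line_le j h _ fun v hv => hS v (mem_filter.1 hv).2
  have k1 : ∀ (j : ℕ) (v : X j), act j g v = v →
      v.1.1 * ((g.a - 1 : ℤ) : ZMod (pr j)) + v.1.2 * (g.c : ZMod (pr j)) = 0 := by
    intro j v hv
    have : v.1.1 * g.a + v.1.2 * g.c = v.1.1 := congrArg (fun w : X j => w.1.1) hv
    push_cast
    linear_combination this
  have k2 : ∀ (j : ℕ) (v : X j), act j g v = v →
      v.1.1 * (g.b : ZMod (pr j)) + v.1.2 * ((g.d - 1 : ℤ) : ZMod (pr j)) = 0 := by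
    intro j v hv
    have : v.1.1 * g.b + v.1.2 * g.d = v.1.2 := congrArg (fun w : X j => w.1.2) hv
    push_cast
    linear_combination this
  by_cases ha : g.a - 1 = 0
  swap
  · filter_upwards [eventually_cast_ne_zero ha] with j hj using key j (Or.inl hj) (k1 j)
  by_cases hc : g.c = 0
  swap
  · filter_upwards [eventually_cast_ne_zero hc] with j hj using key j (Or.inr hj) (k1 j)
  by_cases hb : g.b = 0
  swap
  · filter_upwards [eventually_cast_ne_zero hb] with j hj using key j (Or.inl hj) (k2 j)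
  by_cases hd : g.d - 1 = 0
  swap
  · filter_upwards [eventually_cast_ne_zero hd] with j hj using key j (Or.inr hj) (k2 j)
  have ha' : g.a = 1 := by linarith
  have hd' : g.d = 1 := by linarith
  have key2 : ∀ j : ℕ, ((g.e : ZMod (pr j)) ≠ 0 ∨ (g.f : ZMod (pr j)) ≠ 0) →
      ‖∑ v : X j, if act j g v = v then coc j g v else 0‖ ≤ pr j := by
    intro j h
    have hfix : ∀ v : X j, act j g v = v := by
      intro v
      refine Subtype.ext (Prod.ext ?_ ?_) <;> simp [act, act0, ha', hb, hc, hd']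
    simp only [hfix, if_true, coc, sum_char j h, norm_neg, norm_one]
    exact_mod_cast (pr_prime j).one_le
  by_cases he : g.e = 0
  swap
  · filter_upwards [eventually_cast_ne_zero he] with j hj using key2 j (Or.inl hj)
  by_cases hf : g.f = 0
  swap
  · filter_upwards [eventually_cast_ne_zero hf] with j hj using key2 j (Or.inr hj)
  exact absurd (Aff.ext ha' hb hc hd' he hf) hg

end Pool.Agent.P.MP_7f9919_an
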