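import Pool.Agent.P.MP_7f9919_an.Expand
import Pool.Agent.P.MP_7f9919_an.Marg

/-!
The states attached to a pair of ultrafilters and the test elements.
-/

set_option autoImplicit false
set_option linter.unusedSectionVars false

namespace Pool.Agent.P.MP_7f9919_an

open Finset Filter Topology

open scoped InnerProductSpace ComplexConjugate ComplexOrder TensorProduct

section gap

variable {C : Type} [Ring C] [StarRing C] [Algebra ℂ C] [StarModule ℂ C]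

theorem gap_of_expansion (φ : PosFun C) (j : B0 →+* C) (hj : ∀ c, j (star c) = star (j c))
    {U : Ultrafilter ℕ} (hU : (U : Filter ℕ) ≤ atTop) {ω : Set ℕ} (hω : ω ∉ U)
    (hm : ∀ z : C, ∃ (n : ℕ) (α : Fin n → GN U), ∀ c : B0,
      φ.f (star z * (j c * z)) = ∑ k, ⟪α k, LL U c (α k)⟫_ℂ)
    (w : Fin 4 → C) (hw : ∀ s, star (w s) * w s = 1)
    (hwj : ∀ s b, star (w s) * j b * w s = j (star (uu (gen s)) * b * uu (gen s))) (z : C) :
    ∃ s, 1 / 2048 / 8 / 2 * ‖φ.mk' (j (PP ω) * z)‖ ≤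
      ‖φ.mk' (w s * (j (PP ω) * z)) - φ.mk' (j (PP ω) * z)‖ := by
  obtain ⟨n, α, hα⟩ := hm z
  obtain ⟨s, b, hb, hle⟩ := expansion hU hω α
  have key : ∀ c : B0, φ.f (star (j (PP ω) * z) * (j c * (j (PP ω) * z))) =
      ∑ k, ⟪LL U (PP ω) (α k), LL U c (LL U (PP ω) (α k))⟫_ℂ := by
    intro c
    have e : star (j (PP ω) * z) * (j c * (j (PP ω) * z)) =
        star z * (j (star (PP ω) * c * PP ω) * z) := by
      rw [star_mul, map_mul, map_mul, hj]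
      simp only [mul_assoc]
    rw [e, hα]
    refine sum_congr rfl fun k _ => ?_
    rw [inner_rep, map_mul, map_mul]
    rfl
  refine ⟨s, gap_of_marg φ (w s) (j b) _ (hw s) (fun y => ?_) ?_⟩
  · obtain ⟨m, β, hβ⟩ := hm y
    have h1 := hβ 1
    have h2 := hβ (star b * b)
    rw [map_one, one_mul] at h1
    refine le_of_sq_le_sq ?_ (norm_nonneg _)
    have e : star (j b * y) * (j b * y) = star y * (j (star b * b) * y) := by
      rw [star_mul, map_mul, hj]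
      simp only [mul_assoc]
    rw [φ.norm_mk_sq, φ.norm_mk_sq, e, h1, h2, sum_inner_one_re, sum_inner_star_mul_re]
    refine sum_le_sum fun k _ => pow_le_pow_left₀ (norm_nonneg _) ?_ 2
    simpa using (LL U b).le_of_opNorm_le ((norm_LL_le U b).trans hb) (β k)
  · have h1 := key 1
    rw [map_one, one_mul] at h1
    rw [φ.norm_mk_sq, h1, sum_inner_one_re, hwj, ← map_sub, key, Complex.re_sum]
    refine hle.trans (le_of_eq (sum_congr rfl fun k _ => ?_))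
    rw [dfc, inner_rep, map_sub, map_mul, map_mul, _root_.sub_apply, inner_sub_right]
    rfl

variable {C' : Type} [Ring C'] [Algebra ℂ C']

theorem tmul_mul_left (x : C) (y : C') (z : C ⊗[ℂ] C') :
    (x ⊗ₜ[ℂ] y) * z = (x ⊗ₜ 1) * ((1 ⊗ₜ y) * z) := by
  rw [← mul_assoc, Algebra.TensorProduct.tmul_mul_tmul, one_mul, mul_one]

theorem tmul_mul_right (x : C) (y : C') (z : C ⊗[ℂ] C') :
    (x ⊗ₜ[ℂ] y) * z = (1 ⊗ₜ y) * ((x ⊗ₜ 1) * z) := by
  rw [← mul_assoc, Algebra.TensorProduct.tmul_mul_tmul, one_mul, mul_one]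

theorem sum_test_mul (f : C →ₗ[ℂ] ℂ) (w : Fin 4 → C) (q : C) (h1 : f q = 1)
    (h2 : ∀ s, f (w s * q) = 1) : (f ((∑ s, (1 + w s)) * q)).re = 8 := by
  simp only [sum_mul, add_mul, one_mul, map_sum, map_add, h1, h2]
  norm_num

end gap

section group

variable {G : Type} [Group G] [DecidableEq G]

/-- The point masses. -/
noncomputable abbrev dl (g : G) : lp (fun _ : G => ℂ) 2 := lp.single 2 g 1

theorem inner_dl (g : G) (x : lp (fun _ : G => ℂ) 2) : ⟪dl g, x⟫_ℂ = x g := by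
  rw [dl, lp.inner_single_left, RCLike.inner_apply, map_one, mul_one]

theorem inner_dl_comp (S T : lp (fun _ : G => ℂ) 2 →L[ℂ] lp (fun _ : G => ℂ) 2) (g h : G) :
    ⟪dl g, S (T (dl h))⟫_ℂ = ∑' k, ⟪dl g, S (dl k)⟫_ℂ * ⟪dl k, T (dl h)⟫_ℂ := by
  rw [← ContinuousLinearMap.adjoint_inner_left, lp.inner_eq_tsum]
  refine tsum_congr fun k => ?_
  rw [RCLike.inner_apply, ← inner_dl, ← inner_dl, inner_conj_symm,
    ContinuousLinearMap.adjoint_inner_left, mul_comm]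

theorem commute_of_kernel (S T : lp (fun _ : G => ℂ) 2 →L[ℂ] lp (fun _ : G => ℂ) 2)
    (f f' : G → ℂ) (hS : ∀ g h, ⟪dl g, S (dl h)⟫_ℂ = f (h * g⁻¹))
    (hT : ∀ g h, ⟪dl g, T (dl h)⟫_ℂ = f' (h⁻¹ * g)) : Commute S T := by
  refine lp.ext_continuousLinearMap (by norm_num) fun h => ContinuousLinearMap.ext_ring ?_
  refine lp.ext (funext fun g => ?_)
  show S (T (dl h)) g = T (S (dl h)) g
  rw [← inner_dl, ← inner_dl, inner_dl_comp, inner_dl_comp,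
    ← ((Equiv.inv G).trans ((Equiv.mulLeft h).trans (Equiv.mulRight g))).tsum_eq]
  refine tsum_congr fun k => ?_
  simp only [hS, hT, Equiv.trans_apply, Equiv.inv_apply, Equiv.coe_mulLeft, Equiv.coe_mulRight]
  rw [mul_comm]
  congr 2 <;> group

end group

section iso

variable {ι E : Type} [DecidableEq ι] [NormedAddCommGroup E] [InnerProductSpace ℂ E]
  [CompleteSpace E]

/-- The isometry attached to an orthonormal family. -/
noncomputable def isoOf {f : ι → E} (hf : Orthonormal ℂ f) : lp (fun _ : ι => ℂ) 2 →L[ℂ] E :=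
  hf.orthogonalFamily.linearIsometry.toContinuousLinearMap

theorem isoOf_single {f : ι → E} (hf : Orthonormal ℂ f) (i : ι) :
    isoOf hf (lp.single 2 i 1) = f i :=
  (hf.orthogonalFamily.linearIsometry_apply_single (i := i) 1).trans (one_smul _ _)

end iso

noncomputable instance : DecidableEq Aff := Classical.decEq _

theorem orthonormal_cl {U : Ultrafilter ℕ} (hU : (U : Filter ℕ) ≤ atTop) :
    Orthonormal ℂ fun g : Aff => cl U (uu g) := by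
  rw [orthonormal_iff_ite]
  intro g h
  rw [inner_cl, star_uu, ← uu_mul, tau_uu hU]
  simp only [inv_mul_eq_one]

/-- The first isometry. -/
noncomputable def VL {U : Ultrafilter ℕ} (hU : (U : Filter ℕ) ≤ atTop) :
    lp (fun _ : Aff => ℂ) 2 →L[ℂ] GN U := isoOf (orthonormal_cl hU)

/-- The second isometry. -/
noncomputable def VR {U : Ultrafilter ℕ} (hU : (U : Filter ℕ) ≤ atTop) :
    lp (fun _ : Aff => ℂ) 2 →L[ℂ] GN U := isoOf ((orthonormal_cl hU).comp _ inv_injective)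

variable {A A' : Type} [Ring A] [StarRing A] [Algebra ℂ A] [StarModule ℂ A]
  [Ring A'] [StarRing A'] [Algebra ℂ A'] [StarModule ℂ A']

theorem kernel_left {U : Ultrafilter ℕ} (hU : (U : Filter ℕ) ≤ atTop)
    (L : A →⋆ₐ[ℂ] (GN U →L[ℂ] GN U)) {y : A} {x : B0} (hx : L y = LL U x) (g h : Aff) :
    ⟪dl g, compress L (VL hU) y (dl h)⟫_ℂ = tau U (x * uu (h * g⁻¹)) := by
  rw [inner_compress, VL, isoOf_single, isoOf_single, hx, LL_cl, inner_cl, star_uu, tau_comm,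
    uu_mul, mul_assoc]

theorem kernel_right {U : Ultrafilter ℕ} (hU : (U : Filter ℕ) ≤ atTop)
    (L' : A' →⋆ₐ[ℂ] (GN U →L[ℂ] GN U)) {y : A'} {x : B0} (hx : L' y = LL U x) (g h : Aff) :
    ⟪dl g, compress L' (VR hU) y (dl h)⟫_ℂ = tau U (x * uu (h⁻¹ * g)) := by
  rw [inner_compress, VR, isoOf_single, isoOf_single, hx, Function.comp_apply, Function.comp_apply,
    LL_cl, inner_cl, star_uu, inv_inv, tau_comm, uu_mul, mul_assoc]

theorem commute_LR {U W : Ultrafilter ℕ} (hU : (U : Filter ℕ) ≤ atTop) (hW : (W : Filter ℕ) ≤ atTop)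
    (L : A →⋆ₐ[ℂ] (GN U →L[ℂ] GN U)) (hL : ∀ y, ∃ x, L y = LL U x)
    (L' : A' →⋆ₐ[ℂ] (GN W →L[ℂ] GN W)) (hL' : ∀ y, ∃ x, L' y = LL W x) (a : A) (a' : A') :
    Commute (compress L (VL hU) a) (compress L' (VR hW) a') := by
  obtain ⟨x, hx⟩ := hL a
  obtain ⟨x', hx'⟩ := hL' a'
  exact commute_of_kernel _ _ (fun k => tau U (x * uu k)) (fun k => tau W (x' * uu k))
    (kernel_left hU L hx) (kernel_right hW L' hx')

/-- The unitaries of the test elements. -/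
noncomputable def ww (p : B0 →⋆ₐ[ℂ] A) (q : B0 →⋆ₐ[ℂ] A') (s : Fin 4) : A ⊗[ℂ] A' :=
  p (uu (gen s)) ⊗ₜ q (uu (gen s))

/-- The projections of the test elements. -/
noncomputable def qq (p : B0 →⋆ₐ[ℂ] A) (q : B0 →⋆ₐ[ℂ] A') (ω ω' : Set ℕ) : A ⊗[ℂ] A' :=
  p (PP ω) ⊗ₜ q (PP ω')

/-- The test elements. -/
noncomputable def tt (p : B0 →⋆ₐ[ℂ] A) (q : B0 →⋆ₐ[ℂ] A') (ω ω' : Set ℕ) : A ⊗[ℂ] A' :=
  (∑ s, (1 + ww p q s)) * qq p q ω ω'

variable (p : B0 →⋆ₐ[ℂ] A) (q : B0 →⋆ₐ[ℂ] A')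

theorem star_ww_mul (s : Fin 4) : star (ww p q s) * ww p q s = 1 := by
  rw [ww, TensorProduct.star_tmul, Algebra.TensorProduct.tmul_mul_tmul, ← map_star, ← map_star,
    ← map_mul, ← map_mul, star_uu_mul, map_one, map_one, Algebra.TensorProduct.one_def]

theorem star_qq (ω ω' : Set ℕ) : star (qq p q ω ω') = qq p q ω ω' := by
  rw [qq, TensorProduct.star_tmul, ← map_star, ← map_star, star_PP, star_PP]

theorem qq_mul_qq (ω ω' : Set ℕ) : qq p q ω ω' * qq p q ω ω' = qq p q ω ω' := by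
  rw [qq, Algebra.TensorProduct.tmul_mul_tmul, ← map_mul, ← map_mul, PP_mul_PP, PP_mul_PP]

theorem nu_tt_lt (ω ω' : Set ℕ) (φ : PosFun (A ⊗[ℂ] A')) (h : φ.Bdd) {δ : ℝ}
    (hδ : 0 < δ) (hgap : ∀ z, ∃ s, δ * ‖φ.mk' (qq p q ω ω' * z)‖ ≤
      ‖φ.mk' (ww p q s * (qq p q ω ω' * z)) - φ.mk' (qq p q ω ω' * z)‖) :
    φ.nu h (tt p q ω ω') < 8 := by
  have := φ.nu_test_lt h (ww p q) (star_ww_mul p q) (star_qq p q ω ω') (qq_mul_qq p q ω ω') hδ hgap
  rw [Fintype.card_fin] at this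
  norm_num at this ⊢
  exact this

theorem nu_tt_lt_left {U : Ultrafilter ℕ} (hU : (U : Filter ℕ) ≤ atTop)
    {ω : Set ℕ} (hω : ω ∉ U) (ω' : Set ℕ) (φ : PosFun (A ⊗[ℂ] A')) (h : φ.Bdd)
    (hm : ∀ z, ∃ (n : ℕ) (α : Fin n → GN U), ∀ c : B0,
      φ.f (star z * ((p c ⊗ₜ 1) * z)) = ∑ k, ⟪α k, LL U c (α k)⟫_ℂ) :
    φ.nu h (tt p q ω ω') < 8 := by
  refine nu_tt_lt p q ω ω' φ h (δ := 1 / 2048 / 8 / 2) (by norm_num) fun z => ?_
  have e : qq p q ω ω' * z = (p (PP ω) ⊗ₜ 1) * ((1 ⊗ₜ q (PP ω')) * z) := tmul_mul_left _ _ z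
  rw [e]
  refine gap_of_expansion φ
    ((Algebra.TensorProduct.includeLeft (R := ℂ) (S := ℂ) (A := A) (B := A')).comp
      p.toAlgHom).toRingHom
    (fun c => ?_) hU hω hm (ww p q) (star_ww_mul p q) (fun s b => ?_) _
  · show p (star c) ⊗ₜ[ℂ] (1 : A') = star (p c ⊗ₜ[ℂ] (1 : A'))
    rw [TensorProduct.star_tmul, star_one, map_star]
  · show star (ww p q s) * (p b ⊗ₜ[ℂ] (1 : A')) * ww p q s = p _ ⊗ₜ[ℂ] (1 : A')
    simp only [ww, TensorProduct.star_tmul, Algebra.TensorProduct.tmul_mul_tmul, mul_one]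
    rw [← map_star q, ← map_mul q, star_uu_mul, map_one, map_mul, map_mul, map_star]

theorem nu_tt_lt_right {U : Ultrafilter ℕ} (hU : (U : Filter ℕ) ≤ atTop)
    (ω : Set ℕ) {ω' : Set ℕ} (hω : ω' ∉ U) (φ : PosFun (A ⊗[ℂ] A')) (h : φ.Bdd)
    (hm : ∀ z, ∃ (n : ℕ) (α : Fin n → GN U), ∀ c : B0,
      φ.f (star z * ((1 ⊗ₜ q c) * z)) = ∑ k, ⟪α k, LL U c (α k)⟫_ℂ) :
    φ.nu h (tt p q ω ω') < 8 := by
  refine nu_tt_lt p q ω ω' φ h (δ := 1 / 2048 / 8 / 2) (by norm_num) fun z => ?_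
  have e : qq p q ω ω' * z = (1 ⊗ₜ q (PP ω')) * ((p (PP ω) ⊗ₜ 1) * z) := tmul_mul_right _ _ z
  rw [e]
  refine gap_of_expansion φ
    ((Algebra.TensorProduct.includeRight (R := ℂ) (A := A) (B := A')).comp q.toAlgHom).toRingHom
    (fun c => ?_) hU hω hm (ww p q) (star_ww_mul p q) (fun s b => ?_) _
  · show (1 : A) ⊗ₜ[ℂ] q (star c) = star ((1 : A) ⊗ₜ[ℂ] q c)
    rw [TensorProduct.star_tmul, star_one, map_star]
  · show star (ww p q s) * ((1 : A) ⊗ₜ[ℂ] q b) * ww p q s = (1 : A) ⊗ₜ[ℂ] q _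
    simp only [ww, TensorProduct.star_tmul, Algebra.TensorProduct.tmul_mul_tmul, mul_one]
    rw [← map_star p, ← map_mul p, star_uu_mul, map_one, map_mul, map_mul, map_star]

/-- The state attached to a pair of ultrafilters. -/
noncomputable def pairState {U W : Ultrafilter ℕ} (hU : (U : Filter ℕ) ≤ atTop)
    (hW : (W : Filter ℕ) ≤ atTop) (L : A →⋆ₐ[ℂ] (GN U →L[ℂ] GN U)) (hL : ∀ y, ∃ x, L y = LL U x)
    (L' : A' →⋆ₐ[ℂ] (GN W →L[ℂ] GN W)) (hL' : ∀ y, ∃ x, L' y = LL W x) : PosFun (A ⊗[ℂ] A') :=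
  pairPos L (VL hU) L' (VR hW) (commute_LR hU hW L hL L' hL') (dl 1)

theorem pairState_tmul {U W : Ultrafilter ℕ} (hU : (U : Filter ℕ) ≤ atTop)
    (hW : (W : Filter ℕ) ≤ atTop) (L : A →⋆ₐ[ℂ] (GN U →L[ℂ] GN U)) (hL : ∀ y, ∃ x, L y = LL U x)
    (L' : A' →⋆ₐ[ℂ] (GN W →L[ℂ] GN W)) (hL' : ∀ y, ∃ x, L' y = LL W x) {x x' : B0} {y : A}
    {y' : A'} (hy : L y = LL U x) (hy' : L' y' = LL W x') (g : Aff)
    (h1 : ∀ k, tau U (x * uu k) = tau U (uu (g * k)))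
    (h2 : ∀ k, tau W (x' * uu k) = tau W (uu (g * k))) :
    (pairState hU hW L hL L' hL').f (y ⊗ₜ y') = 1 := by
  show pairFun _ _ _ _ = _
  rw [pairFun_tmul, inner_dl_comp, tsum_eq_single g⁻¹]
  · rw [kernel_left hU L hy, kernel_right hW L' hy', h1, h2]
    simp [uu_one, tau_one]
  · intro k hk
    rw [kernel_left hU L hy, h1, inv_one, mul_one, tau_uu hU, if_neg, zero_mul]
    exact fun h => hk (eq_inv_of_mul_eq_one_right h)

theorem tau_test {U : Ultrafilter ℕ} {ω : Set ℕ} (hω : ω ∈ U) (g k : Aff) :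
    tau U (uu g * PP ω * uu k) = tau U (uu (g * k)) := by
  rw [mul_assoc, PP_mul_uu, ← mul_assoc, tau_mul_PP hω, uu_mul]

theorem le_nu_tt {U W : Ultrafilter ℕ} (hU : (U : Filter ℕ) ≤ atTop)
    (hW : (W : Filter ℕ) ≤ atTop) (L : A →⋆ₐ[ℂ] (GN U →L[ℂ] GN U)) (hp : ∀ x, L (p x) = LL U x)
    (hL : ∀ y, ∃ x, L y = LL U x) (L' : A' →⋆ₐ[ℂ] (GN W →L[ℂ] GN W))
    (hq : ∀ x, L' (q x) = LL W x) (hL' : ∀ y, ∃ x, L' y = LL W x) {ω ω' : Set ℕ} (hω : ω ∈ U)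
    (hω' : ω' ∈ W) (h : (pairState hU hW L hL L' hL').Bdd) :
    8 ≤ (pairState hU hW L hL L' hL').nu h (tt p q ω ω') := by
  have h1 : (pairState hU hW L hL L' hL').f 1 = 1 :=
    pairState_tmul hU hW L hL L' hL' (x := 1) (x' := 1) (by rw [map_one, map_one])
      (by rw [map_one, map_one]) 1 (fun k => by simp) fun k => by simp
  have h2 : ∀ g : Aff,
      (pairState hU hW L hL L' hL').f ((p (uu g) ⊗ₜ q (uu g)) * qq p q ω ω') = 1 := by
    intro g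
    rw [qq, Algebra.TensorProduct.tmul_mul_tmul, ← map_mul, ← map_mul]
    exact pairState_tmul hU hW L hL L' hL' (hp _) (hq _) g (tau_test hω g) (tau_test hω' g)
  have h3 := h2 1
  rw [uu_one, map_one, map_one, ← Algebra.TensorProduct.one_def, one_mul] at h3
  exact le_trans (sum_test_mul _ (ww p q) _ h3 fun s => h2 (gen s)).ge
    (PosFun.re_f_le_nu _ h h1 _)

open Cardinal in
/-- An injection from a set of ultrafilters to the set of C*-norms. -/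
theorem card_le_norms (hp : Function.Surjective p) (hq : Function.Surjective q)
    (hfp : ∀ U : Ultrafilter ℕ, (U : Filter ℕ) ≤ atTop →
      ∃ L : A →⋆ₐ[ℂ] (GN U →L[ℂ] GN U), ∀ x, L (p x) = LL U x)
    {W : Ultrafilter ℕ} (hW : (W : Filter ℕ) ≤ atTop)
    (L' : A' →⋆ₐ[ℂ] (GN W →L[ℂ] GN W)) (hL' : ∀ x, L' (q x) = LL W x)
    {ω₀ ω' : Set ℕ} (hω' : ω' ∈ W) (ν₀ : A ⊗[ℂ] A' → ℝ)
    (h₀ : IsCStarSemi ν₀) (h₁ : ∀ x, ν₀ x = 0 → x = 0) (h₂ : ∀ ω ⊆ ω₀, ν₀ (tt p q ω ω') < 8) :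
    #{U : Ultrafilter ℕ // (U : Filter ℕ) ≤ atTop ∧ ω₀ ∈ U} ≤
      #{ν : A ⊗[ℂ] A' → ℝ // IsCStarNorm ν} := by
  choose L hL using hfp
  have r : ∀ U hU y, ∃ x, L U hU y = LL U x := fun U hU y => by
    obtain ⟨x, rfl⟩ := hp y
    exact ⟨x, hL U hU x⟩
  have r' : ∀ y, ∃ x, L' y = LL W x := fun y => by
    obtain ⟨x, rfl⟩ := hq y
    exact ⟨x, hL' x⟩
  have hb : ∀ U : {U : Ultrafilter ℕ // (U : Filter ℕ) ≤ atTop ∧ ω₀ ∈ U},
      (pairState U.2.1 hW (L _ U.2.1) (r _ U.2.1) L' r').Bdd := fun U => pairPos_bdd _ _ _ _ _ _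
  refine mk_le_of_injective (f := fun U =>
    ⟨fun x => max (ν₀ x) ((pairState U.2.1 hW (L _ U.2.1) (r _ U.2.1) L' r').nu (hb U) x),
      (h₀.max (PosFun.isCStarSemi _ (hb U))).isCStarNorm fun x hx =>
        h₁ x (le_antisymm ((le_max_left _ _).trans hx.le) (h₀.nonneg x))⟩) fun U U' hUU => ?_
  by_contra hne
  obtain ⟨ω, hω, hω2⟩ : ∃ ω, ω ∈ U.1 ∧ ω ∉ U'.1 := by
    by_contra hcon
    push Not at hcon
    exact hne (Subtype.ext (Ultrafilter.eq_of_le hcon).symm)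
  have e := congrFun (congrArg Subtype.val hUU) (tt p q (ω ∩ ω₀) ω')
  have a1 := le_nu_tt p q U.2.1 hW _ (hL _ U.2.1) (r _ U.2.1) L' hL' r' (inter_mem hω U.2.2) hω'
    (hb U)
  have a2 := nu_tt_lt_left p q U'.2.1 (ω := ω ∩ ω₀)
    (fun h => hω2 (mem_of_superset h Set.inter_subset_left)) ω' _ (hb U') fun z => by
      obtain ⟨n, α, hα⟩ := marg_left _ _ _ _
        (commute_LR U'.2.1 hW (L _ U'.2.1) (r _ U'.2.1) L' r') (dl 1) z
      exact ⟨n, α, fun c => (hα (p c)).trans (by rw [hL])⟩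
  have a3 := max_lt (h₂ (ω ∩ ω₀) Set.inter_subset_right) a2
  have a4 := a1.trans (le_max_right (ν₀ (tt p q (ω ∩ ω₀) ω')) _)
  exact absurd (a4.trans_lt (e.trans_lt a3)) (lt_irrefl _)

end Pool.Agent.P.MP_7f9919_an
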