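import Mathlib

/-!
A ping-pong estimate near the origin of the two-dimensional torus, Dirichlet's pigeonhole
principle, and a lower bound for the distance of a character value from one.
-/

set_option autoImplicit false

namespace Pool.Agent.P.MP_7f9919_an

open Finset

open scoped Classical

/-- The circle group. -/
abbrev T1 : Type := UnitAddCircle

theorem exists_rep (x : T1) : ∃ a : ℝ, (a : T1) = x ∧ |a| = ‖x‖ := by
  induction x using QuotientAddGroup.induction_on with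
  | H y =>
    refine ⟨y - round y, ?_, UnitAddCircle.norm_eq.symm⟩
    rw [AddCircle.coe_sub]
    have : (((round y : ℤ) : ℝ) : T1) = 0 := by
      rw [AddCircle.coe_eq_zero_iff]
      exact ⟨round y, by simp⟩
    rw [this, sub_zero]

theorem norm_lt_shear {s t : T1} (hst : ‖s‖ ≤ ‖t‖) (ht : ‖t‖ ≤ 1 / 14) (h0 : t ≠ 0) {n : ℤ}
    (hn : n = 3 ∨ n = -3 ∨ n = 6) : ‖t‖ < ‖s + n • t‖ := by
  obtain ⟨a, rfl, ha⟩ := exists_rep s
  obtain ⟨b, rfl, hb⟩ := exists_rep t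
  have hpos : 0 < ‖(b : T1)‖ := norm_pos_iff.2 h0
  have e : (a : T1) + n • (b : T1) = ((a + n * b : ℝ) : T1) := by
    rw [AddCircle.coe_add, ← AddCircle.coe_zsmul, zsmul_eq_mul]
  rw [← ha, ← hb] at hst
  rw [← hb] at ht hpos
  have h1 : |a + n * b| ≤ |(1 : ℝ)| / 2 := by
    rw [abs_one]
    rcases hn with rfl | rfl | rfl <;> push_cast <;> rw [abs_le] <;>
      constructor <;> cases abs_cases a <;> cases abs_cases b <;> linarith
  rw [e, (AddCircle.norm_coe_eq_abs_iff 1 one_ne_zero).2 h1, ← hb]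
  rcases hn with rfl | rfl | rfl <;> push_cast <;> rw [lt_abs] <;>
    cases abs_cases a <;> cases abs_cases b <;> first | (left; linarith) | (right; linarith)

/-- The mass of the set of points with property `Q`. -/
noncomputable def mass {Z : Type} [Fintype Z] (μ : Z → ℝ) (Q : Z → Prop) : ℝ :=
  ∑ z, if Q z then μ z else 0

theorem mass_mono {Z : Type} [Fintype Z] {μ : Z → ℝ} (hμ : ∀ z, 0 ≤ μ z) {Q R : Z → Prop}
    (h : ∀ z, Q z → R z) : mass μ Q ≤ mass μ R := by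
  refine sum_le_sum fun z _ => ?_
  have := hμ z
  by_cases h1 : Q z
  · simp [h1, h z h1]
  · by_cases h2 : R z <;> simp [h1, h2, this]

theorem mass_or_le {Z : Type} [Fintype Z] {μ : Z → ℝ} (hμ : ∀ z, 0 ≤ μ z) (U W : Z → Prop) :
    mass μ (fun z => U z ∨ W z) ≤ mass μ U + mass μ W := by
  rw [mass, mass, mass, ← sum_add_distrib]
  refine sum_le_sum fun z _ => ?_
  have := hμ z
  by_cases h1 : U z <;> by_cases h2 : W z <;> simp [h1, h2, this]

theorem mass_add_not {Z : Type} [Fintype Z] (μ : Z → ℝ) (Q : Z → Prop) :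
    mass μ Q + mass μ (fun z => ¬ Q z) = ∑ z, μ z := by
  rw [mass, mass, ← sum_add_distrib]
  refine sum_congr rfl fun z _ => ?_
  by_cases h1 : Q z <;> simp [h1]

theorem mass_le_of_le {Z : Type} [Fintype Z] {μ ν : Z → ℝ} (hν : ∀ z, 0 ≤ ν z) {Q : Z → Prop}
    (h : ∀ z, Q z → μ z ≤ ν z) : mass μ Q ≤ ∑ z, ν z := by
  refine sum_le_sum fun z _ => ?_
  by_cases h1 : Q z
  · simp [h1, h z h1]
  · simp [h1, hν z]

theorem double_le {Z : Type} [Fintype Z] (σ : Equiv.Perm Z) (μ : Z → ℝ) (hμ : ∀ z, 0 ≤ μ z)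
    (Q R : Z → Prop) (h1 : ∀ z, Q z → R (σ z)) (h2 : ∀ z, Q (σ z) → R z)
    (h3 : ∀ z, Q z → ¬ Q (σ (σ z))) :
    2 * mass μ Q ≤ mass μ R + 2 * ∑ z, |μ (σ z) - μ z| := by
  have e1 : mass μ Q ≤ mass μ (fun z => Q (σ.symm z)) + ∑ z, |μ (σ z) - μ z| := by
    rw [mass, mass, ← Equiv.sum_comp σ (fun z => if Q (σ.symm z) then μ z else 0),
      ← sum_add_distrib]
    refine sum_le_sum fun z _ => ?_
    simp only [Equiv.symm_apply_apply]
    split_ifs <;> cases abs_cases (μ (σ z) - μ z) <;> linarith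
  have e2 : mass μ Q ≤ mass μ (fun z => Q (σ z)) + ∑ z, |μ (σ z) - μ z| := by
    rw [mass, mass, ← Equiv.sum_comp σ (fun z => if Q z then μ z else 0), ← sum_add_distrib]
    refine sum_le_sum fun z _ => ?_
    split_ifs <;> cases abs_cases (μ (σ z) - μ z) <;> linarith
  have e3 : mass μ (fun z => Q (σ.symm z)) + mass μ (fun z => Q (σ z)) ≤ mass μ R := by
    rw [mass, mass, mass, ← sum_add_distrib]
    refine sum_le_sum fun z _ => ?_
    have := hμ z
    by_cases c1 : Q (σ.symm z)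
    · have r : R z := by simpa using h1 _ c1
      have c2 : ¬ Q (σ z) := by simpa using h3 _ c1
      simp [c1, c2, r]
    · by_cases c2 : Q (σ z)
      · simp [c1, c2, h2 z c2]
      · by_cases r : R z <;> simp [c1, c2, r, this]
  linarith

/-- Ping-pong near the origin of the torus. -/
theorem pingpong {Z : Type} [Fintype Z] (σ τ : Equiv.Perm Z) (ζ : Z → T1 × T1)
    (hσ : ∀ z, ζ (σ z) = ((ζ z).1 + (3 : ℤ) • (ζ z).2, (ζ z).2))
    (hτ : ∀ z, ζ (τ z) = ((ζ z).1, (ζ z).2 + (3 : ℤ) • (ζ z).1))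
    (μ : Z → ℝ) (hμ : ∀ z, 0 ≤ μ z) :
    mass μ (fun z => ζ z ≠ 0) ≤ 2 * ∑ z, |μ (σ z) - μ z| + 2 * ∑ z, |μ (τ z) - μ z| +
      3 * mass μ (fun z => 1 / 14 < ‖(ζ z).1‖ ∨ 1 / 14 < ‖(ζ z).2‖) := by
  set Q : Z → Prop := fun z => ‖(ζ z).1‖ ≤ ‖(ζ z).2‖ ∧ ‖(ζ z).2‖ ≤ 1 / 14 ∧ (ζ z).2 ≠ 0 with hQ
  set P : Z → Prop := fun z => ‖(ζ z).2‖ < ‖(ζ z).1‖ ∧ ‖(ζ z).1‖ ≤ 1 / 14 with hP
  set F : Z → Prop := fun z => 1 / 14 < ‖(ζ z).1‖ ∨ 1 / 14 < ‖(ζ z).2‖ with hF
  have hPF : ∀ z, ‖(ζ z).2‖ < ‖(ζ z).1‖ → P z ∨ F z := by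
    intro z h
    by_cases h1 : ‖(ζ z).1‖ ≤ 1 / 14
    · exact Or.inl ⟨h, h1⟩
    · exact Or.inr (Or.inl (not_le.1 h1))
  have hQF : ∀ z, ‖(ζ z).1‖ < ‖(ζ z).2‖ → Q z ∨ F z := by
    intro z h
    by_cases h1 : ‖(ζ z).2‖ ≤ 1 / 14
    · exact Or.inl ⟨h.le, h1, norm_pos_iff.1 (lt_of_le_of_lt (norm_nonneg _) h)⟩
    · exact Or.inr (Or.inr (not_le.1 h1))
  have hP0 : ∀ z, P z → (ζ z).1 ≠ 0 := fun z h =>
    norm_pos_iff.1 (lt_of_le_of_lt (norm_nonneg _) h.1)
  have a1 := double_le σ μ hμ Q (fun z => P z ∨ F z)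
    (fun z h => hPF _ (by
      rw [hσ]; exact norm_lt_shear h.1 h.2.1 h.2.2 (Or.inl rfl)))
    (fun z h => hPF _ (by
      simp only [hQ, hσ] at h
      have := norm_lt_shear h.1 h.2.1 h.2.2 (Or.inr (Or.inl rfl))
      rwa [add_assoc, ← add_zsmul, add_neg_cancel, zero_zsmul, add_zero] at this))
    (fun z h h' => by
      simp only [hQ, hσ] at h'
      have := norm_lt_shear h.1 h.2.1 h.2.2 (Or.inr (Or.inr rfl))
      rw [add_assoc, ← add_zsmul] at h'
      exact absurd h'.1 (not_le.2 this))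
  have a2 := double_le τ μ hμ P (fun z => Q z ∨ F z)
    (fun z h => hQF _ (by
      rw [hτ]; exact norm_lt_shear h.1.le h.2 (hP0 z h) (Or.inl rfl)))
    (fun z h => hQF _ (by
      have h0 := hP0 _ h
      simp only [hP, hτ] at h h0
      have := norm_lt_shear h.1.le h.2 h0 (Or.inr (Or.inl rfl))
      rwa [add_assoc, ← add_zsmul, add_neg_cancel, zero_zsmul, add_zero] at this))
    (fun z h h' => by
      simp only [hP, hτ] at h'
      have := norm_lt_shear h.1.le h.2 (hP0 z h) (Or.inr (Or.inr rfl))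
      rw [add_assoc, ← add_zsmul] at h'
      exact absurd h'.1 (not_lt.2 this.le))
  have a3 : mass μ (fun z => ζ z ≠ 0) ≤ mass μ (fun z => Q z ∨ (P z ∨ F z)) := by
    refine mass_mono hμ fun z hz => ?_
    rcases lt_or_ge ‖(ζ z).2‖ ‖(ζ z).1‖ with h | h
    · exact Or.inr (hPF z h)
    · by_cases h1 : ‖(ζ z).2‖ ≤ 1 / 14
      · refine Or.inl ⟨h, h1, fun h2 => hz ?_⟩
        rw [h2, norm_zero] at h
        exact Prod.ext (norm_le_zero_iff.1 h) h2
      · exact Or.inr (Or.inr (Or.inr (not_le.1 h1)))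
  have b1 := mass_or_le hμ P F
  have b2 := mass_or_le hμ Q F
  have b3 := mass_or_le hμ Q (fun z => P z ∨ F z)
  linarith

/-- Dirichlet's pigeonhole principle on a finite product of circles. -/
theorem dirichlet {ι : Type} [Fintype ι] (ξ : ι → T1) (N : ℕ) (hN : 15 ^ Fintype.card ι ≤ N) :
    ∃ l : ℕ, 1 ≤ l ∧ l ≤ N ∧ ∀ i, ‖l • ξ i‖ ≤ 1 / 14 := by
  choose a ha _ using fun i => exists_rep (ξ i)
  have hlt : ∀ x : ℝ, ⌊14 * Int.fract x⌋₊ < 15 := by
    intro x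
    have := Int.fract_lt_one x
    rw [Nat.floor_lt (by have := Int.fract_nonneg x; positivity)]
    push_cast
    linarith
  let cell : Fin (N + 1) → ι → Fin 15 := fun j i => ⟨⌊14 * Int.fract ((j : ℕ) * a i)⌋₊, hlt _⟩
  obtain ⟨j, j', hne, hjj⟩ := Fintype.exists_ne_map_eq_of_card_lt cell (by
    simp only [Fintype.card_fun, Fintype.card_fin]; omega)
  have key : ∀ j j' : Fin (N + 1), (j : ℕ) < j' → cell j = cell j' →
      ∃ l : ℕ, 1 ≤ l ∧ l ≤ N ∧ ∀ i, ‖l • ξ i‖ ≤ 1 / 14 := by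
    intro j j' hlt' hc
    refine ⟨j' - j, by omega, by omega, fun i => ?_⟩
    have h1 : ⌊14 * Int.fract ((j : ℕ) * a i)⌋₊ = ⌊14 * Int.fract ((j' : ℕ) * a i)⌋₊ :=
      congrArg Fin.val (congrFun hc i)
    set u := Int.fract ((j : ℕ) * a i) with hu
    set v := Int.fract ((j' : ℕ) * a i) with hv
    have hu0 : 0 ≤ 14 * u := by have := Int.fract_nonneg ((j : ℕ) * a i); positivity
    have hv0 : 0 ≤ 14 * v := by have := Int.fract_nonneg ((j' : ℕ) * a i); positivity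
    have h2 := Nat.floor_le hu0
    have h3 := Nat.lt_floor_add_one (14 * u)
    have h4 := Nat.floor_le hv0
    have h5 := Nat.lt_floor_add_one (14 * v)
    rw [h1] at h2 h3
    have e : ((j' : ℕ) - j) • ξ i = ((v - u : ℝ) : T1) := by
      rw [← ha i, AddCircle.coe_sub, hu, hv, AddCircle.coe_fract, AddCircle.coe_fract,
        ← AddCircle.coe_sub, ← AddCircle.coe_nsmul, nsmul_eq_mul, Nat.cast_sub hlt'.le, sub_mul]
    have h6 : |v - u| ≤ 1 / 14 := by rw [abs_le]; constructor <;> linarith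
    rw [e, (AddCircle.norm_coe_eq_abs_iff 1 one_ne_zero).2 (by rw [abs_one]; linarith)]
    exact h6
  rcases lt_or_gt_of_ne (fun h => hne (Fin.ext h) : (j : ℕ) ≠ j') with h | h
  · exact key j j' h hjj
  · exact key j' j h hjj.symm

/-- The standard character of the circle. -/
noncomputable def ch (x : T1) : ℂ := AddCircle.toCircle x

theorem ch_add (x y : T1) : ch (x + y) = ch x * ch y := by
  simp [ch, AddCircle.toCircle_add]

theorem ch_zero : ch 0 = 1 := by simp [ch]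

theorem norm_ch (x : T1) : ‖ch x‖ = 1 := Circle.norm_coe _

theorem conj_ch (x : T1) : (starRingEnd ℂ) (ch x) = ch (-x) := by
  rw [ch, ch, AddCircle.toCircle_neg, Circle.coe_inv_eq_conj]

theorem norm_ch_sub_one (x : T1) : 4 * ‖x‖ ≤ ‖ch x - 1‖ := by
  obtain ⟨a, rfl, ha⟩ := exists_rep x
  have h1 : ‖(a : T1)‖ ≤ |(1 : ℝ)| / 2 := AddCircle.norm_le_half_period 1 one_ne_zero
  rw [abs_one, ← ha] at h1
  have e : ch (a : T1) = Complex.exp (Complex.I * (2 * Real.pi * a : ℝ)) := by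
    simp only [ch, AddCircle.toCircle_apply_mk, Circle.coe_exp]
    congr 1
    push_cast
    ring
  rw [e, Complex.norm_exp_I_mul_ofReal_sub_one, ← ha, Real.norm_eq_abs, abs_mul, abs_two]
  have h2 : 2 * Real.pi * a / 2 = Real.pi * a := by ring
  rw [h2]
  have h3 : |Real.pi * a| ≤ Real.pi / 2 := by
    rw [abs_mul, abs_of_pos Real.pi_pos]
    nlinarith [Real.pi_pos]
  have h4 := Real.mul_abs_le_abs_sin h3
  rw [abs_mul, abs_of_pos Real.pi_pos, ← mul_assoc, div_mul_cancel₀ _ Real.pi_pos.ne'] at h4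
  linarith

theorem ch_ne_one {x : T1} (hx : x ≠ 0) : ch x ≠ 1 := by
  intro h
  have := norm_ch_sub_one x
  rw [h, sub_self, norm_zero] at this
  have h2 : 0 < ‖x‖ := norm_pos_iff.2 hx
  linarith

end Pool.Agent.P.MP_7f9919_an
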