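import Pool.Agent.P.MP_7f9919_an.Pair
import Pool.Agent.P.MP_7f9919_an.Prod

/-!
The test elements are small in the spatial norm.
-/

set_option autoImplicit false
set_option linter.unusedSectionVars false

namespace Pool.Agent.P.MP_7f9919_an

open Finset Filter Topology

open scoped InnerProductSpace ComplexConjugate TensorProduct

theorem block_gap {j k : ℕ} (h : j ≠ k) (f : X j × X k → ℂ) :
    1 / 1024 * ∑ v, ‖f v‖ ^ 2 ≤ ∑ s : Fin 4, ∑ v : X j × X k,
      ‖coc j (gen s) v.1 * coc k (gen s) v.2 * f (act j (gen s) v.1, act k (gen s) v.2) -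
        f v‖ ^ 2 := by
  by_contra hcon
  rw [not_le, Fin.sum_univ_four] at hcon
  simp only [coc_gen0, coc_gen1, coc_gen2, coc_gen3, act_gen2, act_gen3, one_mul, ← ch_add,
    Prod.mk.eta] at hcon
  have n0 : 0 ≤ ∑ v : X j × X k, ‖f (act j (gen 0) v.1, act k (gen 0) v.2) - f v‖ ^ 2 := by
    positivity
  have n1 : 0 ≤ ∑ v : X j × X k, ‖f (act j (gen 1) v.1, act k (gen 1) v.2) - f v‖ ^ 2 := by
    positivity
  have n2 : 0 ≤ ∑ v : X j × X k, ‖ch ((pos j v.1).1 + (pos k v.2).1) * f v - f v‖ ^ 2 := by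
    positivity
  have n3 : 0 ≤ ∑ v : X j × X k, ‖ch ((pos j v.1).2 + (pos k v.2).2) * f v - f v‖ ^ 2 := by
    positivity
  have := pingpong_l2 ((act j (gen 0)).prodCongr (act k (gen 0)))
    ((act j (gen 1)).prodCongr (act k (gen 1))) (fun v => pos j v.1 + pos k v.2)
    (fun v => by
      simp only [Equiv.prodCongr_apply, Prod.map_fst, Prod.map_snd, pos_gen0, Prod.mk_add_mk,
        Prod.fst_add, Prod.snd_add, smul_add]
      rw [add_add_add_comm])
    (fun v => by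
      simp only [Equiv.prodCongr_apply, Prod.map_fst, Prod.map_snd, pos_gen1, Prod.mk_add_mk,
        Prod.fst_add, Prod.snd_add, smul_add]
      rw [add_add_add_comm]) f le_rfl
    (show ∑ v : X j × X k, ‖f (act j (gen 0) v.1, act k (gen 0) v.2) - f v‖ ^ 2 ≤ _ by linarith)
    (show ∑ v : X j × X k, ‖f (act j (gen 1) v.1, act k (gen 1) v.2) - f v‖ ^ 2 ≤ _ by linarith)
    (show ∑ v : X j × X k, ‖ch ((pos j v.1).1 + (pos k v.2).1) * f v - f v‖ ^ 2 ≤ _ by linarith)
    (show ∑ v : X j × X k, ‖ch ((pos j v.1).2 + (pos k v.2).2) * f v - f v‖ ^ 2 ≤ _ by linarith)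
  rw [mass, sum_congr rfl fun v _ => if_pos (pos_add_ne_zero h v.1 v.2)] at this
  linarith

theorem hasSum_mul_complex {ι κ : Type} {f : ι → ℂ} {g : κ → ℂ} {s t : ℂ} (h1 : HasSum f s)
    (h2 : HasSum g t) : HasSum (fun p : ι × κ => f p.1 * g p.2) (s * t) :=
  h1.mul h2 (summable_mul_of_summable_norm h1.summable.norm h2.summable.norm)

theorem tensor_mul_add {C C' : Type} [Ring C] [Algebra ℂ C] [Ring C'] [Algebra ℂ C']
    (a b c : C ⊗[ℂ] C') : a * (b + c) = a * b + a * c := mul_add a b c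

/-- The coefficients of the vector attached to a tensor. -/
noncomputable def co (η : H0) (j k : ℕ) : B0 ⊗[ℂ] B0 →ₗ[ℂ] (X j × X k → ℂ) :=
  TensorProduct.lift (LinearMap.mk₂ ℂ (fun x y v => x η j v.1 * y η k v.2)
    (fun _ _ _ => by ext; simp [add_mul]) (fun _ _ _ => by ext; simp [mul_assoc])
    (fun _ _ _ => by ext; simp [mul_add]) (fun _ _ _ => by ext; simp [mul_left_comm]))

theorem co_tmul (η : H0) (j k : ℕ) (x y : B0) (v : X j × X k) :
    co η j k (x ⊗ₜ y) v = x η j v.1 * y η k v.2 := rfl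

/-- The spatial vector state. -/
noncomputable def spat (η : H0) : PosFun (B0 ⊗[ℂ] B0) :=
  prodState (StarAlgHom.id ℂ B0) η (StarAlgHom.id ℂ B0) η

theorem hasSum_co (η : H0) (z z' : B0 ⊗[ℂ] B0) :
    HasSum (fun p : ℕ × ℕ => ∑ v, conj (co η p.1 p.2 z v) * co η p.1 p.2 z' v)
      ⟪(spat η).mk' z, (spat η).mk' z'⟫_ℂ := by
  induction z with
  | zero => simp
  | add a b ha hb =>
    simpa only [map_add, Pi.add_apply, add_mul, sum_add_distrib, inner_add_left] using ha.add hb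
  | tmul x y =>
    induction z' with
    | zero => simp
    | add a b ha hb =>
      simpa only [map_add, Pi.add_apply, mul_add, sum_add_distrib, inner_add_right]
        using ha.add hb
    | tmul x' y' =>
      have e := inner_prodState (StarAlgHom.id ℂ B0) η (StarAlgHom.id ℂ B0) η x x' y y'
      have h3 := hasSum_mul_complex (lp.hasSum_inner (𝕜 := ℂ) (x η) (x' η))
        (lp.hasSum_inner (𝕜 := ℂ) (y η) (y' η))
      have e' : ⟪(spat η).mk' (x ⊗ₜ y), (spat η).mk' (x' ⊗ₜ y')⟫_ℂ =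
        ⟪x η, x' η⟫_ℂ * ⟪y η, y' η⟫_ℂ := e
      rw [e']
      refine (congrArg (fun f => HasSum f _) (funext fun p => ?_)).mpr h3
      rw [PiLp.inner_apply, PiLp.inner_apply, sum_mul_sum, Fintype.sum_prod_type]
      refine sum_congr rfl fun v _ => sum_congr rfl fun w _ => ?_
      rw [co_tmul, co_tmul, RCLike.inner_apply, RCLike.inner_apply, map_mul]
      ring

theorem hasSum_co_norm (η : H0) (z : B0 ⊗[ℂ] B0) :
    HasSum (fun p : ℕ × ℕ => ∑ v, ‖co η p.1 p.2 z v‖ ^ 2) (‖(spat η).mk' z‖ ^ 2) := by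
  have := Complex.hasSum_re (hasSum_co η z z)
  rw [← inner_self_eq_norm_sq (𝕜 := ℂ)]
  simp only [Complex.re_sum, Complex.conj_mul', ← Complex.ofReal_pow, Complex.ofReal_re] at this
  exact this

theorem co_uu (η : H0) (j k : ℕ) (g : Aff) (z : B0 ⊗[ℂ] B0) (v : X j × X k) :
    co η j k ((uu g ⊗ₜ uu g) * z) v =
      coc j g v.1 * coc k g v.2 * co η j k z (act j g v.1, act k g v.2) := by
  induction z with
  | zero => rw [mul_zero (uu g ⊗ₜ[ℂ] uu g)]; simp
  | add a b ha hb =>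
    rw [tensor_mul_add (uu g ⊗ₜ[ℂ] uu g) a b, map_add, map_add, Pi.add_apply, Pi.add_apply, ha, hb, mul_add]
  | tmul x y =>
    rw [Algebra.TensorProduct.tmul_mul_tmul, co_tmul, co_tmul]
    show ub j g (x η j) v.1 * ub k g (y η k) v.2 = _
    rw [ub_apply, ub_apply]
    ring

theorem co_PP (η : H0) (j : ℕ) {ω ω' : Set ℕ} (h : Disjoint ω ω') (z : B0 ⊗[ℂ] B0) :
    co η j j ((PP ω ⊗ₜ PP ω') * z) = 0 := by
  induction z with
  | zero => rw [mul_zero (PP ω ⊗ₜ[ℂ] PP ω'), map_zero]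
  | add a b ha hb => rw [tensor_mul_add (PP ω ⊗ₜ[ℂ] PP ω') a b, map_add, ha, hb, add_zero]
  | tmul x y =>
    funext v
    rw [Algebra.TensorProduct.tmul_mul_tmul, co_tmul]
    show PP ω (x η) j v.1 * PP ω' (y η) j v.2 = 0
    by_cases hj : j ∈ ω
    · rw [PP_of_not_mem (Set.disjoint_left.1 h hj)]; simp
    · rw [PP_of_not_mem hj]; simp

theorem spat_tt_lt (η : H0) {ω ω' : Set ℕ} (h : Disjoint ω ω') (hb : (spat η).Bdd) :
    (spat η).nu hb (tt (StarAlgHom.id ℂ B0) (StarAlgHom.id ℂ B0) ω ω') < 8 := by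
  refine nu_tt_lt _ _ ω ω' _ hb (δ := 1 / 64) (by norm_num) fun z => ?_
  set ξ := qq (StarAlgHom.id ℂ B0) (StarAlgHom.id ℂ B0) ω ω' * z with hξ
  have s1 := (hasSum_co_norm η ξ).mul_left (1 / 1024)
  have s2 := hasSum_sum fun s (_ : s ∈ univ) =>
    hasSum_co_norm η (ww (StarAlgHom.id ℂ B0) (StarAlgHom.id ℂ B0) s * ξ - ξ)
  have h1 := hasSum_le (fun p => by
    obtain ⟨j, k⟩ := p
    rcases eq_or_ne j k with rfl | hjk
    · have : co η j j ξ = 0 := co_PP η j h z
      simp only [this, Pi.zero_apply, norm_zero]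
      norm_num
      positivity
    · refine (block_gap hjk _).trans (le_of_eq ?_)
      refine sum_congr rfl fun s _ => sum_congr rfl fun v _ => ?_
      rw [map_sub, Pi.sub_apply, ← co_uu]
      rfl) s1 s2
  by_contra hcon
  push Not at hcon
  have h2 : ∀ s, ‖(spat η).mk' (ww (StarAlgHom.id ℂ B0) (StarAlgHom.id ℂ B0) s * ξ - ξ)‖ ^ 2 <
      (1 / 64 * ‖(spat η).mk' ξ‖) ^ 2 := fun s =>
    pow_lt_pow_left₀ (by rw [map_sub]; exact hcon s) (norm_nonneg _) two_ne_zero
  rw [Fin.sum_univ_four] at h1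
  linarith [h2 0, h2 1, h2 2, h2 3]

end Pool.Agent.P.MP_7f9919_an
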